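import Pool.Agent.TH553.ST.Ext2
import Pool.Agent.TH553.ST.PW2

set_option autoImplicit false
set_option linter.unusedSectionVars false

/-!
# Central quotients: the law modulo a central subgroup
-/

namespace Pool.Agent.R370.ST

open Complex Filter Topology ComplexConjugate NumberField IsDedekindDomain MeasureTheory
  Pool.Agent.W540.BE Pool.Agent.TH553.RS Pool.Agent.TH553.ST
  Pool.Agent.H341R2

section

variable {K : Type} [Field K] [NumberField K] {G : Type} [Group G] {n : ℕ}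

/-- the absolute value of the logarithm, uniformly -/
theorem abs_log_L1 (π : G →* Matrix.unitaryGroup (Fin n) ℂ) (y : HeightOneSpectrum (𝓞 K) → G) :
    ∃ C : ℝ, ∀ (τ ε : ℝ), 0 < ε → L1 π y (1 + τ * I + ε) ≠ 0 ∧
      |Real.log ‖L1 π y (1 + τ * I + ε)‖| ≤
        EP (nm K) ε (fun v => ‖TH553.ST.chi π (y v)‖) + C := by
  obtain ⟨α, h1, h2, h3⟩ := exists_al1 π y
  refine ⟨∑' v : HeightOneSpectrum (𝓞 K), ((Fintype.card (Fin n) : ℕ) * 2 : ℝ) *
    (nm K v : ℝ) ^ (-(3 / 2) : ℝ), ?_⟩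
  intro τ ε hε
  set s : ℂ := 1 + τ * I + ε with hs
  have hre : s.re = 1 + ε := by
    rw [hs]
    simp
  have hs1 : 1 < s.re := by rw [hre]; linarith
  have hs' : s ∈ Hp := by
    have : (3 / 4 : ℝ) < s.re := by linarith
    exact this
  have e1 : L1 π y s = ∏' v, (∏ j, (1 - α v j * ((nm K v : ℕ) : ℂ) ^ (-s)))⁻¹ := by
    unfold L1
    exact tprod_congr fun v => by rw [h3]
  rw [e1, L_exp h1 hs1]
  refine ⟨Complex.exp_ne_zero _, ?_⟩
  rw [Complex.norm_exp, Real.log_exp]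
  refine (Complex.abs_re_le_norm _).trans ((norm_add_le _ _).trans (add_le_add ?_ ?_))
  · rw [← tsum_eq_LSeries (sum_le h1) hs1]
    have h4 := summable_nm (sum_le h1) hs1
    refine (norm_tsum_le_tsum_norm h4.norm).trans (le_of_eq ?_)
    unfold EP
    refine tsum_congr fun v => ?_
    rw [norm_mul, h2, norm_z, hre]
  · unfold Rt
    have h4 := summable_rt h1 hs'
    refine (norm_tsum_le_tsum_norm h4.norm).trans ?_
    exact Summable.tsum_le_tsum (fun v => rt_le h1 v hs') h4.norm (summable_b _)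

variable [TopologicalSpace G] [IsTopologicalGroup G] [CompactSpace G] [MeasurableSpace G]
  [BorelSpace G] {μ : Measure G} [IsProbabilityMeasure μ] [μ.IsHaarMeasure]
  {x : HeightOneSpectrum (𝓞 K) → G} {π : G →* Matrix.unitaryGroup (Fin n) ℂ}

/-- **The uniform bound.** -/
theorem unif_size {c : ℝ} (h : Tendsto (mn fun v => ‖TH553.ST.chi π (x v)‖) atTop (𝓝 c)) {η : ℝ}
    (hη : 0 < η) : ∃ ε₀ : ℝ, 0 < ε₀ ∧ ∀ τ ε : ℝ, 0 < ε → ε < ε₀ →
      L1 π x (1 + τ * I + ε) ≠ 0 ∧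
      |Real.log ‖L1 π x (1 + τ * I + ε)‖| ≤ (c + η) * Real.log (1 / ε) := by
  obtain ⟨C, hC⟩ := abs_log_L1 π x
  have hbd : Bd fun v => ‖TH553.ST.chi π (x v)‖ :=
    ⟨n, fun v => by rw [abs_norm]; exact norm_chi π _⟩
  -- the quotient of the sums
  have h1 : Tendsto (qt (nm K) fun v => ‖TH553.ST.chi π (x v)‖) (𝓝[>] 0) (𝓝 c) := by
    have h2 : Tendsto (mn fun v => ((‖TH553.ST.chi π (x v)‖ : ℝ) : ℂ)) atTop (𝓝 (c : ℂ)) := by
      have h3 := (Complex.continuous_ofReal.tendsto c).comp h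
      exact h3.congr fun n => ofReal_mn _ n
    have h3 := mean_edge (g := fun v => ((‖TH553.ST.chi π (x v)‖ : ℝ) : ℂ)) (B := n)
      (fun v => by rw [Complex.norm_real, norm_norm]; exact norm_chi π _) c (mn_tendsto h2) 0
    rw [if_pos rfl] at h3
    refine h3.congr fun ε => ?_
    unfold qt
    congr 2
    funext v
    simp
  have h2 : ∀ᶠ ε : ℝ in 𝓝[>] 0, |EP (nm K) ε (fun v => ‖TH553.ST.chi π (x v)‖)| ≤
      (|c| + 1) * lam ε := by
    have h3 : |c| < |c| + 1 := by linarith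
    filter_upwards [h1.abs.eventually_lt_const h3, lam_tendsto.eventually_gt_atTop 0] with ε h4 h5
    unfold qt at h4
    rw [abs_div, abs_of_pos h5, div_lt_iff₀ h5] at h4
    exact h4.le
  have h3 := size_compare (y := fun ε => EP (nm K) ε (fun v => ‖TH553.ST.chi π (x v)‖))
    (ℓ := fun ε => EP (nm K) ε (fun v => ‖TH553.ST.chi π (x v)‖) + C) (C := |C|) h2
    (Filter.Eventually.of_forall fun ε => by
      rw [sub_add_cancel_left, abs_neg])
  have h4 := h1.sub h3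
  rw [sub_zero] at h4
  have h5 : Tendsto (fun ε : ℝ => (EP (nm K) ε (fun v => ‖TH553.ST.chi π (x v)‖) + C) /
      Real.log (1 / ε)) (𝓝[>] 0) (𝓝 c) := by
    refine h4.congr fun ε => ?_
    unfold qt
    ring
  have h6 : ∀ᶠ ε : ℝ in 𝓝[>] 0, EP (nm K) ε (fun v => ‖TH553.ST.chi π (x v)‖) + C ≤
      (c + η) * Real.log (1 / ε) := by
    filter_upwards [h5.eventually_lt_const (show c < c + η by linarith),
      log_tendsto.eventually_gt_atTop 0] with ε h7 h8
    rw [div_lt_iff₀ h8] at h7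
    exact h7.le
  rw [eventually_nhdsWithin_iff, Metric.eventually_nhds_iff] at h6
  obtain ⟨ε₀, h7, h8⟩ := h6
  refine ⟨ε₀, h7, fun τ ε hε hε' => ⟨(hC τ ε hε).1, (hC τ ε hε).2.trans ?_⟩⟩
  exact h8 (by rw [Real.dist_eq, sub_zero, abs_of_pos hε]; exact hε') hε

/-- the mean absolute value of an irreducible character -/
theorem int_abs_lt_one (hc : Continuous π) (hs : Schur π) (hn : 1 < n) :
    ∫ g, ‖TH553.ST.chi π g‖ ∂μ < 1 := by
  have h1 := int_sq (μ := μ) hc hs (by omega)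
  have hcn : Continuous fun g => ‖TH553.ST.chi π g‖ := (cont_chi hc).norm
  have hcf : Continuous fun g => (1 - ‖TH553.ST.chi π g‖) ^ 2 := (continuous_const.sub hcn).pow 2
  have hpos : 0 < ∫ g, (1 - ‖TH553.ST.chi π g‖) ^ 2 ∂μ := by
    refine hcf.integral_pos_of_hasCompactSupport_nonneg_nonzero (x := 1)
      (HasCompactSupport.of_compactSpace _) (fun g => sq_nonneg _) ?_
    rw [chi_one, Complex.norm_natCast]
    have h2 : (1 : ℝ) < n := by exact_mod_cast hn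
    have h3 : (1 - (n : ℝ)) ≠ 0 := by linarith
    exact pow_ne_zero 2 h3
  have e : ∀ g, (1 - ‖TH553.ST.chi π g‖) ^ 2 = 1 - 2 * ‖TH553.ST.chi π g‖ +
      ‖TH553.ST.chi π g‖ ^ 2 := fun g => by ring
  simp only [e] at hpos
  have hI1 : Integrable (fun g => ‖TH553.ST.chi π g‖) μ := intg hcn
  have hI2 : Integrable (fun g => ‖TH553.ST.chi π g‖ ^ 2) μ := intg (hcn.pow 2)
  have hI3 : Integrable (fun g => 1 - 2 * ‖TH553.ST.chi π g‖) μ :=
    intg (continuous_const.sub (continuous_const.mul hcn))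
  have hI4 : Integrable (fun g => 2 * ‖TH553.ST.chi π g‖) μ := intg (continuous_const.mul hcn)
  rw [integral_add hI3 hI2, integral_sub (integrable_const _) hI4, integral_const_mul, h1] at hpos
  simp only [integral_const, probReal_univ, smul_eq_mul, mul_one] at hpos
  linarith

/-- the law modulo a central subgroup -/
def LawZ (Z : Subgroup G) (x : HeightOneSpectrum (𝓞 K) → G) (μ : Measure G) : Prop :=
  ∀ f : G → ℂ, Continuous f → (∀ g h, f (h * g * h⁻¹) = f g) → (∀ z ∈ Z, ∀ g, f (z * g) = f g) →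
    Tendsto (mn fun v => f (x v)) atTop (𝓝 (∫ g, f g ∂μ))

/-- scalars on the central subgroup -/
theorem norm_chi_mul {Z : Subgroup G}
    (hZ : ∀ z ∈ Z, ∃ c : ℂ, (π z : Matrix (Fin n) (Fin n) ℂ) = c • (1 : Matrix (Fin n) (Fin n) ℂ))
    {z : G} (hz : z ∈ Z) (g : G) : ‖TH553.ST.chi π (z * g)‖ = ‖TH553.ST.chi π g‖ := by
  rcases Nat.eq_zero_or_pos n with h0 | h0
  · subst h0
    unfold TH553.ST.chi
    simp
  obtain ⟨c, hc⟩ := hZ z hz
  have h1 : TH553.ST.chi π (z * g) = c * TH553.ST.chi π g := by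
    unfold TH553.ST.chi
    rw [pi_mul, hc, Matrix.smul_mul, Matrix.one_mul, Matrix.trace_smul, smul_eq_mul]
  have h2 : ‖c‖ = 1 := by
    have h3 := pi_star (π := π) z
    rw [hc] at h3
    have h4 := congrFun (congrFun h3 ⟨0, h0⟩) ⟨0, h0⟩
    rw [Matrix.conjTranspose_smul, Matrix.conjTranspose_one, Matrix.smul_mul, Matrix.one_mul,
      Matrix.smul_apply, Matrix.smul_apply, Matrix.one_apply_eq, smul_eq_mul, smul_eq_mul,
      mul_one] at h4
    have h5 : ‖c‖ * ‖c‖ = 1 := by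
      have h6 := congrArg norm h4
      rw [norm_mul, norm_star, norm_one] at h6
      exact h6
    nlinarith [norm_nonneg c]
  rw [h1, norm_mul, h2, one_mul]

/-- the mean of the absolute value -/
theorem mn_abs {Z : Subgroup G} (hx : LawZ Z x μ) (hc : Continuous π)
    (hZ : ∀ z ∈ Z, ∃ c : ℂ, (π z : Matrix (Fin n) (Fin n) ℂ) = c • (1 : Matrix (Fin n) (Fin n) ℂ)) :
    Tendsto (mn fun v => ‖TH553.ST.chi π (x v)‖) atTop (𝓝 (∫ g, ‖TH553.ST.chi π g‖ ∂μ)) := by
  have h1 := hx (fun g => ((‖TH553.ST.chi π g‖ : ℝ) : ℂ))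
    (Complex.continuous_ofReal.comp (cont_chi hc).norm) (fun g h => by rw [chi_cls])
    (fun z hz g => by rw [norm_chi_mul hZ hz])
  have h0 : ∫ g, ((‖TH553.ST.chi π g‖ : ℝ) : ℂ) ∂μ =
      ((∫ g, ‖TH553.ST.chi π g‖ ∂μ : ℝ) : ℂ) := integral_ofReal
  rw [h0] at h1
  have h2 := (Complex.continuous_re.tendsto _).comp h1
  refine h2.congr fun N => ?_
  simp only [Function.comp]
  rw [re_mn]
  rfl

/-- central elements act by scalars in an irreducible representation -/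
theorem scalar_of_central {Z : Subgroup G} (hZ : Z ≤ Subgroup.center G) (hs : Schur π) :
    ∀ z ∈ Z, ∃ c : ℂ, (π z : Matrix (Fin n) (Fin n) ℂ) = c • (1 : Matrix (Fin n) (Fin n) ℂ) := by
  intro z hz
  refine hs _ fun g => ?_
  rw [← pi_mul, ← pi_mul, (Subgroup.mem_center_iff.1 (hZ hz)) g]

/-- the order of a local continuation -/
theorem order_zero_Z {Z : Subgroup G} (hZ : Z ≤ Subgroup.center G) (hx : LawZ Z x μ)
    (hc : Continuous π) (hs : Schur π) (hn : 1 < n) {τ : ℝ} {Λ : ℂ → ℂ}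
    (h1 : MeromorphicAt Λ (1 + τ * I))
    (h2 : ∀ᶠ s in 𝓝 ((1 : ℂ) + τ * I), (1 : ℝ) < s.re → Λ s = L1 π x s) :
    meromorphicOrderAt Λ (1 + τ * I) = 0 := by
  obtain ⟨m, h3, h4⟩ := order_L1 h1 h2
  have hlt := int_abs_lt_one (μ := μ) hc hs hn
  set c := ∫ g, ‖TH553.ST.chi π g‖ ∂μ with hcdef
  obtain ⟨ε₀, h5, h6⟩ := unif_size (mn_abs hx hc (scalar_of_central hZ hs))
    (η := (1 - c) / 2) (by linarith)
  have h7 : ∀ᶠ ε : ℝ in 𝓝[>] 0, |sz1 π x τ ε| ≤ c + (1 - c) / 2 := by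
    have h8 : ∀ᶠ ε : ℝ in 𝓝[>] 0, ε < ε₀ := (eventually_lt_nhds h5).filter_mono nhdsWithin_le_nhds
    filter_upwards [h8, self_mem_nhdsWithin, log_tendsto.eventually_gt_atTop 0] with ε h9 h10 h11
    unfold sz1
    rw [abs_div, abs_of_pos h11, div_le_iff₀ h11]
    exact (h6 τ ε h10 h9).2
  have h8 := le_of_tendsto h4.abs h7
  rw [abs_neg] at h8
  have h9 : |(m : ℝ)| < 1 := by linarith
  have h10 : |m| < 1 := by exact_mod_cast h9
  rw [h3, Int.abs_lt_one_iff.1 h10]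
  rfl

/-- **The law lifts.** -/
theorem lift_law [T2Space G] {Z : Subgroup G} (hZ : Z ≤ Subgroup.center G) (hx : LawZ Z x μ)
    (hab : ∀ ψ : G →* Matrix.unitaryGroup (Fin 1) ℂ, Continuous ψ → (∃ z ∈ Z, ψ z ≠ 1) →
      Tendsto (mn fun v => TH553.ST.chi ψ (x v)) atTop (𝓝 0))
    (hcont : ∀ (n : ℕ) (π : G →* Matrix.unitaryGroup (Fin n) ℂ), Continuous π → Schur π → 1 < n →
      (∃ z ∈ Z, π z ≠ 1) → ∀ τ : ℝ, ∃ Λ : ℂ → ℂ, MeromorphicAt Λ (1 + τ * I) ∧
      ∀ᶠ s in 𝓝 ((1 : ℂ) + τ * I), (1 : ℝ) < s.re → Λ s = L1 π x s)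
    {f : G → ℂ} (hf : Continuous f) (hcl : ∀ g k, f (k * g * k⁻¹) = f g) :
    Tendsto (mn fun v => f (x v)) atTop (𝓝 (∫ g, f g ∂μ)) := by
  refine weyl (fun n π hc hs hnt => ?_) hf hcl
  by_cases hz : ∃ z ∈ Z, π z ≠ 1
  · have hn0 : n ≠ 0 := ne_zero_of_nt hnt
    by_cases hn : n = 1
    · subst hn
      exact hab π hc hz
    · have hn1 : 1 < n := by omega
      refine avg_L1 fun τ => ?_
      obtain ⟨Λ, h1, h2⟩ := hcont n π hc hs hn1 hz τ
      exact ⟨Λ, h1, h2, order_zero_Z hZ hx hc hs hn1 h1 h2⟩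
  · push Not at hz
    have h1 := hx (TH553.ST.chi π) (cont_chi hc) (fun g h => chi_cls π g h) (fun z hz' g => by
      unfold TH553.ST.chi
      rw [map_mul, hz z hz', one_mul])
    rw [int_chi hc hs hnt] at h1
    exact h1

end

end Pool.Agent.R370.ST
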