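import Pool.Agent.R370.ST.FinH
import Pool.Agent.W353.NF.Corr
import Pool.Agent.R386.ST.Base

set_option autoImplicit false
set_option linter.unusedSectionVars false

/-!
# Averages over the primes of an extension
-/

namespace Pool.Agent.R370.ST

open Complex Filter Topology ComplexConjugate NumberField IsDedekindDomain MeasureTheory
  Pool.Agent.W401.Cheb Pool.Agent.W540.BE Pool.Agent.TH553.RS Pool.Agent.TH553.ST
  Pool.Agent.H341R2
open Pool.Agent.R386.ST (AH PP ke BC mean_bc mean_ke)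
open Pool.Agent.W353.NF (act fixn fixn_conj fixn_le push_fix ker_act_open vx)
open Pool.Agent.W353.TP (HX qh push push_abs_le)
open Pool.Agent.H921R2.TatePole (kerPrime below)
open Pool.Agent.W529.ST (NN Av Av_sub)

section

variable {K : Type} [Field K] [NumberField K]

theorem mean_eq_mn (g : HeightOneSpectrum (𝓞 K) → ℝ) : Pool.Agent.W529.ST.mean K g = mn g := by
  funext N
  have hs : ∀ v, v ∈ upto K N ↔ Ideal.absNorm v.asIdeal ≤ N := fun v => mem_upto
  let e : {v : HeightOneSpectrum (𝓞 K) // Ideal.absNorm v.asIdeal ≤ N} ≃ (upto K N) :=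
    Equiv.subtypeEquivRight fun v => (hs v).symm
  have hfin : Finite {v : HeightOneSpectrum (𝓞 K) // Ideal.absNorm v.asIdeal ≤ N} :=
    Finite.of_equiv _ e.symm
  unfold Pool.Agent.W529.ST.mean mn
  have h1 : (∑ᶠ v : {v : HeightOneSpectrum (𝓞 K) // Ideal.absNorm v.asIdeal ≤ N}, g v.1) =
      ∑ v ∈ upto K N, g v := by
    rw [← Finset.sum_coe_sort, ← finsum_eq_sum_of_fintype, ← finsum_comp_equiv e]
    rfl
  have h2 : Nat.card {v : HeightOneSpectrum (𝓞 K) // Ideal.absNorm v.asIdeal ≤ N} =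
      (upto K N).card := by
    rw [Nat.card_congr e, Nat.card_eq_fintype_card, Fintype.card_coe]
  rw [h1, h2, smul_eq_mul, div_eq_inv_mul]

theorem card_upto_atTop : Tendsto (fun N : ℕ => ((upto K N).card : ℝ)) atTop atTop := by
  refine (Pool.Agent.W529.ST.card_atTop K).congr fun N => ?_
  have hs : ∀ v, v ∈ upto K N ↔ Ideal.absNorm v.asIdeal ≤ N := fun v => mem_upto
  let e : {v : HeightOneSpectrum (𝓞 K) // Ideal.absNorm v.asIdeal ≤ N} ≃ (upto K N) :=
    Equiv.subtypeEquivRight fun v => (hs v).symm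
  rw [Nat.card_congr e, Nat.card_eq_fintype_card, Fintype.card_coe]

/-- a function that vanishes off a finite set has average zero -/
theorem mn_finite {g : HeightOneSpectrum (𝓞 K) → ℂ} (S : Finset (HeightOneSpectrum (𝓞 K)))
    (hS : ∀ v, v ∉ S → g v = 0) : Tendsto (mn g) atTop (𝓝 0) := by
  classical
  have h1 : Tendsto (fun N : ℕ => ((upto K N).card : ℝ)⁻¹ * ∑ v ∈ S, ‖g v‖) atTop (𝓝 0) := by
    have := (tendsto_inv_atTop_zero.comp (card_upto_atTop (K := K))).mul_const (∑ v ∈ S, ‖g v‖)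
    rw [zero_mul] at this
    exact this
  refine squeeze_zero_norm (fun N => ?_) h1
  unfold mn
  rw [norm_smul, norm_inv, Real.norm_natCast]
  refine mul_le_mul_of_nonneg_left ?_ (by positivity)
  have h2 : ∑ v ∈ upto K N, g v = ∑ v ∈ upto K N ∩ S, g v := by
    refine (Finset.sum_subset Finset.inter_subset_left fun v hv hv' => ?_).symm
    exact hS v fun h => hv' (Finset.mem_inter.2 ⟨hv, h⟩)
  rw [h2]
  refine (norm_sum_le _ _).trans ?_
  exact Finset.sum_le_sum_of_subset_of_nonneg Finset.inter_subset_right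
    fun v _ _ => norm_nonneg _

variable {F : Type} [Field F] [NumberField F] [Algebra K F]

/-- averages over `F` as averages over `K` -/
theorem mn_fix {h : HeightOneSpectrum (𝓞 K) → ℝ} {g : HeightOneSpectrum (𝓞 F) → ℝ} {B : ℝ}
    (hh : ∀ v, |h v| ≤ B) (hg : ∀ w, |g w| ≤ B) (hbc : BC h g)
    {σ : HeightOneSpectrum (𝓞 K) → GK K} (hσ : ∀ v, IsFrob v (σ v)) :
    Tendsto (fun N => mn g N - mn (fun v => h v * (fixn K F (σ v) : ℝ)) N) atTop (𝓝 0) := by
  classical
  have h1 := mean_bc hg hbc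
  set f : HeightOneSpectrum (𝓞 K) → ℝ := fun v => h v * (fixn K F (σ v) : ℝ) with hf
  have hfb : ∀ v, |f v| ≤ B * Module.finrank ℚ F := by
    intro v
    rw [hf]
    simp only
    rw [abs_mul]
    refine mul_le_mul (hh v) ?_ (abs_nonneg _) ((abs_nonneg _).trans (hh v))
    rw [abs_of_nonneg (Nat.cast_nonneg _)]
    exact fixn_le _
  have h2 := mean_ke f hfb
  obtain ⟨S, hS⟩ := push_fix K F
  have h3 : Tendsto (fun N => AH N (fun x => ke h x * PP K F x) - AH N (ke f)) atTop (𝓝 0) := by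
    have hM : (∏ w ∈ S, ((below w : ℕ) : ℤ)) ≠ 0 :=
      Finset.prod_ne_zero_iff.2 fun w _ => by exact_mod_cast (below w).2.ne_zero
    have h4 : NN fun p => (∑ u : 𝓞 K →+* ZMod (p : ℕ), ke h ⟨p, u⟩ * PP K F ⟨p, u⟩) -
        ∑ u : 𝓞 K →+* ZMod (p : ℕ), ke f ⟨p, u⟩ := by
      refine NN.of_dvd hM fun p hp => ?_
      have : Fact (p : ℕ).Prime := ⟨p.2⟩
      rw [sub_eq_zero]
      refine Finset.sum_congr rfl fun u _ => ?_
      have hw : vx (⟨p, u⟩ : HX K) ∉ S := by
        intro hmem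
        apply hp
        have h3 : below (kerPrime p u).1.1 = p := (kerPrime p u).1.2
        have h4 := Finset.dvd_prod_of_mem (fun w => ((below w : ℕ) : ℤ)) hmem
        have h5 : below (vx (⟨p, u⟩ : HX K)) = p := h3
        simp only [h5] at h4
        exact h4
      have h5 := hS ⟨p, u⟩ hw _ (hσ _)
      have h6 : PP K F ⟨p, u⟩ = push K (qh (1 : 𝓞 F)) ⟨p, u⟩ := by
        unfold PP
        congr 1
        funext x
        exact (Pool.Agent.R386.ST.qh_one F x).symm
      rw [h6, h5]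
      rfl
    have h5 : Tendsto (fun N => Av N fun p => (∑ u : 𝓞 K →+* ZMod (p : ℕ),
        ke h ⟨p, u⟩ * PP K F ⟨p, u⟩) - ∑ u : 𝓞 K →+* ZMod (p : ℕ), ke f ⟨p, u⟩) atTop (𝓝 0) := h4
    refine h5.congr fun N => ?_
    rw [Av_sub]
    rfl
  have h4 := (h1.add h3).sub h2
  rw [add_zero, sub_zero] at h4
  refine h4.congr fun N => ?_
  rw [mean_eq_mn, mean_eq_mn]
  ring

/-- the complex form -/
theorem mn_fix_c {h : HeightOneSpectrum (𝓞 K) → ℂ} {g : HeightOneSpectrum (𝓞 F) → ℂ} {B : ℝ}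
    (hh : ∀ v, ‖h v‖ ≤ B) (hg : ∀ w, ‖g w‖ ≤ B)
    (hbc : ∃ S : Finset (HeightOneSpectrum (𝓞 F)), ∀ w, w ∉ S → ∀ v : HeightOneSpectrum (𝓞 K),
      w.asIdeal.comap (algebraMap (𝓞 K) (𝓞 F)) = v.asIdeal →
      Ideal.absNorm w.asIdeal = Ideal.absNorm v.asIdeal → g w = h v)
    {σ : HeightOneSpectrum (𝓞 K) → GK K} (hσ : ∀ v, IsFrob v (σ v)) {c : ℂ}
    (hc : Tendsto (mn fun v => h v * (fixn K F (σ v) : ℂ)) atTop (𝓝 c)) :
    Tendsto (mn g) atTop (𝓝 c) := by
  obtain ⟨S, hS⟩ := hbc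
  have h1 := mn_fix (h := fun v => (h v).re) (g := fun w => (g w).re)
    (fun v => (Complex.abs_re_le_norm _).trans (hh v))
    (fun w => (Complex.abs_re_le_norm _).trans (hg w))
    ⟨S, fun w hw v hv hv' => congrArg Complex.re (hS w hw v hv hv')⟩ hσ
  have h2 := mn_fix (h := fun v => (h v).im) (g := fun w => (g w).im)
    (fun v => (Complex.abs_im_le_norm _).trans (hh v))
    (fun w => (Complex.abs_im_le_norm _).trans (hg w))
    ⟨S, fun w hw v hv hv' => congrArg Complex.im (hS w hw v hv hv')⟩ hσ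
  have h3 := (Complex.continuous_re.tendsto _).comp hc
  have h4 := (Complex.continuous_im.tendsto _).comp hc
  have h5 := h1.add h3
  have h6 := h2.add h4
  rw [zero_add] at h5 h6
  have h7 := ((Complex.continuous_ofReal.tendsto _).comp h5).add
    (((Complex.continuous_ofReal.tendsto _).comp h6).mul_const I)
  rw [Complex.re_add_im] at h7
  refine h7.congr fun N => ?_
  simp only [Function.comp]
  rw [re_mn, im_mn]
  have e1 : (fun v => (h v * (fixn K F (σ v) : ℂ)).re) =
      fun v => (h v).re * (fixn K F (σ v) : ℝ) := by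
    funext v
    rw [← Complex.ofReal_natCast, Complex.re_mul_ofReal]
  have e2 : (fun v => (h v * (fixn K F (σ v) : ℂ)).im) =
      fun v => (h v).im * (fixn K F (σ v) : ℝ) := by
    funext v
    rw [← Complex.ofReal_natCast, Complex.im_mul_ofReal]
  rw [e1, e2, sub_add_cancel, sub_add_cancel, ← re_mn, ← im_mn]
  exact Complex.re_add_im _

end

end Pool.Agent.R370.ST
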