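import Pool.Agent.TH553.ST.PW2

set_option autoImplicit false
set_option linter.unusedSectionVars false

/-!
# A family of classes and a finite Galois group: no linking
-/

namespace Pool.Agent.R370.ST

open Complex Filter Topology ComplexConjugate NumberField IsDedekindDomain MeasureTheory
  Pool.Agent.W401.Cheb Pool.Agent.W540.BE Pool.Agent.TH553.RS Pool.Agent.TH553.ST
  Pool.Agent.H341R2
open scoped ComplexOrder

section

variable {Γ : Type} [Group Γ] [Finite Γ] [TopologicalSpace Γ] [DiscreteTopology Γ]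
  [MeasurableSpace Γ] [BorelSpace Γ] {μ' : Measure Γ} [IsProbabilityMeasure μ']
  [μ'.IsHaarMeasure]

/-- the integral over a finite group -/
theorem int_fin (f : Γ → ℂ) : ∫ γ, f γ ∂μ' = (Nat.card Γ : ℂ)⁻¹ * ∑ᶠ γ, f γ := by
  classical
  let _ : Fintype Γ := Fintype.ofFinite Γ
  have hsing : MeasurableSingletonClass Γ := inferInstance
  rw [integral_fintype (Integrable.of_finite)]
  have h1 : ∀ γ : Γ, μ'.real {γ} = μ'.real {1} := by
    intro γ
    have h2 : μ' ((fun x => γ⁻¹ * x) ⁻¹' {1}) = μ' {1} := measure_preimage_mul μ' γ⁻¹ {1}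
    have h3 : (fun x => γ⁻¹ * x) ⁻¹' {1} = {γ} := by
      ext x
      simp only [Set.mem_preimage, Set.mem_singleton_iff]
      rw [inv_mul_eq_one, eq_comm]
    rw [h3] at h2
    rw [measureReal_def, measureReal_def, h2]
  have h4 : ∑ γ : Γ, μ'.real {γ} = 1 := by
    have h5 := integral_fintype (μ := μ') (f := fun _ : Γ => (1 : ℝ)) Integrable.of_finite
    simp only [integral_const, smul_eq_mul, mul_one] at h5
    rw [← h5]
    exact probReal_univ
  simp only [h1] at h4 ⊢
  rw [Finset.sum_const, Finset.card_univ, nsmul_eq_mul] at h4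
  have h6 : μ'.real {(1 : Γ)} = (Nat.card Γ : ℝ)⁻¹ := by
    rw [Nat.card_eq_fintype_card]
    exact eq_inv_of_mul_eq_one_right h4
  rw [finsum_eq_sum_of_fintype, Finset.mul_sum]
  refine Finset.sum_congr rfl fun γ _ => ?_
  rw [h6, Complex.real_smul]
  push_cast
  rfl

end

section

variable {K : Type} [Field K] [NumberField K]
variable {Γ : Type} [Group Γ] [Finite Γ] [TopologicalSpace Γ] [DiscreteTopology Γ]
  [MeasurableSpace Γ] [BorelSpace Γ] {μ' : Measure Γ} [IsProbabilityMeasure μ']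
  [μ'.IsHaarMeasure]

/-- Chebotarev's theorem -/
theorem law_fin (r : GK K →* Γ) (hr : Function.Surjective r)
    (hopen : IsOpen (r.ker : Set (GK K))) {σ : HeightOneSpectrum (𝓞 K) → GK K}
    (hσ : ∀ v, IsFrob v (σ v)) : Law (fun v => r (σ v)) μ' := by
  classical
  intro f _ hcl
  set e : GK K ⧸ r.ker ≃* Γ := QuotientGroup.quotientKerEquivOfSurjective r hr with he
  have hfin : Finite (GK K ⧸ r.ker) := Finite.of_equiv Γ e.symm.toEquiv
  have h1 := cheb_mean r.ker hopen (fun q => ((f (e q) : ℝ) : ℂ)) (by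
    intro a g
    simp only [map_mul, map_inv]
    rw [hcl]) σ hσ
  have h2 := mn_of_pi h1
  have h3 : (Nat.card (GK K ⧸ r.ker) : ℂ)⁻¹ * ∑ᶠ q, ((f (e q) : ℝ) : ℂ) =
      ((∫ γ, f γ ∂μ' : ℝ) : ℂ) := by
    have h4 : ((∫ γ, f γ ∂μ' : ℝ) : ℂ) = ∫ γ, ((f γ : ℝ) : ℂ) ∂μ' := integral_ofReal.symm
    rw [h4, int_fin, Nat.card_congr e.toEquiv]
    congr 1
    exact finsum_comp_equiv e.toEquiv (f := fun γ => ((f γ : ℝ) : ℂ))
  rw [h3] at h2
  have h5 := (Complex.continuous_re.tendsto _).comp h2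
  rw [Complex.ofReal_re] at h5
  refine h5.congr fun N => ?_
  simp only [Function.comp]
  rw [re_mn]
  rfl

end

/-- a finite set of values of a continuous function on a component -/
theorem const_on_comp {X Y : Type*} [TopologicalSpace X]
    [TopologicalSpace Y] [T1Space Y] {f : X → Y} (hf : Continuous f) {s : Set Y}
    (hs : s.Finite) {x y : X} (hy : y ∈ connectedComponent x)
    (h : ∀ z ∈ connectedComponent x, f z ∈ s) : f y = f x := by
  by_contra hne
  have h1 : IsPreconnected (f '' connectedComponent x) :=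
    isPreconnected_connectedComponent.image f hf.continuousOn
  have h2 : (f '' connectedComponent x).Nontrivial :=
    ⟨f y, ⟨y, hy, rfl⟩, f x, ⟨x, mem_connectedComponent, rfl⟩, hne⟩
  refine h1.infinite_of_nontrivial h2 (hs.subset ?_)
  rintro _ ⟨z, hz, rfl⟩
  exact h z hz

section

variable {n : ℕ}

/-- a unitary matrix with a trace of maximal absolute value is a scalar -/
theorem scalar_of_norm {A : Matrix (Fin n) (Fin n) ℂ} (hA : A ∈ Matrix.unitaryGroup (Fin n) ℂ)
    (hn : n ≠ 0) (h : ‖A.trace‖ = n) : A = (A.trace / n) • (1 : Matrix (Fin n) (Fin n) ℂ) := by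
  have hn' : (n : ℂ) ≠ 0 := by exact_mod_cast hn
  set c : ℂ := A.trace / n with hc
  have hcn : A.trace = c * n := by rw [hc, div_mul_cancel₀ _ hn']
  have hc1 : ‖c‖ = 1 := by
    rw [hc, norm_div, h, Complex.norm_natCast, div_self]
    exact_mod_cast hn
  have hcc : c * conj c = 1 := by
    rw [Complex.mul_conj, Complex.normSq_eq_norm_sq, hc1]
    norm_num
  rw [← sub_eq_zero]
  rw [← Matrix.trace_mul_conjTranspose_self_eq_zero_iff]
  have h1 : A * A.conjTranspose = 1 := Matrix.mem_unitaryGroup_iff.1 hA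
  have h2 : (A - c • (1 : Matrix (Fin n) (Fin n) ℂ)) *
      (A - c • (1 : Matrix (Fin n) (Fin n) ℂ)).conjTranspose =
      A * A.conjTranspose - (conj c) • A - c • A.conjTranspose +
        (c * conj c) • (1 : Matrix (Fin n) (Fin n) ℂ) := by
    rw [Matrix.conjTranspose_sub, Matrix.conjTranspose_smul, Matrix.conjTranspose_one,
      Matrix.sub_mul, Matrix.mul_sub, Matrix.mul_sub, Matrix.mul_smul, Matrix.mul_one,
      Matrix.smul_mul, Matrix.one_mul, Matrix.smul_mul, Matrix.one_mul, smul_smul]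
    have : star c = conj c := rfl
    rw [this]
    abel
  rw [h2, h1, Matrix.trace_add, Matrix.trace_sub, Matrix.trace_sub, Matrix.trace_smul,
    Matrix.trace_smul, Matrix.trace_smul, Matrix.trace_one, Fintype.card_fin,
    Matrix.trace_conjTranspose, hcn]
  have : star (c * (n : ℂ)) = conj c * n := by
    change conj (c * (n : ℂ)) = _
    rw [map_mul, Complex.conj_natCast]
  rw [this]
  simp only [smul_eq_mul]
  linear_combination (-(n : ℂ)) * hcc

end

/-- polynomials are Lipschitz on bounded sets -/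
theorem lip_poly (P : Polynomial ℂ) (R : ℝ) : ∃ C : ℝ, 0 ≤ C ∧ ∀ z w : ℂ, ‖z‖ ≤ R → ‖w‖ ≤ R →
    ‖P.eval z - P.eval w‖ ≤ C * ‖z - w‖ := by
  induction P using Polynomial.induction_on' with
  | add p q hp hq =>
    obtain ⟨C, hC0, hC⟩ := hp
    obtain ⟨C', hC0', hC'⟩ := hq
    refine ⟨C + C', add_nonneg hC0 hC0', fun z w hz hw => ?_⟩
    rw [Polynomial.eval_add, Polynomial.eval_add, add_mul]
    have h1 : p.eval z + q.eval z - (p.eval w + q.eval w) =
        (p.eval z - p.eval w) + (q.eval z - q.eval w) := by ring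
    rw [h1]
    exact (norm_add_le _ _).trans (add_le_add (hC z w hz hw) (hC' z w hz hw))
  | monomial k a =>
    refine ⟨‖a‖ * (k * |R| ^ (k - 1)), by positivity, fun z w hz hw => ?_⟩
    rw [Polynomial.eval_monomial, Polynomial.eval_monomial, ← mul_sub, norm_mul, mul_assoc]
    refine mul_le_mul_of_nonneg_left ?_ (norm_nonneg _)
    rw [← (Commute.all z w).geom_sum₂_mul k, norm_mul]
    refine mul_le_mul_of_nonneg_right ?_ (norm_nonneg _)
    refine (norm_sum_le _ _).trans ?_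
    have h1 : ∀ i ∈ Finset.range k, ‖z ^ i * w ^ (k - 1 - i)‖ ≤ |R| ^ (k - 1) := by
      intro i hi
      rw [Finset.mem_range] at hi
      rw [norm_mul, norm_pow, norm_pow]
      have h2 : |R| ^ (k - 1) = |R| ^ i * |R| ^ (k - 1 - i) := by
        rw [← pow_add]
        congr 1
        omega
      rw [h2]
      exact mul_le_mul (pow_le_pow_left₀ (norm_nonneg _) (hz.trans (le_abs_self _)) _)
        (pow_le_pow_left₀ (norm_nonneg _) (hw.trans (le_abs_self _)) _) (by positivity)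
        (by positivity)
    refine (Finset.sum_le_sum h1).trans ?_
    rw [Finset.sum_const, Finset.card_range, nsmul_eq_mul]

section

variable {G : Type} [Group G] [TopologicalSpace G] [IsTopologicalGroup G] [CompactSpace G]
  [MeasurableSpace G] [BorelSpace G] {μ : Measure G} [IsProbabilityMeasure μ]
  [μ.IsHaarMeasure] {n : ℕ} {π : G →* Matrix.unitaryGroup (Fin n) ℂ}
variable {Γ : Type} [Group Γ] [Finite Γ] [TopologicalSpace Γ] [DiscreteTopology Γ]
  [MeasurableSpace Γ] [BorelSpace Γ] {μ' : Measure Γ} [IsProbabilityMeasure μ']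
  [μ'.IsHaarMeasure] {n' : ℕ} {τ : Γ →* Matrix.unitaryGroup (Fin n') ℂ}

/-- the representation is not trivial on the identity component -/
def NtConn (π : G →* Matrix.unitaryGroup (Fin n) ℂ) : Prop :=
  ∃ h ∈ connectedComponent (1 : G), π h ≠ 1

theorem NtConn.ne_zero (h : NtConn π) : n ≠ 0 := by
  rintro rfl
  obtain ⟨g, -, hg⟩ := h
  exact hg (Subtype.ext (Subsingleton.elim _ _))

theorem NtConn.nt (h : NtConn π) : ∃ g, π g ≠ 1 := by
  obtain ⟨g, -, hg⟩ := h
  exact ⟨g, hg⟩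

/-- laws with finitely many values -/
theorem sq_fin (hc : Continuous π)
    (hsame : ∀ k : ℕ, ∫ g, (‖chi π g‖ ^ 2) ^ k ∂μ = ∫ g, (‖chi τ g‖ ^ 2) ^ k ∂μ') (g : G) :
    ‖chi π g‖ ^ 2 ∈ Set.range fun γ : Γ => ‖chi τ γ‖ ^ 2 := by
  classical
  let _ : Fintype Γ := Fintype.ofFinite Γ
  have hcτ : Continuous τ := continuous_of_discreteTopology
  set P : Polynomial ℝ := ∏ γ : Γ, (Polynomial.X - Polynomial.C (‖chi τ γ‖ ^ 2)) ^ 2 with hP
  have hPe : ∀ u : ℝ, P.eval u = ∏ γ : Γ, (u - ‖chi τ γ‖ ^ 2) ^ 2 := by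
    intro u
    rw [hP, Polynomial.eval_prod]
    simp
  have h1 : ∫ g, P.eval (‖chi π g‖ ^ 2) ∂μ = ∫ g, P.eval (‖chi τ g‖ ^ 2) ∂μ' := by
    rw [int_poly hc, int_poly hcτ]
    exact Finset.sum_congr rfl fun k _ => by rw [hsame k]
  have h2 : ∀ γ : Γ, P.eval (‖chi τ γ‖ ^ 2) = 0 := by
    intro γ
    rw [hPe]
    exact Finset.prod_eq_zero (Finset.mem_univ γ) (by rw [sub_self]; norm_num)
  simp only [h2, integral_zero] at h1
  have hcf : Continuous fun g => P.eval (‖chi π g‖ ^ 2) :=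
    P.continuous.comp ((cont_chi hc).norm.pow 2)
  have h0 : ∀ g, 0 ≤ P.eval (‖chi π g‖ ^ 2) := by
    intro g
    rw [hPe]
    exact Finset.prod_nonneg fun γ _ => sq_nonneg _
  have h3 : ∀ g, P.eval (‖chi π g‖ ^ 2) = 0 := by
    intro g
    by_contra hne
    have h4 := int_pos (μ := μ) hcf h0 hne
    rw [h1] at h4
    exact lt_irrefl _ h4
  have h5 := h3 g
  rw [hPe, Finset.prod_eq_zero_iff] at h5
  obtain ⟨γ, -, h6⟩ := h5
  exact ⟨γ, by have := pow_eq_zero_iff (two_ne_zero) |>.1 h6; simp only; linarith⟩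

/-- scalars on the identity component -/
theorem scalar_comp (hc : Continuous π) (hn : n ≠ 0)
    (hsame : ∀ k : ℕ, ∫ g, (‖chi π g‖ ^ 2) ^ k ∂μ = ∫ g, (‖chi τ g‖ ^ 2) ^ k ∂μ') {h : G}
    (hh : h ∈ connectedComponent (1 : G)) : (π h : Matrix (Fin n) (Fin n) ℂ) =
      (chi π h / n) • (1 : Matrix (Fin n) (Fin n) ℂ) := by
  refine scalar_of_norm (π h).2 hn ?_
  have hfc : Continuous fun g => ‖chi π g‖ ^ 2 := (cont_chi hc).norm.pow 2
  have h1 : ‖chi π h‖ ^ 2 = ‖chi π 1‖ ^ 2 := const_on_comp hfc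
    (Set.finite_range _) hh fun z _ => sq_fin hc hsame z
  rw [chi_one, Complex.norm_natCast] at h1
  have h2 : ‖chi π h‖ = n := by
    have := (sq_eq_sq₀ (norm_nonneg (chi π h)) (Nat.cast_nonneg n)).1 h1
    exact this
  exact h2

/-- powers of the character have mean value zero -/
theorem int_pow_zero (hc : Continuous π) (hnt : NtConn π)
    (hsc : ∀ h ∈ connectedComponent (1 : G), (π h : Matrix (Fin n) (Fin n) ℂ) =
      (chi π h / n) • (1 : Matrix (Fin n) (Fin n) ℂ)) {k : ℕ} (hk : k ≠ 0) :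
    ∫ g, chi π g ^ k ∂μ = 0 := by
  have hn := hnt.ne_zero
  have hn' : (n : ℂ) ≠ 0 := by exact_mod_cast hn
  have h1 : ∃ h ∈ connectedComponent (1 : G), (chi π h / n) ^ k ≠ 1 := by
    by_contra hcon
    push Not at hcon
    have hfin : {z : ℂ | z ^ k = 1}.Finite := by
      have h2 : {z : ℂ | z ^ k = 1} ⊆ ((Polynomial.nthRoots k (1 : ℂ)).toFinset : Set ℂ) := by
        intro z hz
        rw [Finset.mem_coe, Multiset.mem_toFinset, Polynomial.mem_nthRoots (by omega)]
        exact hz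
      exact (Finset.finite_toSet _).subset h2
    obtain ⟨g, hg, hg'⟩ := hnt
    apply hg'
    have h3 : chi π g / n = chi π 1 / n :=
      const_on_comp (f := fun g => chi π g / n) ((cont_chi hc).div_const _) hfin hg hcon
    have h4 := hsc g hg
    rw [h3, chi_one, div_self hn', one_smul] at h4
    exact Subtype.ext h4
  obtain ⟨h, hh, hhk⟩ := h1
  have h2 : ∫ g, chi π (h * g) ^ k ∂μ = ∫ g, chi π g ^ k ∂μ :=
    integral_mul_left_eq_self (fun g => chi π g ^ k) h
  have h3 : (fun g => chi π (h * g) ^ k) = fun g => (chi π h / n) ^ k * chi π g ^ k := by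
    funext g
    rw [← mul_pow]
    congr 1
    have h4 : (π (h * g) : Matrix (Fin n) (Fin n) ℂ).trace =
        ((π h : Matrix (Fin n) (Fin n) ℂ) * (π g : Matrix (Fin n) (Fin n) ℂ)).trace := by
      rw [pi_mul]
    rw [hsc h hh, Matrix.smul_mul, Matrix.one_mul, Matrix.trace_smul] at h4
    exact h4
  rw [h3, integral_const_mul] at h2
  have h4 : ((chi π h / n) ^ k - 1) * ∫ g, chi π g ^ k ∂μ = 0 := by linear_combination h2
  exact (mul_eq_zero.1 h4).resolve_left (sub_ne_zero.2 hhk)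

variable {K : Type} [Field K] [NumberField K] {x : HeightOneSpectrum (𝓞 K) → G}
  {φ : HeightOneSpectrum (𝓞 K) → Γ}

/-- polynomials in the character, with a height -/
theorem M_poly_zero (hx : Law x μ) (hc : Continuous π)
    (h0 : ∀ k : ℕ, k ≠ 0 → ∫ g, chi π g ^ k ∂μ = 0) (t : ℝ)
    {U : Ultrafilter ℝ} (hU : (U : Filter ℝ) ≤ 𝓝[>] 0) (P : Polynomial ℂ) (hP : P.coeff 0 = 0) :
    (M (nm K) U fun v => (P.eval (chi π (x v) * ((nm K v : ℕ) : ℂ) ^ (-(t * I : ℂ)))).re) = 0 := by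
  have hN := sysF K
  have hcf : ∀ k : ℕ, Continuous fun g => P.coeff k * chi π g ^ k := fun k =>
    continuous_const.mul ((cont_chi hc).pow k)
  have hbd : ∀ k : ℕ, Bc fun v => P.coeff k * chi π (x v) ^ k := by
    intro k
    refine ⟨‖P.coeff k‖ * (n : ℝ) ^ k, fun v => ?_⟩
    rw [norm_mul, norm_pow]
    exact mul_le_mul_of_nonneg_left (pow_le_pow_left₀ (norm_nonneg _) (norm_chi π _) _)
      (norm_nonneg _)
  have hbq : ∀ s : ℝ, Bc fun v : HeightOneSpectrum (𝓞 K) =>
      ((nm K v : ℕ) : ℂ) ^ (-(s * I : ℂ)) := fun s =>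
    ⟨1, fun v => (norm_cpow_I (nm_pos v) s).le⟩
  have hkey : ∀ k : ℕ, (M (nm K) U fun v => (P.coeff k * chi π (x v) ^ k *
      ((nm K v : ℕ) : ℂ) ^ (-((((k : ℝ) * t : ℝ) : ℂ) * I))).re) = 0 := by
    intro k
    refine M_height hU (hbd k) ?_ _
    by_cases hk : k = 0
    · subst hk
      have h1 := law_c hx (hcf 0) (fun g h => by rw [chi_cls])
      have h2 : ∫ g, P.coeff 0 * chi π g ^ 0 ∂μ = 0 := by
        rw [hP]
        simp
      rw [h2] at h1
      exact h1
    · have h1 := law_c hx (hcf k) (fun g h => by rw [chi_cls])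
      rw [integral_const_mul, h0 k hk, mul_zero] at h1
      exact h1
  have e : (fun v : HeightOneSpectrum (𝓞 K) =>
      (P.eval (chi π (x v) * ((nm K v : ℕ) : ℂ) ^ (-(t * I : ℂ)))).re) =
      fun v => ∑ k ∈ Finset.range (P.natDegree + 1), (P.coeff k * chi π (x v) ^ k *
      ((nm K v : ℕ) : ℂ) ^ (-((((k : ℝ) * t : ℝ) : ℂ) * I))).re := by
    funext v
    rw [Polynomial.eval_eq_sum_range, Complex.re_sum]
    refine Finset.sum_congr rfl fun k _ => ?_
    congr 1
    rw [mul_pow, ← mul_assoc]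
    congr 1
    rw [← Complex.cpow_nat_mul]
    congr 1
    push_cast
    ring
  rw [e, M_sum hN hU _ fun k _ => ((hbd k).mul (hbq _)).re]
  exact Finset.sum_eq_zero fun k _ => hkey k

/-- **No linking with finite groups.** -/
theorem no_link (hx : Law x μ) (hφ : Law φ μ') (hc : Continuous π)
    (hnt : NtConn π) (t : ℝ) {U : Ultrafilter ℝ} (hU : (U : Filter ℝ) ≤ 𝓝[>] 0) {r : ℝ}
    (hr : |r| = 1) (h0 : (M (nm K) U fun v => ‖df r (tc π x 0) (tc τ φ t) v‖ ^ 2) = 0)
    (hsame : ∀ k : ℕ, ∫ g, (‖chi π g‖ ^ 2) ^ k ∂μ = ∫ g, (‖chi τ g‖ ^ 2) ^ k ∂μ') : False := by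
  classical
  let _ : Fintype Γ := Fintype.ofFinite Γ
  have hN := sysF K
  have hcτ : Continuous τ := continuous_of_discreteTopology
  have hn := hnt.ne_zero
  have hdim : n = n' := dim_eq hc hcτ hsame
  have hn' : (n' : ℂ) ≠ 0 := by
    rw [← hdim]
    exact_mod_cast hn
  have hr0 : (r : ℂ) ≠ 0 := by
    intro h
    rw [Complex.ofReal_eq_zero] at h
    rw [h, abs_zero] at hr
    exact zero_ne_one hr
  have hrn : ‖(r : ℂ)‖ = 1 := by rw [Complex.norm_real, Real.norm_eq_abs, hr]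
  have hpow : ∀ k : ℕ, k ≠ 0 → ∫ g, chi π g ^ k ∂μ = 0 := fun k hk =>
    int_pow_zero hc hnt (fun h hh => scalar_comp hc hn hsame hh) hk
  -- the polynomial
  set w : Γ → ℂ := fun γ => (r : ℂ) * conj (chi τ γ) with hw
  set w₀ : ℂ := (r : ℂ) * n' with hw₀
  have hw1 : w 1 = w₀ := by
    rw [hw]
    simp only
    rw [chi_one, Complex.conj_natCast]
  have hw0 : w₀ ≠ 0 := mul_ne_zero hr0 hn'
  set V : Finset ℂ := (Finset.univ.image w).erase w₀ with hV
  set P : Polynomial ℂ := Polynomial.X * ∏ a ∈ V, (Polynomial.X - Polynomial.C a) with hP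
  have hPe : ∀ z : ℂ, P.eval z = z * ∏ a ∈ V, (z - a) := by
    intro z
    rw [hP, Polynomial.eval_mul, Polynomial.eval_X, Polynomial.eval_prod]
    simp
  have hP0 : P.eval w₀ ≠ 0 := by
    rw [hPe]
    refine mul_ne_zero hw0 (Finset.prod_ne_zero_iff.2 fun a ha => ?_)
    rw [hV, Finset.mem_erase] at ha
    exact sub_ne_zero.2 (Ne.symm ha.1)
  set Q : Polynomial ℂ := Polynomial.C (P.eval w₀)⁻¹ * P with hQ
  have hQ0 : Q.coeff 0 = 0 := by
    rw [hQ, Polynomial.coeff_C_mul, hP, Polynomial.mul_coeff_zero, Polynomial.coeff_X_zero,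
      zero_mul, mul_zero]
  have hQe : ∀ γ, Q.eval (w γ) = if w γ = w₀ then 1 else 0 := by
    intro γ
    rw [hQ, Polynomial.eval_mul, Polynomial.eval_C]
    split_ifs with h
    · rw [h, inv_mul_cancel₀ hP0]
    · have h1 : P.eval (w γ) = 0 := by
        rw [hPe]
        refine mul_eq_zero_of_right _ (Finset.prod_eq_zero (i := w γ) ?_ (sub_self _))
        rw [hV, Finset.mem_erase]
        exact ⟨h, Finset.mem_image_of_mem _ (Finset.mem_univ _)⟩
      rw [h1, mul_zero]
  -- the function on the finite group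
  set f : Γ → ℝ := fun γ => (Q.eval (w γ)).re with hf
  have hfc : Continuous f := continuous_of_discreteTopology
  have hf0 : ∀ γ, 0 ≤ f γ := by
    intro γ
    rw [hf]
    simp only
    rw [hQe]
    split_ifs <;> simp
  have hf1 : f 1 ≠ 0 := by
    rw [hf]
    simp only
    rw [hQe, if_pos hw1]
    simp
  have hfcl : ∀ g h, f (h * g * h⁻¹) = f g := by
    intro g h
    rw [hf]
    simp only
    rw [hw]
    simp only
    rw [chi_cls]
  have hpos := int_pos (μ := μ') hfc hf0 hf1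
  have hMf := M_law hφ hU hfc hfcl
  -- the polynomial at the classes
  have hMQ := M_poly_zero hx hc hpow t hU Q hQ0
  set R : ℝ := (n : ℝ) with hR
  obtain ⟨C, hC0, hC⟩ := lip_poly Q R
  have hbt : Bc (tc π x 0) := bc_tc x 0
  have hbc : Bc (tc τ φ t) := bc_tc φ t
  have hbd : Bd fun v => ‖df r (tc π x 0) (tc τ φ t) v‖ := (Bc.df hbt hbc r).norm
  have hz := M_zero_of_sq hN hU hbd h0
  set A : HeightOneSpectrum (𝓞 K) → ℂ := fun v =>
    chi π (x v) * ((nm K v : ℕ) : ℂ) ^ (-(t * I : ℂ)) with hA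
  have hA1 : ∀ v, ‖A v‖ ≤ R := by
    intro v
    rw [hA]
    simp only
    rw [norm_mul, norm_cpow_I (nm_pos v), mul_one]
    exact norm_chi π _
  have hw2 : ∀ γ, ‖w γ‖ ≤ R := by
    intro γ
    rw [hw]
    simp only
    rw [norm_mul, hrn, one_mul, Complex.norm_conj, hR, hdim]
    exact norm_chi τ _
  have hdf : ∀ v, ‖A v - w (φ v)‖ = ‖df r (tc π x 0) (tc τ φ t) v‖ := by
    intro v
    have h1 : tc π x 0 v = chi π (x v) := by
      unfold tc
      simp only [Complex.ofReal_zero, zero_mul, neg_zero, Complex.cpow_zero, mul_one]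
    have h2 : A v - w (φ v) = ((nm K v : ℕ) : ℂ) ^ (-(t * I : ℂ)) *
        df r (tc π x 0) (tc τ φ t) v := by
      have h3 : ((nm K v : ℕ) : ℂ) ^ (-(t * I : ℂ)) *
          conj (((nm K v : ℕ) : ℂ) ^ (-(t * I : ℂ))) = 1 := by
        rw [Complex.mul_conj, Complex.normSq_eq_norm_sq, norm_cpow_I (nm_pos v)]
        norm_num
      unfold df
      rw [h1, hA, hw]
      simp only
      unfold tc
      rw [map_mul]
      linear_combination (r : ℂ) * conj (chi τ (φ v)) * h3
    rw [h2, norm_mul, norm_cpow_I (nm_pos v), one_mul]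
  have hbA : Bd fun v => (Q.eval (A v)).re := by
    have h1 : Bc fun v => Q.eval (A v) := by
      refine ⟨C * R + ‖Q.eval 0‖, fun v => ?_⟩
      have h2 := hC (A v) 0 (hA1 v) (by rw [norm_zero, hR]; positivity)
      rw [sub_zero] at h2
      have h3 := norm_add_le (Q.eval (A v) - Q.eval 0) (Q.eval 0)
      rw [sub_add_cancel] at h3
      have h4 : C * ‖A v‖ ≤ C * R := mul_le_mul_of_nonneg_left (hA1 v) hC0
      simp only
      linarith
    exact h1.re
  have hbf : Bd fun v => f (φ v) := bd_cont hfc φ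
  have hle : ∀ v, |(Q.eval (A v)).re - f (φ v)| ≤
      C * ‖df r (tc π x 0) (tc τ φ t) v‖ := by
    intro v
    rw [← hdf v]
    have h1 := hC (A v) (w (φ v)) (hA1 v) (hw2 _)
    have h2 : (Q.eval (A v)).re - f (φ v) = (Q.eval (A v) - Q.eval (w (φ v))).re := by
      rw [Complex.sub_re]
    rw [h2]
    exact (Complex.abs_re_le_norm _).trans h1
  have hz1 : (M (nm K) U fun v => C * ‖df r (tc π x 0) (tc τ φ t) v‖) = 0 := by
    rw [M_const_mul hN hU hbd, hz, mul_zero]
  have hz2 : (M (nm K) U fun v => |(Q.eval (A v)).re - f (φ v)|) = 0 :=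
    M_zero_of_le hN hU (hbA.sub hbf).abs (hbd.const_mul _) (fun v => abs_nonneg _) hle hz1
  have h1 : 0 ≤ M (nm K) U fun v => (Q.eval (A v)).re - f (φ v) := by
    have h2 := M_mono hN hU (hbA.sub hbf).neg (hbA.sub hbf).abs fun v => neg_le_abs _
    rw [hz2, M_neg hN hU (hbA.sub hbf)] at h2
    linarith
  rw [M_sub hN hU hbA hbf, hMQ, hMf] at h1
  linarith

end

end Pool.Agent.R370.ST
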