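import Pool.Agent.R370.ST.FinG

set_option autoImplicit false
set_option linter.unusedSectionVars false

/-!
# Artin twists of an equidistributed family
-/

namespace Pool.Agent.R370.ST

open Complex Filter Topology ComplexConjugate NumberField IsDedekindDomain MeasureTheory
  Pool.Agent.W401.Cheb Pool.Agent.W540.BE Pool.Agent.TH553.RS Pool.Agent.TH553.ST
  Pool.Agent.H341R2

section

variable {G : Type} [Group G] [TopologicalSpace G] [IsTopologicalGroup G] [CompactSpace G]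
  [MeasurableSpace G] [BorelSpace G] {μ : Measure G} [IsProbabilityMeasure μ]
  [μ.IsHaarMeasure] {n : ℕ} {π : G →* Matrix.unitaryGroup (Fin n) ℂ}
variable {Γ : Type} [Group Γ] [Finite Γ] [TopologicalSpace Γ] [DiscreteTopology Γ]
  [MeasurableSpace Γ] [BorelSpace Γ] {μ' : Measure Γ} [IsProbabilityMeasure μ']
  [μ'.IsHaarMeasure] {n' : ℕ} {τ : Γ →* Matrix.unitaryGroup (Fin n') ℂ}
variable {K : Type} [Field K] [NumberField K] {x : HeightOneSpectrum (𝓞 K) → G}
  {φ : HeightOneSpectrum (𝓞 K) → Γ}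

/-- **The strict bound.** -/
theorem art_lt (hx : Law x μ) (hφ : Law φ μ') (hc : Continuous π) (hs : Schur π)
    (hnt : NtConn π) (hs' : Schur τ) (t : ℝ) :
    ∃ δ : ℝ, 0 < δ ∧ ∀ᶠ ε in 𝓝[>] (0 : ℝ), |sz π x τ φ t ε| ≤ 1 - δ := by
  refine unif_lt fun U hU => ?_
  obtain ⟨r, h1, h2, h3⟩ := pair_lim hx hφ hc hs continuous_of_discreteTopology hs' t hU
  refine ⟨r, h1, ?_⟩
  by_contra hcon
  push Not at hcon
  have h4 : 1 ≤ r ^ 2 := by
    rw [← sq_abs]
    exact one_le_pow₀ hcon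
  obtain ⟨h5, h6, h7⟩ := h3 h4
  exact no_link hx hφ hc hnt t hU h5 h6 h7

theorem art_zero (hx : Law x μ) (hφ : Law φ μ') (hc : Continuous π) (hs : Schur π)
    (hnt : NtConn π) (hs' : Schur τ) {t : ℝ} {m : ℤ}
    (hm : Tendsto (sz π x τ φ t) (𝓝[>] 0) (𝓝 (-(m : ℝ)))) : m = 0 := by
  obtain ⟨δ, h1, h2⟩ := art_lt hx hφ hc hs hnt hs' t
  have h3 := le_of_tendsto hm.abs h2
  rw [abs_neg] at h3
  have h4 : |(m : ℝ)| < 1 := by linarith
  have h5 : |m| < 1 := by exact_mod_cast h4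
  exact Int.abs_lt_one_iff.1 h5

/-- the order of a local continuation -/
theorem art_order (hx : Law x μ) (hφ : Law φ μ') (hc : Continuous π) (hs : Schur π)
    (hnt : NtConn π) (hs' : Schur τ) {t : ℝ} {Λ : ℂ → ℂ} (h1 : MeromorphicAt Λ (1 + t * I))
    (h2 : ∀ᶠ s in 𝓝 ((1 : ℂ) + t * I), (1 : ℝ) < s.re → Λ s = LP π x τ φ s) :
    meromorphicOrderAt Λ (1 + t * I) = 0 := by
  obtain ⟨m, h3, h4⟩ := order_LP h1 h2
  have h5 := art_zero hx hφ hc hs hnt hs' h4
  rw [h3, h5]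
  rfl

/-- from continuations of order zero to averages -/
theorem avg_of_order {G' : Type} [Group G'] [TopologicalSpace G'] [IsTopologicalGroup G']
    [CompactSpace G'] [MeasurableSpace G'] [BorelSpace G'] {n' : ℕ} {π' : G' →* Matrix.unitaryGroup (Fin n') ℂ} {x' : HeightOneSpectrum (𝓞 K) → G'}
    (hcont : ∀ τ : ℝ, ∃ Λ : ℂ → ℂ, MeromorphicAt Λ (1 + τ * I) ∧
      (∀ᶠ s in 𝓝 ((1 : ℂ) + τ * I), (1 : ℝ) < s.re → Λ s = LP π x π' x' s) ∧
      meromorphicOrderAt Λ (1 + τ * I) = 0) :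
    Tendsto (mn fun v => chi π (x v) * chi π' (x' v)) atTop (𝓝 0) := by
  obtain ⟨α, h1, h2, h3⟩ := exists_al π x π' x'
  have h4 := taub h1 (L := LP π x π' x') (fun s _ => by
    unfold LP
    exact tprod_congr fun v => by rw [h3]) (fun τ => by
    obtain ⟨Λ, h5, h6, h7⟩ := hcont τ
    obtain ⟨g, h10, h11, h12⟩ := (meromorphicOrderAt_eq_int_iff (n := 0) h5).1 (by exact_mod_cast h7)
    refine ⟨g, h10, h11, ?_⟩
    rw [eventually_nhdsWithin_iff] at h12
    filter_upwards [h12, h6] with s h13 h14 h15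
    have hne : s ≠ 1 + τ * I := by
      intro h
      rw [h] at h15
      simp at h15
    have h16 := h13 hne
    rw [zpow_zero, one_smul] at h16
    rw [← h16, h14 h15])
  refine h4.congr fun N => ?_
  congr 1
  funext v
  exact h2 v

/-- **The decorrelation.** -/
theorem art_avg (hx : Law x μ) (hφ : Law φ μ') (hc : Continuous π) (hs : Schur π)
    (hnt : NtConn π) (hs' : Schur τ)
    (hcont : ∀ t : ℝ, ∃ Λ : ℂ → ℂ, MeromorphicAt Λ (1 + t * I) ∧
      ∀ᶠ s in 𝓝 ((1 : ℂ) + t * I), (1 : ℝ) < s.re → Λ s = LP π x τ φ s) :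
    Tendsto (mn fun v => chi π (x v) * chi τ (φ v)) atTop (𝓝 0) :=
  avg_of_order fun t => by
    obtain ⟨Λ, h1, h2⟩ := hcont t
    exact ⟨Λ, h1, h2, art_order hx hφ hc hs hnt hs' h1 h2⟩

/-- class functions on the finite group -/
theorem art_cls (hx : Law x μ) (hφ : Law φ μ') (hc : Continuous π) (hs : Schur π)
    (hnt : NtConn π)
    (hcont : ∀ (m : ℕ) (τ : Γ →* Matrix.unitaryGroup (Fin m) ℂ), Schur τ → ∀ t : ℝ,
      ∃ Λ : ℂ → ℂ, MeromorphicAt Λ (1 + t * I) ∧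
      ∀ᶠ s in 𝓝 ((1 : ℂ) + t * I), (1 : ℝ) < s.re → Λ s = LP π x τ φ s)
    {f : Γ → ℂ} (hf : ∀ a b, f (b * a * b⁻¹) = f a) :
    Tendsto (mn fun v => chi π (x v) * f (φ v)) atTop (𝓝 0) := by
  refine mn_unif fun ε hε => ?_
  obtain ⟨Fn, h1, h2⟩ := class_dense (G := Γ) (f := f) continuous_of_discreteTopology
    (fun g k => hf g k) (ε := ε / ((n : ℝ) + 1)) (by positivity)
  obtain ⟨J, _, m, ρ, a, h3, h4⟩ := h1
  refine ⟨fun v => chi π (x v) * Fn (φ v), 0, fun v => ?_, by simpa using hε.le, ?_⟩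
  · rw [← mul_sub, norm_mul]
    have h5 := norm_chi π (x v)
    have h6 := h2 (φ v)
    have h7 : ‖chi π (x v)‖ * ‖f (φ v) - Fn (φ v)‖ ≤ (n : ℝ) * (ε / ((n : ℝ) + 1)) := by
      exact mul_le_mul h5 h6 (norm_nonneg _) (Nat.cast_nonneg _)
    refine h7.trans ?_
    rw [mul_div_assoc', div_le_iff₀ (by positivity)]
    nlinarith
  · have e : (fun v => chi π (x v) * Fn (φ v)) =
        fun v => ∑ j, a j * (chi π (x v) * chi (ρ j) (φ v)) := by
      funext v
      rw [h4, Finset.mul_sum]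
      exact Finset.sum_congr rfl fun j _ => by ring
    rw [e]
    have h5 : Tendsto (fun N => ∑ j, a j * mn (fun v => chi π (x v) * chi (ρ j) (φ v)) N) atTop
        (𝓝 (∑ j, a j * 0)) :=
      tendsto_finsetSum _ fun j _ => (art_avg hx hφ hc hs hnt (h3 j).2
        (hcont _ (ρ j) (h3 j).2)).const_mul _
    simp only [mul_zero, Finset.sum_const_zero] at h5
    refine h5.congr fun N => ?_
    rw [mn_sum]
    exact Finset.sum_congr rfl fun j _ => (mn_mul _ _ _).symm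

end

end Pool.Agent.R370.ST
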