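import Pool.Agent.R370.ST.FinF

set_option autoImplicit false
set_option linter.unusedSectionVars false

/-!
# Inheritance of the Sato-Tate law
-/

namespace Pool.Agent.R370.ST

open Complex Filter Topology ComplexConjugate NumberField IsDedekindDomain MeasureTheory
  Pool.Agent.W401.Cheb Pool.Agent.W540.BE Pool.Agent.TH553.RS Pool.Agent.TH553.ST
  Pool.Agent.H341R2
open Pool.Agent.W353.NF (act fixn fixn_conj fixn_le push_fix ker_act_open vx)
open scoped Kronecker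

/-- the number of fixed points is a class function -/
theorem fix_cls {Γ Y : Type*} [Group Γ] (b : Γ →* Equiv.Perm Y) (a c : Γ) :
    Nat.card {i // b (c * a * c⁻¹) i = i} = Nat.card {i // b a i = i} := by
  refine Nat.card_congr (Equiv.subtypeEquiv (b c⁻¹) fun i => ?_)
  rw [map_mul, map_mul, Equiv.Perm.mul_apply, Equiv.Perm.mul_apply, map_inv]
  constructor
  · intro h
    rw [Equiv.Perm.eq_inv_iff_eq]
    exact h
  · intro h
    rw [Equiv.Perm.eq_inv_iff_eq] at h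
    exact h

/-- sums over the stabilisers -/
theorem sum_fix_zero {Γ Y : Type} [Group Γ] [Fintype Γ] [Finite Y] (a : Γ →* Equiv.Perm Y) {n : ℕ}
    (ρ : Γ →* Matrix.unitaryGroup (Fin n) ℂ) (hs : Schur ρ) (hnt : ∃ γ, ρ γ ≠ 1)
    (hst : ∀ (y : Y) (γ : Γ), ∃ γ', a γ' y = y ∧ ρ γ' = ρ γ) :
    ∑ γ, chi ρ γ * (Nat.card {y // a γ y = y} : ℂ) = 0 := by
  classical
  let _ : Fintype Y := Fintype.ofFinite Y
  have h1 : ∀ γ, (Nat.card {y // a γ y = y} : ℂ) = ∑ y : Y, if a γ y = y then (1 : ℂ) else 0 := by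
    intro γ
    rw [Nat.card_eq_fintype_card, Fintype.card_subtype, Finset.sum_boole]
  simp only [h1, Finset.mul_sum]
  rw [Finset.sum_comm]
  refine Finset.sum_eq_zero fun y _ => ?_
  set S : Matrix (Fin n) (Fin n) ℂ := ∑ γ, if a γ y = y then (ρ γ : Matrix (Fin n) (Fin n) ℂ) else 0
    with hS
  have h2 : ∀ γ', a γ' y = y → (ρ γ' : Matrix (Fin n) (Fin n) ℂ) * S = S := by
    intro γ' hγ'
    rw [hS, Finset.mul_sum]
    refine Fintype.sum_equiv (Equiv.mulLeft γ') _ _ fun γ => ?_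
    rw [Equiv.coe_mulLeft]
    have h3 : (a (γ' * γ) y = y) ↔ (a γ y = y) := by
      rw [map_mul, Equiv.Perm.mul_apply]
      constructor
      · intro h
        exact (a γ').injective (h.trans hγ'.symm)
      · intro h
        rw [h, hγ']
    simp only [h3]
    split_ifs
    · rw [map_mul]
      rfl
    · rw [mul_zero]
  have h2' : ∀ γ', a γ' y = y → S * (ρ γ' : Matrix (Fin n) (Fin n) ℂ) = S := by
    intro γ' hγ'
    rw [hS, Finset.sum_mul]
    refine Fintype.sum_equiv (Equiv.mulRight γ') _ _ fun γ => ?_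
    rw [Equiv.coe_mulRight]
    have h3 : (a (γ * γ') y = y) ↔ (a γ y = y) := by
      rw [map_mul, Equiv.Perm.mul_apply, hγ']
    simp only [h3]
    split_ifs
    · rw [map_mul]
      rfl
    · rw [zero_mul]
  have h3 : ∀ γ, (ρ γ : Matrix (Fin n) (Fin n) ℂ) * S = S := by
    intro γ
    obtain ⟨γ', h4, h5⟩ := hst y γ
    rw [← h5]
    exact h2 γ' h4
  have h3' : ∀ γ, S * (ρ γ : Matrix (Fin n) (Fin n) ℂ) = S := by
    intro γ
    obtain ⟨γ', h4, h5⟩ := hst y γ
    rw [← h5]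
    exact h2' γ' h4
  obtain ⟨c, hc⟩ := hs S fun g => by rw [h3, h3']
  have hc0 : c = 0 := by
    by_contra hne
    obtain ⟨γ, hγ⟩ := hnt
    apply hγ
    have h4 := h3 γ
    rw [hc, Matrix.mul_smul, Matrix.mul_one] at h4
    exact Subtype.ext (smul_right_injective _ hne h4)
  rw [hc0, zero_smul] at hc
  have h4 : S.trace = ∑ γ, chi ρ γ * (if a γ y = y then (1 : ℂ) else 0) := by
    rw [hS, Matrix.trace_sum]
    refine Finset.sum_congr rfl fun γ _ => ?_
    split_ifs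
    · rw [mul_one]
      rfl
    · rw [mul_zero, Matrix.trace_zero]
  rw [← h4, hc, Matrix.trace_zero]

section

variable {K : Type} [Field K] [NumberField K]

/-- a finite quotient of the absolute Galois group -/
structure FinQ (Γ : Type) [Group Γ] (r : GK K →* Γ) : Prop where
  surj : Function.Surjective r
  isOpen : IsOpen (r.ker : Set (GK K))

theorem finq_finite {Γ : Type} [Group Γ] {r : GK K →* Γ} (h : FinQ Γ r) : Finite Γ := by
  have h1 : Finite (GK K ⧸ r.ker) := Subgroup.quotient_finite_of_isOpen _ h.isOpen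
  exact Finite.of_equiv _ (QuotientGroup.quotientKerEquivOfSurjective r h.surj).toEquiv

theorem finq_mk (N : Subgroup (GK K)) [N.Normal] (hN : IsOpen (N : Set (GK K))) :
    FinQ (GK K ⧸ N) (QuotientGroup.mk' N) :=
  ⟨QuotientGroup.mk'_surjective N, by rw [QuotientGroup.ker_mk']; exact hN⟩

section

variable {G : Type} [Group G] {n : ℕ}

/-- the Euler product -/
noncomputable def LA (π : G →* Matrix.unitaryGroup (Fin n) ℂ) (x : HeightOneSpectrum (𝓞 K) → G)
    {m : ℕ} (τ : GK K →* Matrix.unitaryGroup (Fin m) ℂ) (σ : HeightOneSpectrum (𝓞 K) → GK K)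
    (s : ℂ) : ℂ :=
  ∏' v, (Matrix.det (1 - (((nm K v : ℕ) : ℂ) ^ (-s)) •
    ((π (x v) : Matrix (Fin n) (Fin n) ℂ) ⊗ₖ (τ (σ v) : Matrix (Fin m) (Fin m) ℂ))))⁻¹

end

variable {G : Type} [Group G] [TopologicalSpace G] [IsTopologicalGroup G] [CompactSpace G]
  [MeasurableSpace G] [BorelSpace G] {μ : Measure G} [IsProbabilityMeasure μ]
  [μ.IsHaarMeasure] {n : ℕ} {π : G →* Matrix.unitaryGroup (Fin n) ℂ}
  {x : HeightOneSpectrum (𝓞 K) → G} {σ : HeightOneSpectrum (𝓞 K) → GK K}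

section

variable {m : ℕ} {τ : GK K →* Matrix.unitaryGroup (Fin m) ℂ}

/-- **One Artin twist, no continuation.** -/
theorem tw_lt (hx : Law x μ) (hσ : ∀ v, IsFrob v (σ v)) (hc : Continuous π) (hs : Schur π)
    (hnt : NtConn π) (hτ : IsOpen (τ.ker : Set (GK K))) (hs' : Schur τ) (t : ℝ) :
    (∀ᶠ ε : ℝ in 𝓝[>] 0, LA π x τ σ (1 + t * I + ε) ≠ 0) ∧
    (∃ δ : ℝ, 0 < δ ∧ ∀ᶠ ε : ℝ in 𝓝[>] 0,
      |Real.log ‖LA π x τ σ (1 + t * I + ε)‖ / Real.log (1 / ε)| ≤ 1 - δ) ∧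
    ∀ Λ : ℂ → ℂ, MeromorphicAt Λ (1 + t * I) →
      (∀ᶠ s in 𝓝 ((1 : ℂ) + t * I), (1 : ℝ) < s.re → Λ s = LA π x τ σ s) →
      meromorphicOrderAt Λ (1 + t * I) = 0 := by
  have hq := finq_mk τ.ker hτ
  have hfin := finq_finite hq
  let _ : TopologicalSpace (GK K ⧸ τ.ker) := ⊥
  have hdisc : DiscreteTopology (GK K ⧸ τ.ker) := ⟨rfl⟩
  let _ : MeasurableSpace (GK K ⧸ τ.ker) := borel _
  have hbor : BorelSpace (GK K ⧸ τ.ker) := ⟨rfl⟩
  set μ' : Measure (GK K ⧸ τ.ker) := Measure.haarMeasure ⊤ with hμ'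
  have hpr : IsProbabilityMeasure μ' := ⟨by
    rw [hμ']
    exact Measure.haarMeasure_self⟩
  have hφ := law_fin (μ' := μ') (QuotientGroup.mk' τ.ker) hq.surj hq.isOpen hσ
  set τ' : GK K ⧸ τ.ker →* Matrix.unitaryGroup (Fin m) ℂ := QuotientGroup.kerLift τ with hτ'
  have hsτ : Schur τ' := by
    intro A hA
    refine hs' A fun g => ?_
    have := hA (QuotientGroup.mk' τ.ker g)
    exact this
  have e : LP π x τ' (fun v => QuotientGroup.mk' τ.ker (σ v)) = LA π x τ σ := rfl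
  have h1 := (size_LP π x τ' (fun v => QuotientGroup.mk' τ.ker (σ v)) t).1
  have h2 := art_lt (τ := τ') hx hφ hc hs hnt hsτ t
  unfold sz at h2
  rw [e] at h1 h2
  refine ⟨h1, h2, fun Λ h3 h4 => ?_⟩
  rw [← e] at h4
  exact art_order hx hφ hc hs hnt hsτ h3 h4

end

/-- the mean value over an extension, nontrivial on the component -/
theorem ext_conn (hx : Law x μ) (hσ : ∀ v, IsFrob v (σ v)) (hc : Continuous π) (hs : Schur π)
    (hnt : NtConn π) (F : Type) [Field F] [NumberField F] [Algebra K F]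
    (hcont : ∀ (m : ℕ) (τ : GK K →* Matrix.unitaryGroup (Fin m) ℂ),
      (∀ g, act K F g = 1 → τ g = 1) → Schur τ → ∀ t : ℝ,
      ∃ Λ : ℂ → ℂ, MeromorphicAt Λ (1 + t * I) ∧
      ∀ᶠ s in 𝓝 ((1 : ℂ) + t * I), (1 : ℝ) < s.re → Λ s = LA π x τ σ s) :
    Tendsto (mn fun v => chi π (x v) * (fixn K F (σ v) : ℂ)) atTop (𝓝 0) := by
  set N : Subgroup (GK K) := (act K F).ker with hN
  have hq := finq_mk N (ker_act_open K F)
  have hfin := finq_finite hq
  let _ : TopologicalSpace (GK K ⧸ N) := ⊥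
  have hdisc : DiscreteTopology (GK K ⧸ N) := ⟨rfl⟩
  let _ : MeasurableSpace (GK K ⧸ N) := borel _
  have hbor : BorelSpace (GK K ⧸ N) := ⟨rfl⟩
  set μ' : Measure (GK K ⧸ N) := Measure.haarMeasure ⊤ with hμ'
  have hpr : IsProbabilityMeasure μ' := ⟨by
    rw [hμ']
    exact Measure.haarMeasure_self⟩
  have hφ := law_fin (μ' := μ') (QuotientGroup.mk' N) hq.surj hq.isOpen hσ
  set b : GK K ⧸ N →* Equiv.Perm (F →ₐ[K] AlgebraicClosure K) :=
    QuotientGroup.kerLift (act K F) with hb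
  set f : GK K ⧸ N → ℂ := fun γ => (Nat.card {i // b γ i = i} : ℂ) with hf
  have hfcl : ∀ a c, f (c * a * c⁻¹) = f a := by
    intro a c
    rw [hf]
    simp only
    rw [fix_cls]
  have h1 := art_cls (μ' := μ') hx hφ hc hs hnt (fun m τ hsτ t => by
    have h2 := hcont m (τ.comp (QuotientGroup.mk' N)) (fun g hg => by
      have : QuotientGroup.mk' N g = 1 := (QuotientGroup.eq_one_iff g).2 hg
      rw [MonoidHom.comp_apply, this, map_one]) (fun A hA => hsτ A fun γ => by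
        obtain ⟨g, rfl⟩ := QuotientGroup.mk'_surjective N γ
        exact hA g) t
    exact h2) hfcl
  exact h1

/-- the mean value over an extension, trivial on the component -/
theorem ext_fin (hσ : ∀ v, IsFrob v (σ v)) (hs : Schur π)
    (hnt : ∃ g, π g ≠ 1) {Q : Type} [Group Q] (q : G →* Q) (hq : Function.Surjective q)
    (hπ : ∀ g, q g = 1 → π g = 1) (r₀ : GK K →* Q) (hr₀ : IsOpen (r₀.ker : Set (GK K)))
    (hcomp : ∃ S : Finset (HeightOneSpectrum (𝓞 K)), ∀ v, v ∉ S → ∃ h,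
      q (x v) = h * r₀ (σ v) * h⁻¹)
    (F : Type) [Field F] [NumberField F] [Algebra K F]
    (hF : ∀ (e : F →ₐ[K] AlgebraicClosure K) (c : Q), ∃ g : GK K, act K F g e = e ∧ r₀ g = c) :
    Tendsto (mn fun v => chi π (x v) * (fixn K F (σ v) : ℂ)) atTop (𝓝 0) := by
  classical
  -- the representation of `Q`
  set π₁ : G ⧸ q.ker →* Matrix.unitaryGroup (Fin n) ℂ := QuotientGroup.lift q.ker π
    (fun g hg => hπ g hg) with hπ₁
  set π₀ : Q →* Matrix.unitaryGroup (Fin n) ℂ :=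
    π₁.comp (QuotientGroup.quotientKerEquivOfSurjective q hq).symm.toMonoidHom with hπ₀
  have h0 : ∀ g, π₀ (q g) = π g := by
    intro g
    have h1 : (QuotientGroup.quotientKerEquivOfSurjective q hq).symm (q g) =
        (QuotientGroup.mk' q.ker g) := by
      rw [MulEquiv.symm_apply_eq]
      rfl
    rw [hπ₀]
    simp only [MonoidHom.comp_apply, MulEquiv.coe_toMonoidHom]
    rw [h1]
    rfl
  -- the finite group
  set N : Subgroup (GK K) := (act K F).ker ⊓ r₀.ker with hN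
  have hNo : IsOpen (N : Set (GK K)) := by
    rw [hN, Subgroup.coe_inf]
    exact (ker_act_open K F).inter hr₀
  have hq' := finq_mk N hNo
  have hfin := finq_finite hq'
  let _ : Fintype (GK K ⧸ N) := Fintype.ofFinite _
  set b : GK K ⧸ N →* Equiv.Perm (F →ₐ[K] AlgebraicClosure K) :=
    QuotientGroup.lift N (act K F) (fun g hg => (Subgroup.mem_inf.1 hg).1) with hb
  set r₁ : GK K ⧸ N →* Q := QuotientGroup.lift N r₀ (fun g hg => (Subgroup.mem_inf.1 hg).2) with hr₁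
  set ρ : GK K ⧸ N →* Matrix.unitaryGroup (Fin n) ℂ := π₀.comp r₁ with hρ
  have hρg : ∀ g : GK K, ρ (QuotientGroup.mk' N g) = π₀ (r₀ g) := fun g => rfl
  have hbg : ∀ g : GK K, b (QuotientGroup.mk' N g) = act K F g := fun g => rfl
  have e0 : F →ₐ[K] AlgebraicClosure K := IsAlgClosed.lift
  have hsurj : ∀ g : G, ∃ γ : GK K, π₀ (r₀ γ) = π g := by
    intro g
    obtain ⟨γ, -, h2⟩ := hF e0 (q g)
    exact ⟨γ, by rw [h2, h0]⟩
  have hsρ : Schur ρ := by
    intro A hA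
    refine hs A fun g => ?_
    obtain ⟨γ, hγ⟩ := hsurj g
    have := hA (QuotientGroup.mk' N γ)
    rw [hρg, hγ] at this
    exact this
  have hntρ : ∃ γ, ρ γ ≠ 1 := by
    obtain ⟨g, hg⟩ := hnt
    obtain ⟨γ, hγ⟩ := hsurj g
    exact ⟨QuotientGroup.mk' N γ, by rw [hρg, hγ]; exact hg⟩
  have hst : ∀ (y : F →ₐ[K] AlgebraicClosure K) (γ : GK K ⧸ N), ∃ γ', b γ' y = y ∧ ρ γ' = ρ γ := by
    intro y γ
    obtain ⟨g, rfl⟩ := QuotientGroup.mk'_surjective N γ
    obtain ⟨g', h1, h2⟩ := hF y (r₀ g)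
    exact ⟨QuotientGroup.mk' N g', by rw [hbg]; exact h1, by rw [hρg, hρg, h2]⟩
  have hsum := sum_fix_zero b ρ hsρ hntρ hst
  -- Chebotarev
  set f : GK K ⧸ N → ℂ := fun γ => chi ρ γ * (Nat.card {i // b γ i = i} : ℂ) with hf
  have hfcl : ∀ a c, f (c * a * c⁻¹) = f a := by
    intro a c
    rw [hf]
    simp only
    rw [chi_cls]
    rw [fix_cls]
  have hch := mn_of_pi (cheb_mean N hNo f (fun a g => hfcl a g) σ hσ)
  rw [finsum_eq_sum_of_fintype, hsum, mul_zero] at hch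
  -- comparison
  obtain ⟨S, hS⟩ := hcomp
  have hdiff : Tendsto (mn fun v => chi π (x v) * (fixn K F (σ v) : ℂ) -
      f (QuotientGroup.mk (σ v))) atTop (𝓝 0) := by
    have hz : ∀ v, v ∉ S → chi π (x v) * (fixn K F (σ v) : ℂ) - f (QuotientGroup.mk (σ v)) = 0 := by
      intro v hv
      obtain ⟨h, hh⟩ := hS v hv
      rw [sub_eq_zero, hf]
      simp only
      have h1 : chi π (x v) = chi ρ (QuotientGroup.mk (σ v) : GK K ⧸ N) := by
        have h2 : chi π (x v) = chi π₀ (q (x v)) := by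
          unfold TH553.ST.chi
          rw [h0]
        rw [h2, hh, chi_cls]
        rfl
      rw [h1]
      rfl
    exact mn_finite S hz
  have h9 := hdiff.add hch
  rw [add_zero] at h9
  refine h9.congr fun M => ?_
  unfold mn
  rw [← smul_add, ← Finset.sum_add_distrib]
  simp only [sub_add_cancel]

/-- **Inheritance.** -/
theorem inherit [T2Space G] (hx : Law x μ) (hσ : ∀ v, IsFrob v (σ v))
    {Q : Type} [Group Q] (q : G →* Q) (hq : Function.Surjective q)
    (hqc : ∀ g, q g = 1 → g ∈ connectedComponent (1 : G)) (r₀ : GK K →* Q)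
    (hr₀ : IsOpen (r₀.ker : Set (GK K)))
    (hcomp : ∃ S : Finset (HeightOneSpectrum (𝓞 K)), ∀ v, v ∉ S → ∃ h,
      q (x v) = h * r₀ (σ v) * h⁻¹)
    (F : Type) [Field F] [NumberField F] [Algebra K F]
    (hF : ∀ (e : F →ₐ[K] AlgebraicClosure K) (c : Q), ∃ g : GK K, act K F g e = e ∧ r₀ g = c)
    (hcont : ∀ (n : ℕ) (π : G →* Matrix.unitaryGroup (Fin n) ℂ), Continuous π → Schur π →
      NtConn π → ∀ (m : ℕ) (τ : GK K →* Matrix.unitaryGroup (Fin m) ℂ),
      (∀ g, act K F g = 1 → τ g = 1) → Schur τ → ∀ t : ℝ,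
      ∃ Λ : ℂ → ℂ, MeromorphicAt Λ (1 + t * I) ∧
      ∀ᶠ s in 𝓝 ((1 : ℂ) + t * I), (1 : ℝ) < s.re → Λ s = LA π x τ σ s)
    {y : HeightOneSpectrum (𝓞 F) → G}
    (hy : ∃ S : Finset (HeightOneSpectrum (𝓞 F)), ∀ w, w ∉ S → ∀ v : HeightOneSpectrum (𝓞 K),
      w.asIdeal.comap (algebraMap (𝓞 K) (𝓞 F)) = v.asIdeal →
      Ideal.absNorm w.asIdeal = Ideal.absNorm v.asIdeal → ∃ h : G, y w = h * x v * h⁻¹)
    {f : G → ℂ} (hf : Continuous f) (hcl : ∀ g k, f (k * g * k⁻¹) = f g) :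
    Tendsto (mn fun w => f (y w)) atTop (𝓝 (∫ g, f g ∂μ)) := by
  refine weyl (fun n π h1 h2 h3 => ?_) hf hcl
  have key : Tendsto (mn fun v => TH553.ST.chi π (x v) * (fixn K F (σ v) : ℂ)) atTop (𝓝 0) := by
    by_cases hnt : NtConn π
    · exact ext_conn hx hσ h1 h2 hnt F (hcont n π h1 h2 hnt)
    · have h4 : ∀ g ∈ connectedComponent (1 : G), π g = 1 := by
        intro g hg
        by_contra hne
        exact hnt ⟨g, hg, hne⟩
      exact ext_fin hσ h2 h3 q hq (fun g hg => h4 g (hqc g hg)) r₀ hr₀ hcomp F hF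
  obtain ⟨S, hS⟩ := hy
  refine mn_fix_c (h := fun v => TH553.ST.chi π (x v)) (B := n) (fun v => norm_chi π _)
    (fun w => norm_chi π _) ⟨S, fun w hw v hv hv' => ?_⟩ hσ key
  obtain ⟨h, hh⟩ := hS w hw v hv hv'
  rw [hh, chi_cls]

end

end Pool.Agent.R370.ST
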