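import Pool.Agent.TH553.ST.PW2

set_option autoImplicit false
set_option linter.unusedSectionVars false

/-!
# Tensor products of representations of several groups
-/

namespace Pool.Agent.R370.ST

open Complex Filter Topology ComplexConjugate NumberField IsDedekindDomain MeasureTheory
  Pool.Agent.W540.BE Pool.Agent.TH553.RS Pool.Agent.TH553.ST
  Pool.Agent.H341R2

section

variable {ι : Type} [Fintype ι] [DecidableEq ι]

/-- the tensor product of matrices -/
def tm {n : ι → ℕ} (A : ∀ i, Matrix (Fin (n i)) (Fin (n i)) ℂ) :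
    Matrix (∀ i, Fin (n i)) (∀ i, Fin (n i)) ℂ := Matrix.of fun a b => ∏ i, A i (a i) (b i)

variable {n : ι → ℕ}

theorem tm_mul (A B : ∀ i, Matrix (Fin (n i)) (Fin (n i)) ℂ) :
    tm A * tm B = tm fun i => A i * B i := by
  ext a b
  rw [Matrix.mul_apply]
  change ∑ c : (∀ i, Fin (n i)), (∏ i, A i (a i) (c i)) * (∏ i, B i (c i) (b i)) =
    ∏ i, (A i * B i) (a i) (b i)
  simp only [Matrix.mul_apply, ← Finset.prod_mul_distrib]
  rw [Finset.prod_univ_sum, Fintype.piFinset_univ]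

theorem tm_one : tm (fun i => (1 : Matrix (Fin (n i)) (Fin (n i)) ℂ)) = 1 := by
  ext a b
  change ∏ i, (1 : Matrix (Fin (n i)) (Fin (n i)) ℂ) (a i) (b i) = _
  rw [Matrix.one_apply]
  split_ifs with h
  · subst h
    exact Finset.prod_eq_one fun i _ => Matrix.one_apply_eq _
  · have h1 : ∃ i, a i ≠ b i := by
      by_contra hcon
      push Not at hcon
      exact h (funext hcon)
    obtain ⟨i, hi⟩ := h1
    exact Finset.prod_eq_zero (Finset.mem_univ i) (Matrix.one_apply_ne hi)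

theorem tm_star (A : ∀ i, Matrix (Fin (n i)) (Fin (n i)) ℂ) :
    (tm A).conjTranspose = tm fun i => (A i).conjTranspose := by
  ext a b
  rw [Matrix.conjTranspose_apply]
  change star (∏ i, A i (b i) (a i)) = ∏ i, (A i).conjTranspose (a i) (b i)
  rw [star_prod]
  rfl

theorem tm_trace (A : ∀ i, Matrix (Fin (n i)) (Fin (n i)) ℂ) :
    (tm A).trace = ∏ i, (A i).trace := by
  unfold Matrix.trace
  rw [Finset.prod_univ_sum, Fintype.piFinset_univ]
  rfl

theorem tm_unitary {A : ∀ i, Matrix (Fin (n i)) (Fin (n i)) ℂ}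
    (h : ∀ i, A i ∈ Matrix.unitaryGroup (Fin (n i)) ℂ) :
    tm A ∈ Matrix.unitaryGroup (∀ i, Fin (n i)) ℂ := by
  rw [Matrix.mem_unitaryGroup_iff, Matrix.star_eq_conjTranspose, tm_star, tm_mul]
  have h1 : (fun i => A i * (A i).conjTranspose) =
      fun i => (1 : Matrix (Fin (n i)) (Fin (n i)) ℂ) :=
    funext fun i => Matrix.mem_unitaryGroup_iff.1 (h i)
  rw [h1, tm_one]

end

section

variable {K : Type} [Field K] [NumberField K]
variable {ι : Type} [Fintype ι] [DecidableEq ι] {G : ι → Type} [∀ i, Group (G i)] {n : ι → ℕ}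

/-- the Euler product of a tensor product -/
noncomputable def LT (π : ∀ i, G i →* Matrix.unitaryGroup (Fin (n i)) ℂ)
    (x : ∀ i, HeightOneSpectrum (𝓞 K) → G i) (s : ℂ) : ℂ :=
  ∏' v, (Matrix.det (1 - (((nm K v : ℕ) : ℂ) ^ (-s)) •
    tm fun i => (π i (x i v) : Matrix (Fin (n i)) (Fin (n i)) ℂ)))⁻¹

/-- the product of the characters -/
noncomputable def ct (π : ∀ i, G i →* Matrix.unitaryGroup (Fin (n i)) ℂ)
    (x : ∀ i, HeightOneSpectrum (𝓞 K) → G i) (v : HeightOneSpectrum (𝓞 K)) : ℂ :=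
  ∏ i, TH553.ST.chi (π i) (x i v)

theorem exists_alT (π : ∀ i, G i →* Matrix.unitaryGroup (Fin (n i)) ℂ)
    (x : ∀ i, HeightOneSpectrum (𝓞 K) → G i) :
    ∃ α : HeightOneSpectrum (𝓞 K) → Fin (Fintype.card (∀ i, Fin (n i))) → ℂ,
      (∀ v j, ‖α v j‖ = 1) ∧ (∀ v, ∑ j, α v j = ct π x v) ∧
      ∀ v (c : ℂ), Matrix.det (1 - c • tm fun i =>
        (π i (x i v) : Matrix (Fin (n i)) (Fin (n i)) ℂ)) = ∏ j, (1 - α v j * c) := by
  choose α h1 h2 h3 using fun v : HeightOneSpectrum (𝓞 K) =>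
    exists_eig (tm_unitary (fun i => (π i (x i v)).2))
  refine ⟨α, h1, fun v => ?_, h3⟩
  rw [h2, tm_trace]
  rfl

theorem norm_ct (π : ∀ i, G i →* Matrix.unitaryGroup (Fin (n i)) ℂ)
    (x : ∀ i, HeightOneSpectrum (𝓞 K) → G i) (v : HeightOneSpectrum (𝓞 K)) :
    ‖ct π x v‖ ≤ ∏ i, (n i : ℝ) := by
  unfold ct
  rw [norm_prod]
  exact Finset.prod_le_prod (fun i _ => norm_nonneg _) fun i _ => norm_chi (π i) _

/-- size and correlation -/
theorem size_LT (π : ∀ i, G i →* Matrix.unitaryGroup (Fin (n i)) ℂ)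
    (x : ∀ i, HeightOneSpectrum (𝓞 K) → G i) (τ : ℝ) :
    (∀ᶠ ε : ℝ in 𝓝[>] 0, LT π x (1 + τ * I + ε) ≠ 0) ∧
    Tendsto (fun ε : ℝ => qt (nm K) (fun v => (ct π x v *
      ((nm K v : ℕ) : ℂ) ^ (-(τ * I : ℂ))).re) ε -
      Real.log ‖LT π x (1 + τ * I + ε)‖ / Real.log (1 / ε)) (𝓝[>] 0) (𝓝 0) := by
  obtain ⟨α, h1, h2, h3⟩ := exists_alT π x
  set B : HeightOneSpectrum (𝓞 K) → Polynomial ℂ := fun v =>
    ∏ j, (1 - Polynomial.C (α v j) * Polynomial.X) with hB
  have hBe : ∀ v z, (B v).eval z = ∏ j, (1 - α v j * z) := by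
    intro v z
    rw [hB]
    simp [Polynomial.eval_prod]
  exact size_unit (sysF K) α (Filter.Eventually.of_forall h1)
    (t := ct π x) (C := ∏ i, (n i : ℝ)) (norm_ct π x)
    (Filter.Eventually.of_forall h2) τ B (Filter.Eventually.of_forall hBe)
    (fun v => by
      rw [hBe, Finset.prod_ne_zero_iff]
      intro j _ h4
      have h5 : ‖α v j * ((nm K v : ℕ) : ℂ) ^ (-(1 + τ * I : ℂ))‖ = 1 := by
        have : α v j * ((nm K v : ℕ) : ℂ) ^ (-(1 + τ * I : ℂ)) = 1 := by linear_combination -h4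
        rw [this, norm_one]
      rw [norm_mul, h1, one_mul] at h5
      have h6 := cpow_le_half normSys v (s := 1 + τ * I) (by simp)
      linarith) (LT π x)
    (fun s _ => by
      unfold LT
      refine tprod_congr fun v => ?_
      rw [h3, hBe])

/-- a local continuation has an order -/
theorem order_LT {π : ∀ i, G i →* Matrix.unitaryGroup (Fin (n i)) ℂ}
    {x : ∀ i, HeightOneSpectrum (𝓞 K) → G i} {τ : ℝ} {Λ : ℂ → ℂ}
    (h1 : MeromorphicAt Λ (1 + τ * I))
    (h2 : ∀ᶠ s in 𝓝 ((1 : ℂ) + τ * I), (1 : ℝ) < s.re → Λ s = LT π x s) :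
    ∃ m : ℤ, meromorphicOrderAt Λ (1 + τ * I) = m ∧
      Tendsto (fun ε : ℝ => Real.log ‖LT π x (1 + τ * I + ε)‖ / Real.log (1 / ε)) (𝓝[>] 0)
        (𝓝 (-(m : ℝ))) :=
  order_unit (size_LT π x τ).1 h1 h2

/-- from continuations of order zero to averages -/
theorem avg_LT {π : ∀ i, G i →* Matrix.unitaryGroup (Fin (n i)) ℂ}
    {x : ∀ i, HeightOneSpectrum (𝓞 K) → G i}
    (hcont : ∀ τ : ℝ, ∃ Λ : ℂ → ℂ, MeromorphicAt Λ (1 + τ * I) ∧
      (∀ᶠ s in 𝓝 ((1 : ℂ) + τ * I), (1 : ℝ) < s.re → Λ s = LT π x s) ∧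
      meromorphicOrderAt Λ (1 + τ * I) = 0) :
    Tendsto (mn (ct π x)) atTop (𝓝 0) := by
  obtain ⟨α, h1, h2, h3⟩ := exists_alT π x
  have h4 := taub h1 (L := LT π x) (fun s _ => by
    unfold LT
    exact tprod_congr fun v => by rw [h3]) (fun τ => by
    obtain ⟨Λ, h5, h6, h7⟩ := hcont τ
    obtain ⟨g, h10, h11, h12⟩ := (meromorphicOrderAt_eq_int_iff (n := 0) h5).1 (by exact_mod_cast h7)
    refine ⟨g, h10, h11, ?_⟩
    rw [eventually_nhdsWithin_iff] at h12
    filter_upwards [h12, h6] with s h13 h14 h15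
    have hne : s ≠ 1 + τ * I := by
      intro h
      rw [h] at h15
      simp at h15
    have h16 := h13 hne
    rw [zpow_zero, one_smul] at h16
    rw [← h16, h14 h15])
  refine h4.congr fun N => ?_
  congr 1
  funext v
  exact h2 v

end

end Pool.Agent.R370.ST
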