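import Pool.Agent.R370.ST.Multi1

set_option autoImplicit false
set_option linter.unusedSectionVars false

/-!
# Several families of classes: from proper subfamilies to all of them
-/

namespace Pool.Agent.R370.ST

open Complex Filter Topology ComplexConjugate NumberField IsDedekindDomain MeasureTheory
  Pool.Agent.W540.BE Pool.Agent.TH553.RS Pool.Agent.TH553.ST
  Pool.Agent.H341R2

section

variable {K : Type} [Field K] [NumberField K]
variable {ι : Type} [Fintype ι] [DecidableEq ι] {G : ι → Type} [∀ i, Group (G i)]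
  [∀ i, TopologicalSpace (G i)] [∀ i, IsTopologicalGroup (G i)] [∀ i, CompactSpace (G i)]
  [∀ i, MeasurableSpace (G i)] [∀ i, BorelSpace (G i)]

/-- joint equidistribution of the families with index in `s`, for products of class functions -/
def QQ (μ : ∀ i, Measure (G i)) (x : ∀ i, HeightOneSpectrum (𝓞 K) → G i) (s : Finset ι) : Prop :=
  ∀ f : ∀ i, G i → ℂ, (∀ i, Continuous (f i)) → (∀ i g h, f i (h * g * h⁻¹) = f i g) →
    Tendsto (mn fun v => ∏ i ∈ s, f i (x i v)) atTop (𝓝 (∏ i ∈ s, ∫ g, f i g ∂(μ i)))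

variable {μ : ∀ i, Measure (G i)} [∀ i, IsProbabilityMeasure (μ i)]
  [∀ i, (μ i).IsHaarMeasure] {x : ∀ i, HeightOneSpectrum (𝓞 K) → G i}

theorem bd_prod (s : Finset ι) {f : ∀ i, G i → ℝ} (hf : ∀ i, Continuous (f i)) :
    Bd fun v => ∏ i ∈ s, f i (x i v) := by
  choose C hC using fun i => bd_cont (hf i) (x i)
  refine ⟨∏ i ∈ s, C i, fun v => ?_⟩
  rw [Finset.abs_prod]
  exact Finset.prod_le_prod (fun i _ => abs_nonneg _) fun i _ => hC i v

theorem QQ.M {s : Finset ι} (h : QQ μ x s) {U : Ultrafilter ℝ} (hU : (U : Filter ℝ) ≤ 𝓝[>] 0)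
    {f : ∀ i, G i → ℝ} (hf : ∀ i, Continuous (f i)) (hcl : ∀ i g h, f i (h * g * h⁻¹) = f i g) :
    (TH553.RS.M (nm K) U fun v => ∏ i ∈ s, f i (x i v)) = ∏ i ∈ s, ∫ g, f i g ∂(μ i) := by
  refine M_of_mn hU (bd_prod s hf) ?_
  have h1 := h (fun i g => (f i g : ℂ)) (fun i => Complex.continuous_ofReal.comp (hf i))
    fun i g h => by rw [hcl]
  have h2 : (∏ i ∈ s, ∫ g, (f i g : ℂ) ∂(μ i)) = ((∏ i ∈ s, ∫ g, f i g ∂(μ i) : ℝ) : ℂ) := by
    rw [Complex.ofReal_prod]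
    exact Finset.prod_congr rfl fun i _ => integral_ofReal
  rw [h2] at h1
  have h3 := (Complex.continuous_re.tendsto _).comp h1
  rw [Complex.ofReal_re] at h3
  refine h3.congr fun N => ?_
  simp only [Function.comp]
  rw [re_mn]
  congr 1
  funext v
  rw [← Complex.ofReal_prod, Complex.ofReal_re]

/-- a character with `|χ|² = 1` in the fourth moment -/
theorem dim_of_four {H : Type} [Group H] [TopologicalSpace H] [IsTopologicalGroup H]
    [CompactSpace H] [MeasurableSpace H] [BorelSpace H] {ν : Measure H} [IsProbabilityMeasure ν]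
    [ν.IsHaarMeasure] {n : ℕ} {π : H →* Matrix.unitaryGroup (Fin n) ℂ} (hc : Continuous π)
    (h2 : ∫ g, ‖TH553.ST.chi π g‖ ^ 2 ∂ν = 1)
    (h4 : ∫ g, ‖TH553.ST.chi π g‖ ^ 2 * ‖TH553.ST.chi π g‖ ^ 2 ∂ν = 1) : n = 1 := by
  have hcf : Continuous fun g => ‖TH553.ST.chi π g‖ ^ 2 := (cont_chi hc).norm.pow 2
  have h5 : ∫ g, (‖TH553.ST.chi π g‖ ^ 2 - 1) ^ 2 ∂ν = 0 := by
    have e : (fun g => (‖TH553.ST.chi π g‖ ^ 2 - 1) ^ 2) = fun g =>
        (‖TH553.ST.chi π g‖ ^ 2 * ‖TH553.ST.chi π g‖ ^ 2 - 2 * ‖TH553.ST.chi π g‖ ^ 2) + 1 := by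
      funext g
      ring
    have k1 : Continuous fun g => ‖TH553.ST.chi π g‖ ^ 2 * ‖TH553.ST.chi π g‖ ^ 2 := hcf.mul hcf
    have k2 : Continuous fun g => 2 * ‖TH553.ST.chi π g‖ ^ 2 := continuous_const.mul hcf
    have k3 : Continuous fun g => ‖TH553.ST.chi π g‖ ^ 2 * ‖TH553.ST.chi π g‖ ^ 2 -
        2 * ‖TH553.ST.chi π g‖ ^ 2 := k1.sub k2
    rw [e, integral_add (intg k3) (intg continuous_const), integral_sub (intg k1) (intg k2),
      integral_const_mul, h2, h4]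
    simp only [integral_const, probReal_univ, smul_eq_mul, mul_one]
    norm_num
  by_contra hn
  have h6 : (fun g => (‖TH553.ST.chi π g‖ ^ 2 - 1) ^ 2) 1 ≠ 0 := by
    simp only
    rw [chi_one, Complex.norm_natCast]
    intro h7
    have h8 : (n : ℝ) ^ 2 - 1 = 0 := pow_eq_zero_iff (two_ne_zero) |>.1 h7
    have h9 : (n : ℝ) ^ 2 = 1 := by linarith
    have h10 : n ^ 2 = 1 := by exact_mod_cast h9
    exact hn (by nlinarith [Nat.zero_le n, sq_nonneg (n - 1 : ℤ)])
  have k4 : Continuous fun g => (‖TH553.ST.chi π g‖ ^ 2 - 1) ^ 2 :=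
    (hcf.sub continuous_const).pow 2
  have h7 := int_pos (μ := ν) k4 (fun g => sq_nonneg _) h6
  rw [h5] at h7
  exact lt_irrefl _ h7

/-- **The core.** -/
theorem core_lt {s : Finset ι} {j i₀ : ι} (hj : j ∈ s) (hi : i₀ ∈ s) (hne : i₀ ≠ j)
    (h1 : QQ μ x (s.erase j)) (h2 : QQ μ x {i₀, j}) (h3 : QQ μ x {j}) {n : ι → ℕ}
    {π : ∀ i, G i →* Matrix.unitaryGroup (Fin (n i)) ℂ} (hc : ∀ i, Continuous (π i))
    (hs : ∀ i, Schur (π i)) (hn : ∀ i ∈ s, n i ≠ 0)
    (hout : ∀ i, i ∉ s → ∀ g, TH553.ST.chi (π i) g = 1) (hdim : n i₀ ≠ 1) (t : ℝ)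
    {U : Ultrafilter ℝ} (hU : (U : Filter ℝ) ≤ 𝓝[>] 0) :
    ∃ r : ℝ, Tendsto (fun ε : ℝ => Real.log ‖LT π x (1 + t * I + ε)‖ / Real.log (1 / ε)) U
        (𝓝 r) ∧ |r| < 1 := by
  have hN := sysF K
  set a : HeightOneSpectrum (𝓞 K) → ℂ := fun v => ∏ i ∈ s.erase j, TH553.ST.chi (π i) (x i v)
    with ha
  set c : HeightOneSpectrum (𝓞 K) → ℂ := tc (π j) (x j) t with hcdef
  have hf : ∀ i, Continuous fun g : G i => ‖TH553.ST.chi (π i) g‖ ^ 2 := fun i =>
    (cont_chi (hc i)).norm.pow 2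
  have hcl : ∀ i (g h : G i), ‖TH553.ST.chi (π i) (h * g * h⁻¹)‖ ^ 2 =
      ‖TH553.ST.chi (π i) g‖ ^ 2 := fun i g h => by rw [chi_cls]
  have hone : ∀ i ∈ s, ∫ g, ‖TH553.ST.chi (π i) g‖ ^ 2 ∂(μ i) = 1 := fun i hi =>
    int_sq (hc i) (hs i) (hn i hi)
  have haB : Bc a := by
    refine ⟨∏ i ∈ s.erase j, (n i : ℝ), fun v => ?_⟩
    rw [ha]
    simp only
    rw [norm_prod]
    exact Finset.prod_le_prod (fun i _ => norm_nonneg _) fun i _ => norm_chi (π i) _
  have hcB : Bc c := bc_tc (x j) t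
  have ha2 : ∀ v, ‖a v‖ ^ 2 = ∏ i ∈ s.erase j, ‖TH553.ST.chi (π i) (x i v)‖ ^ 2 := by
    intro v
    rw [ha]
    simp only
    rw [norm_prod, Finset.prod_pow]
  have hc2 : ∀ v, ‖c v‖ ^ 2 = ‖TH553.ST.chi (π j) (x j v)‖ ^ 2 := by
    intro v
    rw [hcdef, norm_tc]
  have hMa : (M (nm K) U fun v => ‖a v‖ ^ 2) = 1 := by
    simp only [ha2]
    rw [h1.M hU hf hcl]
    exact Finset.prod_eq_one fun i hi => hone i (Finset.mem_of_mem_erase hi)
  have hMc : (M (nm K) U fun v => ‖c v‖ ^ 2) = 1 := by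
    simp only [hc2]
    have h4 := h3.M hU hf hcl
    simp only [Finset.prod_singleton] at h4
    rw [h4, hone j hj]
  set r := M (nm K) U fun v => (a v * c v).re with hr
  have h5 := edge_le hN hU haB hcB hMa.le hMc.le
  have hct : ∀ v, ct π x v * ((nm K v : ℕ) : ℂ) ^ (-(t * I : ℂ)) = a v * c v := by
    intro v
    rw [hcdef]
    unfold tc ct
    rw [← Finset.prod_subset (Finset.subset_univ s) fun i _ hi => hout i hi _,
      ← Finset.mul_prod_erase s _ hj, ha]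
    ring
  have hlim : Tendsto (fun ε : ℝ => Real.log ‖LT π x (1 + t * I + ε)‖ / Real.log (1 / ε)) U
      (𝓝 r) := by
    have h6 := M_lim hN hU (haB.mul hcB).re
    have h7 := (size_LT π x t).2.mono_left hU
    simp only [hct] at h7
    have h8 := h6.sub h7
    rw [sub_zero] at h8
    refine h8.congr fun ε => ?_
    ring
  refine ⟨r, hlim, ?_⟩
  by_contra hcon
  push Not at hcon
  have h6 : 1 ≤ r ^ 2 := by
    rw [← sq_abs]
    exact one_le_pow₀ hcon
  have h7 : |r| = 1 := by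
    have h8 : r ^ 2 = 1 := le_antisymm h5 h6
    have h9 : |r| ^ 2 = 1 := by rw [sq_abs]; exact h8
    exact (pow_eq_one_iff_of_nonneg (abs_nonneg _) two_ne_zero).1 h9
  have h8 := edge_eq hN hU haB hcB hMa.le hMc.le hr.symm h6
  have h9 := edge_norm hN hU haB hcB h7 h8
  -- multiply by the square of the character with index `i₀`
  set b : HeightOneSpectrum (𝓞 K) → ℝ := fun v => ‖TH553.ST.chi (π i₀) (x i₀ v)‖ ^ 2 with hb
  have hbB : Bd b := bd_cont (hf i₀) (x i₀)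
  have hb0 : ∀ v, 0 ≤ b v := fun v => sq_nonneg _
  obtain ⟨C, hC⟩ := hbB
  have hbB : Bd b := ⟨C, hC⟩
  have hdB : Bd fun v => ‖a v‖ ^ 2 - ‖c v‖ ^ 2 := haB.norm.sq.sub hcB.norm.sq
  have h10 : (M (nm K) U fun v => |(‖a v‖ ^ 2 - ‖c v‖ ^ 2) * b v|) = 0 := by
    refine M_zero_of_le hN hU (hdB.mul hbB).abs (hdB.abs.const_mul C) (fun v => abs_nonneg _)
      (fun v => ?_) ?_
    · rw [abs_mul, mul_comm]
      exact mul_le_mul_of_nonneg_right (hC v) (abs_nonneg _)
    · rw [M_const_mul hN hU hdB.abs, h9, mul_zero]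
  have h11 : (M (nm K) U fun v => (‖a v‖ ^ 2 - ‖c v‖ ^ 2) * b v) = 0 := by
    apply le_antisymm
    · rw [← h10]
      exact M_mono hN hU (hdB.mul hbB) (hdB.mul hbB).abs fun v => le_abs_self _
    · have h12 := M_mono hN hU (hdB.mul hbB).neg (hdB.mul hbB).abs fun v => neg_le_abs _
      rw [h10, M_neg hN hU (hdB.mul hbB)] at h12
      linarith
  have e1 : (fun v => (‖a v‖ ^ 2 - ‖c v‖ ^ 2) * b v) =
      fun v => ‖a v‖ ^ 2 * b v - ‖c v‖ ^ 2 * b v := by
    funext v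
    ring
  rw [e1, M_sub hN hU (haB.norm.sq.mul hbB) (hcB.norm.sq.mul hbB)] at h11
  -- the first mean value
  have h12 : (M (nm K) U fun v => ‖a v‖ ^ 2 * b v) =
      ∫ g, ‖TH553.ST.chi (π i₀) g‖ ^ 2 * ‖TH553.ST.chi (π i₀) g‖ ^ 2 ∂(μ i₀) := by
    set f : ∀ i, G i → ℝ := fun i g => ‖TH553.ST.chi (π i) g‖ ^ 2 *
      (if i = i₀ then ‖TH553.ST.chi (π i) g‖ ^ 2 else 1) with hfdef
    have hfc : ∀ i, Continuous (f i) := by
      intro i
      rw [hfdef]
      by_cases h : i = i₀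
      · simp only [if_pos h]
        exact (hf i).mul (hf i)
      · simp only [if_neg h]
        exact (hf i).mul continuous_const
    have hfcl : ∀ i (g h : G i), f i (h * g * h⁻¹) = f i g := by
      intro i g h
      rw [hfdef]
      simp only
      rw [hcl]
    have h13 := h1.M hU hfc hfcl
    have e2 : (fun v => ∏ i ∈ s.erase j, f i (x i v)) = fun v => ‖a v‖ ^ 2 * b v := by
      funext v
      rw [hfdef]
      simp only
      rw [Finset.prod_mul_distrib, ← ha2,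
        Finset.prod_ite_eq' (s.erase j) i₀ fun i => ‖TH553.ST.chi (π i) (x i v)‖ ^ 2,
        if_pos (Finset.mem_erase.2 ⟨hne, hi⟩)]
    rw [e2] at h13
    rw [h13, Finset.prod_eq_single i₀]
    · rw [hfdef]
      simp
    · intro i hi' hii
      rw [hfdef]
      simp only [hii, if_false, mul_one]
      exact hone i (Finset.mem_of_mem_erase hi')
    · intro h
      exact absurd (Finset.mem_erase.2 ⟨hne, hi⟩) h
  have h14 : (M (nm K) U fun v => ‖c v‖ ^ 2 * b v) = 1 := by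
    have h15 := h2.M hU hf hcl
    simp only [Finset.prod_pair hne] at h15
    have e3 : (fun v => ‖c v‖ ^ 2 * b v) = fun v =>
        ‖TH553.ST.chi (π i₀) (x i₀ v)‖ ^ 2 * ‖TH553.ST.chi (π j) (x j v)‖ ^ 2 := by
      funext v
      rw [hc2, mul_comm]
    rw [e3, h15, hone i₀ hi, hone j hj, mul_one]
  rw [h12, h14, sub_eq_zero] at h11
  exact hdim (dim_of_four (hc i₀) (hone i₀ hi) h11)

/-- one coordinate -/
theorem one_coord {H : Type} [Group H] [TopologicalSpace H] [IsTopologicalGroup H]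
    [CompactSpace H] [T2Space H] [MeasurableSpace H] [BorelSpace H] {ν : Measure H}
    [IsProbabilityMeasure ν] [ν.IsHaarMeasure] {y : HeightOneSpectrum (𝓞 K) → H}
    {Z : HeightOneSpectrum (𝓞 K) → ℂ} (hZ : Bc Z) {c : ℂ}
    (h : ∀ (n : ℕ) (π : H →* Matrix.unitaryGroup (Fin n) ℂ), Continuous π → Schur π →
      Tendsto (mn fun v => TH553.ST.chi π (y v) * Z v) atTop
        (𝓝 ((∫ g, TH553.ST.chi π g ∂ν) * c)))
    {f : H → ℂ} (hf : Continuous f) (hcl : ∀ g k, f (k * g * k⁻¹) = f g) :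
    Tendsto (mn fun v => f (y v) * Z v) atTop (𝓝 ((∫ g, f g ∂ν) * c)) := by
  obtain ⟨B, hB⟩ := hZ
  refine mn_unif fun ε hε => ?_
  set D : ℝ := |B| + ‖c‖ + 1 with hD
  have hD0 : 0 < D := by positivity
  obtain ⟨Fn, h1, h2⟩ := class_dense hf hcl (ε := ε / D) (by positivity)
  obtain ⟨J, _, m, ρ, a, h3, h4⟩ := h1
  have hFc : Continuous Fn := by
    have : Fn = fun g => ∑ j, a j * TH553.ST.chi (ρ j) g := funext h4
    rw [this]
    exact continuous_finsetSum _ fun j _ => continuous_const.mul (cont_chi (h3 j).1)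
  have hε' : ε / D * D = ε := div_mul_cancel₀ _ hD0.ne'
  refine ⟨fun v => Fn (y v) * Z v, (∫ g, Fn g ∂ν) * c, fun v => ?_, ?_, ?_⟩
  · rw [← sub_mul, norm_mul]
    have h5 : ‖Z v‖ ≤ D := ((hB v).trans (le_abs_self B)).trans (by
      rw [hD]
      have := norm_nonneg c
      linarith)
    calc ‖f (y v) - Fn (y v)‖ * ‖Z v‖ ≤ ε / D * D :=
          mul_le_mul (h2 _) h5 (norm_nonneg _) (by positivity)
      _ = ε := hε'
  · rw [← sub_mul, norm_mul, ← integral_sub (intg hFc) (intg hf)]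
    have h5 : ‖∫ g, (Fn g - f g) ∂ν‖ ≤ ε / D := by
      refine (norm_integral_le_integral_norm _).trans ?_
      have h6 : ∫ g, ‖Fn g - f g‖ ∂ν ≤ ∫ _, ε / D ∂ν := by
        refine integral_mono ((intg hFc).sub (intg hf)).norm (integrable_const _) fun g => ?_
        simp only
        rw [norm_sub_rev]
        exact h2 g
      simpa using h6
    have h7 : ‖c‖ ≤ D := by
      rw [hD]
      have := abs_nonneg B
      linarith
    calc ‖∫ g, (Fn g - f g) ∂ν‖ * ‖c‖ ≤ ε / D * D :=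
          mul_le_mul h5 h7 (norm_nonneg _) (by positivity)
      _ = ε := hε'
  · have h5 : (∫ g, Fn g ∂ν) * c = ∑ j, a j * ((∫ g, TH553.ST.chi (ρ j) g ∂ν) * c) := by
      simp only [h4]
      have k1 : ∀ j, Continuous fun g => a j * TH553.ST.chi (ρ j) g := fun j =>
        continuous_const.mul (cont_chi (h3 j).1)
      rw [integral_finsetSum _ fun j _ => intg (k1 j), Finset.sum_mul]
      refine Finset.sum_congr rfl fun j _ => ?_
      rw [integral_const_mul]
      ring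
    rw [h5]
    have h7 : Tendsto (fun N => ∑ j, a j * mn (fun v => TH553.ST.chi (ρ j) (y v) * Z v) N) atTop
        (𝓝 (∑ j, a j * ((∫ g, TH553.ST.chi (ρ j) g ∂ν) * c))) :=
      tendsto_finsetSum _ fun j _ => (h _ (ρ j) (h3 j).1 (h3 j).2).const_mul _
    refine h7.congr fun N => ?_
    have e : (fun v => Fn (y v) * Z v) =
        fun v => ∑ j, a j * (TH553.ST.chi (ρ j) (y v) * Z v) := by
      funext v
      rw [h4, Finset.sum_mul]
      exact Finset.sum_congr rfl fun j _ => by ring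
    rw [e, mn_sum]
    exact Finset.sum_congr rfl fun j _ => (mn_mul _ _ _).symm

end

end Pool.Agent.R370.ST
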