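import Pool.Agent.R370.ST.Multi2

set_option autoImplicit false
set_option linter.unusedSectionVars false

/-!
# Several families of classes: the induction
-/

namespace Pool.Agent.R370.ST

open Complex Filter Topology ComplexConjugate NumberField IsDedekindDomain MeasureTheory
  Pool.Agent.W540.BE Pool.Agent.TH553.RS Pool.Agent.TH553.ST
  Pool.Agent.H341R2

section

variable {K : Type} [Field K] [NumberField K]
variable {ι : Type} [Fintype ι] [DecidableEq ι] {G : ι → Type} [∀ i, Group (G i)]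
  [∀ i, TopologicalSpace (G i)] [∀ i, IsTopologicalGroup (G i)] [∀ i, CompactSpace (G i)]
  [∀ i, MeasurableSpace (G i)] [∀ i, BorelSpace (G i)]
variable {μ : ∀ i, Measure (G i)} [∀ i, IsProbabilityMeasure (μ i)]
  [∀ i, (μ i).IsHaarMeasure] {x : ∀ i, HeightOneSpectrum (𝓞 K) → G i}

/-- the conclusions of the core -/
theorem core_cor {s : Finset ι} {j i₀ : ι} (hj : j ∈ s) (hi : i₀ ∈ s) (hne : i₀ ≠ j)
    (h1 : QQ μ x (s.erase j)) (h2 : QQ μ x {i₀, j}) (h3 : QQ μ x {j}) {n : ι → ℕ}
    {π : ∀ i, G i →* Matrix.unitaryGroup (Fin (n i)) ℂ} (hc : ∀ i, Continuous (π i))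
    (hs : ∀ i, Schur (π i)) (hn : ∀ i ∈ s, n i ≠ 0)
    (hout : ∀ i, i ∉ s → ∀ g, TH553.ST.chi (π i) g = 1) (hdim : n i₀ ≠ 1) (t : ℝ) :
    (∃ δ : ℝ, 0 < δ ∧ ∀ᶠ ε : ℝ in 𝓝[>] (0 : ℝ),
      |Real.log ‖LT π x (1 + t * I + ε)‖ / Real.log (1 / ε)| ≤ 1 - δ) ∧
    ∀ Λ : ℂ → ℂ, MeromorphicAt Λ (1 + t * I) →
      (∀ᶠ s in 𝓝 ((1 : ℂ) + t * I), (1 : ℝ) < s.re → Λ s = LT π x s) →
      meromorphicOrderAt Λ (1 + t * I) = 0 := by
  have key : ∃ δ : ℝ, 0 < δ ∧ ∀ᶠ ε : ℝ in 𝓝[>] (0 : ℝ),
      |Real.log ‖LT π x (1 + t * I + ε)‖ / Real.log (1 / ε)| ≤ 1 - δ :=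
    unif_lt fun U hU => core_lt hj hi hne h1 h2 h3 hc hs hn hout hdim t hU
  refine ⟨key, fun Λ h4 h5 => ?_⟩
  obtain ⟨m, h6, h7⟩ := order_LT h4 h5
  obtain ⟨δ, h8, h9⟩ := key
  have h10 := le_of_tendsto h7.abs h9
  rw [abs_neg] at h10
  have h11 : |(m : ℝ)| < 1 := by linarith
  have h12 : |m| < 1 := by exact_mod_cast h11
  rw [h6, Int.abs_lt_one_iff.1 h12]
  rfl

/-- the character of an irreducible representation -/
def IrrChar {H : Type} [Group H] [TopologicalSpace H] (f : H → ℂ) : Prop :=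
  ∃ (n : ℕ) (π : H →* Matrix.unitaryGroup (Fin n) ℂ), Continuous π ∧ Schur π ∧
    f = TH553.ST.chi π

theorem schur_one {H : Type} [Group H] : Schur (1 : H →* Matrix.unitaryGroup (Fin 1) ℂ) := by
  intro A _
  refine ⟨A 0 0, ?_⟩
  ext i j
  rw [Subsingleton.elim i 0, Subsingleton.elim j 0]
  simp

theorem chi_one_one {H : Type} [Group H] (g : H) :
    TH553.ST.chi (1 : H →* Matrix.unitaryGroup (Fin 1) ℂ) g = 1 := by
  unfold TH553.ST.chi
  simp

/-- the data for the induction -/
structure Dat (μ : ∀ i, Measure (G i)) (x : ∀ i, HeightOneSpectrum (𝓞 K) → G i) : Prop where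
  pair : ∀ s : Finset ι, s.card ≤ 2 → QQ μ x s
  ab : ∀ ψ : ∀ i, G i →* Matrix.unitaryGroup (Fin 1) ℂ, (∀ i, Continuous (ψ i)) →
    (∃ i g, ψ i g ≠ 1) → Tendsto (mn (ct (n := fun _ => 1) ψ x)) atTop (𝓝 0)
  cont : ∀ (n : ι → ℕ) (π : ∀ i, G i →* Matrix.unitaryGroup (Fin (n i)) ℂ),
    (∀ i, Continuous (π i)) → (∀ i, Schur (π i)) → (∃ i, 2 ≤ n i) →
    (∃ i j k, i ≠ j ∧ i ≠ k ∧ j ≠ k ∧ (∃ g, π i g ≠ 1) ∧ (∃ g, π j g ≠ 1) ∧ ∃ g, π k g ≠ 1) →
    ∀ t : ℝ, ∃ Λ : ℂ → ℂ, MeromorphicAt Λ (1 + t * I) ∧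
      ∀ᶠ s in 𝓝 ((1 : ℂ) + t * I), (1 : ℝ) < s.re → Λ s = LT π x s

theorem base_case (D : Dat μ x) {s : Finset ι} (hs3 : 2 < s.card)
    (ih : ∀ s', s' ⊂ s → QQ μ x s') {f : ∀ i, G i → ℂ} (hf : ∀ i, Continuous (f i))
    (hcl : ∀ i g h, f i (h * g * h⁻¹) = f i g) (hirr : ∀ k ∈ s, IrrChar (f k)) :
    Tendsto (mn fun v => ∏ i ∈ s, f i (x i v)) atTop (𝓝 (∏ i ∈ s, ∫ g, f i g ∂(μ i))) := by
  classical
  have h0 : ∀ k, ∃ (n : ℕ) (π : G k →* Matrix.unitaryGroup (Fin n) ℂ), Continuous π ∧ Schur π ∧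
      (k ∈ s → f k = TH553.ST.chi π) ∧ (k ∉ s → n = 1 ∧ ∀ g, TH553.ST.chi π g = 1) := by
    intro k
    by_cases hk : k ∈ s
    · obtain ⟨n, π, h1, h2, h3⟩ := hirr k hk
      exact ⟨n, π, h1, h2, fun _ => h3, fun h => absurd hk h⟩
    · exact ⟨1, 1, continuous_const, schur_one, fun h => absurd h hk, fun _ => ⟨rfl, chi_one_one⟩⟩
  choose n π hc hs hin hout using h0
  by_cases hA : ∃ k ∈ s, ∀ g, π k g = 1
  · obtain ⟨k, hk, h1⟩ := hA
    have h2 := (ih (s.erase k) (Finset.erase_ssubset hk) f hf hcl).const_mul (n k : ℂ)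
    have h3 : ∫ g, f k g ∂(μ k) = n k := by
      rw [hin k hk]
      simp only [chi_triv h1]
      simp
    rw [← Finset.mul_prod_erase s _ hk, h3]
    refine h2.congr fun N => ?_
    rw [← mn_mul]
    congr 1
    funext v
    rw [← Finset.mul_prod_erase s _ hk, hin k hk, chi_triv h1]
  · push Not at hA
    have hn : ∀ i ∈ s, n i ≠ 0 := by
      intro i hi h
      obtain ⟨g, hg⟩ := hA i hi
      apply hg
      apply Subtype.ext
      ext a
      exact absurd a.2 (by omega)
    have hne : s.Nonempty := Finset.card_pos.1 (by omega)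
    have hzero : ∏ i ∈ s, ∫ g, f i g ∂(μ i) = 0 := by
      obtain ⟨i, hi⟩ := hne
      refine Finset.prod_eq_zero hi ?_
      rw [hin i hi]
      exact int_chi (hc i) (hs i) (hA i hi)
    have hct : (fun v => ∏ i ∈ s, f i (x i v)) = ct π x := by
      funext v
      unfold ct
      rw [← Finset.prod_subset (Finset.subset_univ s) fun i _ hi => (hout i hi).2 _]
      exact Finset.prod_congr rfl fun i hi => by rw [hin i hi]
    rw [hzero, hct]
    by_cases hB : ∃ i₀ ∈ s, n i₀ ≠ 1
    · obtain ⟨i₀, hi₀, hd⟩ := hB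
      obtain ⟨j, hj, hji⟩ := Finset.exists_mem_ne (by omega : 1 < s.card) i₀
      have h1 : QQ μ x (s.erase j) := ih _ (Finset.erase_ssubset hj)
      have h2 : QQ μ x {i₀, j} := D.pair _ (Finset.card_le_two)
      have h3 : QQ μ x {j} := D.pair _ (by rw [Finset.card_singleton]; norm_num)
      refine avg_LT fun t => ?_
      obtain ⟨a, ha, b, hb, c, hcc, hab, hac, hbc⟩ := Finset.two_lt_card.1 hs3
      obtain ⟨Λ, h4, h5⟩ := D.cont n π hc hs ⟨i₀, by have := hn i₀ hi₀; omega⟩
        ⟨a, b, c, hab, hac, hbc, hA a ha, hA b hb, hA c hcc⟩ t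
      exact ⟨Λ, h4, h5, (core_cor hj hi₀ hji.symm h1 h2 h3 hc hs hn
        (fun i hi => (hout i hi).2) hd t).2 Λ h4 h5⟩
    · push Not at hB
      have hn1 : n = fun _ => 1 := by
        funext i
        by_cases hi : i ∈ s
        · exact hB i hi
        · exact (hout i hi).1
      subst hn1
      obtain ⟨i, hi⟩ := hne
      exact D.ab π hc ⟨i, hA i hi⟩

theorem all_QQ [∀ i, T2Space (G i)] (D : Dat μ x) (s : Finset ι) : QQ μ x s := by
  classical
  induction s using Finset.strongInduction with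
  | H s ih =>
    by_cases hs : s.card ≤ 2
    · exact D.pair s hs
    have hs3 : 2 < s.card := by omega
    have key : ∀ r : Finset ι, ∀ f : ∀ i, G i → ℂ, (∀ i, Continuous (f i)) →
        (∀ i g h, f i (h * g * h⁻¹) = f i g) → (∀ k ∈ s \ r, IrrChar (f k)) →
        Tendsto (mn fun v => ∏ i ∈ s, f i (x i v)) atTop (𝓝 (∏ i ∈ s, ∫ g, f i g ∂(μ i))) := by
      intro r
      induction r using Finset.induction_on with
      | empty =>
        intro f hf hcl hirr
        exact base_case D hs3 ih hf hcl fun k hk => hirr k (by rwa [Finset.sdiff_empty])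
      | insert i r hir ihr =>
        intro f hf hcl hirr
        by_cases hi : i ∈ s
        · have hZ : Bc fun v => ∏ k ∈ s.erase i, f k (x k v) := by
            have hb : ∀ k, ∃ C : ℝ, ∀ g, ‖f k g‖ ≤ C := by
              intro k
              obtain ⟨C, hC⟩ := (isCompact_univ (X := G k)).exists_bound_of_continuousOn
                (hf k).continuousOn
              exact ⟨C, fun g => hC g (Set.mem_univ _)⟩
            choose C hC using hb
            refine ⟨∏ k ∈ s.erase i, C k, fun v => ?_⟩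
            rw [norm_prod]
            exact Finset.prod_le_prod (fun k _ => norm_nonneg _) fun k _ => hC k _
          have h1 := one_coord (ν := μ i) (y := x i) hZ
            (c := ∏ k ∈ s.erase i, ∫ g, f k g ∂(μ k)) (fun n π hc hs' => by
              have h2 := ihr (Function.update f i (TH553.ST.chi π)) (fun k => by
                by_cases hk : k = i
                · subst hk
                  rw [Function.update_self]
                  exact cont_chi hc
                · rw [Function.update_of_ne hk]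
                  exact hf k) (fun k g h => by
                by_cases hk : k = i
                · subst hk
                  rw [Function.update_self, chi_cls]
                · rw [Function.update_of_ne hk]
                  exact hcl k g h) (fun k hk => by
                by_cases hki : k = i
                · subst hki
                  rw [Function.update_self]
                  exact ⟨n, π, hc, hs', rfl⟩
                · rw [Function.update_of_ne hki]
                  refine hirr k ?_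
                  rw [Finset.mem_sdiff] at hk ⊢
                  exact ⟨hk.1, fun h => (Finset.mem_insert.1 h).elim hki hk.2⟩)
              rw [← Finset.mul_prod_erase s _ hi] at h2
              have e1 : ∏ k ∈ s.erase i, ∫ g, Function.update f i (TH553.ST.chi π) k g ∂(μ k) =
                  ∏ k ∈ s.erase i, ∫ g, f k g ∂(μ k) := by
                refine Finset.prod_congr rfl fun k hk => ?_
                rw [Function.update_of_ne (Finset.ne_of_mem_erase hk)]
              rw [e1, Function.update_self] at h2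
              refine h2.congr fun N => ?_
              congr 1
              funext v
              rw [← Finset.mul_prod_erase s _ hi, Function.update_self]
              congr 1
              refine Finset.prod_congr rfl fun k hk => ?_
              rw [Function.update_of_ne (Finset.ne_of_mem_erase hk)]) (hf i) (fun g k => hcl i g k)
          rw [← Finset.mul_prod_erase s _ hi]
          refine h1.congr fun N => ?_
          congr 1
          funext v
          rw [← Finset.mul_prod_erase s _ hi]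
        · refine ihr f hf hcl fun k hk => hirr k ?_
          rw [Finset.mem_sdiff] at hk ⊢
          refine ⟨hk.1, fun h => ?_⟩
          rcases Finset.mem_insert.1 h with h1 | h1
          · exact hi (h1 ▸ hk.1)
          · exact hk.2 h1
    intro f hf hcl
    exact key s f hf hcl fun k hk => by
      rw [Finset.sdiff_self] at hk
      exact absurd hk (Finset.notMem_empty k)

/-- all proper subfamilies -/
theorem full_lt (hcard : 2 < Fintype.card ι) (h : ∀ s : Finset ι, s ≠ Finset.univ → QQ μ x s)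
    {n : ι → ℕ} {π : ∀ i, G i →* Matrix.unitaryGroup (Fin (n i)) ℂ}
    (hc : ∀ i, Continuous (π i)) (hs : ∀ i, Schur (π i)) (hn : ∀ i, n i ≠ 0)
    {i₀ : ι} (hd : n i₀ ≠ 1) (t : ℝ) :
    (∃ δ : ℝ, 0 < δ ∧ ∀ᶠ ε : ℝ in 𝓝[>] (0 : ℝ),
      |Real.log ‖LT π x (1 + t * I + ε)‖ / Real.log (1 / ε)| ≤ 1 - δ) ∧
    ∀ Λ : ℂ → ℂ, MeromorphicAt Λ (1 + t * I) →
      (∀ᶠ s in 𝓝 ((1 : ℂ) + t * I), (1 : ℝ) < s.re → Λ s = LT π x s) →
      meromorphicOrderAt Λ (1 + t * I) = 0 := by
  obtain ⟨j, hji⟩ := Fintype.exists_ne_of_one_lt_card (by omega) i₀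
  have hne : ∀ s : Finset ι, s.card ≤ 2 → s ≠ Finset.univ := by
    intro s hs' h'
    rw [h', Finset.card_univ] at hs'
    omega
  refine core_cor (s := Finset.univ) (Finset.mem_univ j) (Finset.mem_univ i₀) hji.symm
    (h _ ?_) (h _ (hne _ Finset.card_le_two))
    (h _ (hne _ (by rw [Finset.card_singleton]; norm_num))) hc hs (fun i _ => hn i)
    (fun i hi => absurd (Finset.mem_univ i) hi) hd t
  intro h'
  have := Finset.mem_univ j
  rw [← h'] at this
  exact absurd rfl (Finset.ne_of_mem_erase this)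

end

end Pool.Agent.R370.ST
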