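import Pool.Agent.R370.ST.Multi3

set_option autoImplicit false
set_option linter.unusedSectionVars false

/-!
# Class functions on a product of several groups
-/

namespace Pool.Agent.R370.ST

open Complex Filter Topology ComplexConjugate NumberField IsDedekindDomain MeasureTheory
  Pool.Agent.W540.BE Pool.Agent.TH553.RS Pool.Agent.TH553.ST
  Pool.Agent.H341R2

section

variable {ι : Type} [Fintype ι] [DecidableEq ι] {G : ι → Type} [∀ i, Group (G i)]
  [∀ i, TopologicalSpace (G i)]

/-- sums of products of matrix coefficients -/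
def CoefP (f : (∀ i, G i) → ℂ) : Prop := ∃ (J : Type) (_ : Fintype J) (a : J → ℂ)
  (φ : J → ∀ i, G i → ℂ), (∀ j i, Coef (φ j i)) ∧ ∀ p, f p = ∑ j, a j * ∏ i, φ j i (p i)

theorem CoefP.add {f f' : (∀ i, G i) → ℂ} (h : CoefP f) (h' : CoefP f') :
    CoefP fun p => f p + f' p := by
  obtain ⟨J, _, a, φ, h1, h2⟩ := h
  obtain ⟨J', _, a', φ', h1', h2'⟩ := h'
  refine ⟨J ⊕ J', inferInstance, Sum.elim a a', Sum.elim φ φ', ?_, fun p => ?_⟩
  · rintro (j | j) i
    · exact h1 j i
    · exact h1' j i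
  · rw [Fintype.sum_sum_type]
    exact congrArg₂ (· + ·) (h2 p) (h2' p)

theorem CoefP.mul {f f' : (∀ i, G i) → ℂ} (h : CoefP f) (h' : CoefP f') :
    CoefP fun p => f p * f' p := by
  obtain ⟨J, _, a, φ, h1, h2⟩ := h
  obtain ⟨J', _, a', φ', h1', h2'⟩ := h'
  refine ⟨J × J', inferInstance, fun j => a j.1 * a' j.2, fun j i g => φ j.1 i g * φ' j.2 i g,
    fun j i => (h1 j.1 i).mul (h1' j.2 i), fun p => ?_⟩
  rw [Fintype.sum_prod_type]
  refine (congrArg₂ (· * ·) (h2 p) (h2' p)).trans ?_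
  simp only
  rw [Finset.sum_mul_sum]
  refine Finset.sum_congr rfl fun i _ => Finset.sum_congr rfl fun j _ => ?_
  rw [Finset.prod_mul_distrib]
  ring

theorem CoefP.const (c : ℂ) : CoefP fun _ : (∀ i, G i) => c :=
  ⟨Unit, inferInstance, fun _ => c, fun _ _ _ => 1, fun _ _ => Coef.const 1, fun p => by simp⟩

theorem CoefP.conj {f : (∀ i, G i) → ℂ} (h : CoefP f) : CoefP fun p => conj (f p) := by
  obtain ⟨J, _, a, φ, h1, h2⟩ := h
  refine ⟨J, inferInstance, fun j => starRingEnd ℂ (a j),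
    fun j i g => starRingEnd ℂ (φ j i g), fun j i => (h1 j i).conj, fun p => ?_⟩
  simp only
  rw [h2, map_sum]
  refine Finset.sum_congr rfl fun j _ => ?_
  rw [map_mul, map_prod]

theorem CoefP.coord {i : ι} {φ : G i → ℂ} (h : Coef φ) : CoefP fun p : (∀ i, G i) => φ (p i) := by
  refine ⟨Unit, inferInstance, fun _ => 1, fun _ => Function.update (fun _ _ => 1) i φ,
    fun _ k => ?_, fun p => ?_⟩
  · by_cases hk : k = i
    · subst hk
      simp only [Function.update_self]
      exact h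
    · simp only [Function.update_of_ne hk]
      exact Coef.const 1
  · simp only [Finset.univ_unique, Finset.sum_singleton, one_mul]
    rw [Finset.prod_eq_single i]
    · rw [Function.update_self]
    · intro k _ hk
      rw [Function.update_of_ne hk]
    · intro hi
      exact absurd (Finset.mem_univ i) hi

/-- the algebra -/
noncomputable def coefAlgP (G : ι → Type) [∀ i, Group (G i)] [∀ i, TopologicalSpace (G i)] :
    StarSubalgebra ℂ C((∀ i, G i), ℂ) where
  carrier := {f | CoefP f}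
  mul_mem' := fun {f f'} (h : CoefP f) (h' : CoefP f') => show CoefP _ from h.mul h'
  one_mem' := show CoefP _ from CoefP.const 1
  add_mem' := fun {f f'} (h : CoefP f) (h' : CoefP f') => show CoefP _ from h.add h'
  zero_mem' := show CoefP _ from CoefP.const 0
  algebraMap_mem' := fun c => show CoefP _ from CoefP.const c
  star_mem' := fun {f} (h : CoefP f) => show CoefP _ from h.conj

theorem coefP_cont {f : (∀ i, G i) → ℂ} (h : CoefP f) : Continuous f := by
  obtain ⟨J, _, a, φ, h1, h2⟩ := h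
  have : f = fun p => ∑ j, a j * ∏ i, φ j i (p i) := funext h2
  rw [this]
  exact continuous_finsetSum _ fun j _ => continuous_const.mul
    (continuous_finsetProd _ fun i _ => (coef_cont (h1 j i)).comp (continuous_apply i))

end

section

variable {ι : Type} [Fintype ι] [DecidableEq ι] {G : ι → Type} [∀ i, Group (G i)]
  [∀ i, TopologicalSpace (G i)] [∀ i, IsTopologicalGroup (G i)] [∀ i, CompactSpace (G i)]
  [∀ i, T2Space (G i)]

theorem coefP_dense {f : (∀ i, G i) → ℂ} (hf : Continuous f) {ε : ℝ} (hε : 0 < ε) :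
    ∃ φ : (∀ i, G i) → ℂ, CoefP φ ∧ ∀ p, ‖f p - φ p‖ ≤ ε := by
  have h1 : (coefAlgP G).topologicalClosure = ⊤ := by
    refine ContinuousMap.starSubalgebra_topologicalClosure_eq_top_of_separatesPoints _ ?_
    intro p q hne
    obtain ⟨i, hi⟩ := Function.ne_iff.1 hne
    obtain ⟨φ, h2, h3⟩ := coef_sep hi
    have h4 := CoefP.coord h2
    exact ⟨_, ⟨⟨_, coefP_cont h4⟩, h4, rfl⟩, h3⟩
  have h2 : (⟨f, hf⟩ : C((∀ i, G i), ℂ)) ∈ (coefAlgP G).topologicalClosure := by
    rw [h1]
    exact StarSubalgebra.mem_top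
  have h3 : (⟨f, hf⟩ : C((∀ i, G i), ℂ)) ∈ closure ((coefAlgP G :
      StarSubalgebra ℂ C((∀ i, G i), ℂ)) : Set C((∀ i, G i), ℂ)) := h2
  obtain ⟨φ, h4, h5⟩ := Metric.mem_closure_iff.1 h3 ε hε
  refine ⟨φ, h4, fun g => ?_⟩
  rw [dist_eq_norm] at h5
  exact (ContinuousMap.norm_coe_le_norm ((⟨f, hf⟩ : C((∀ i, G i), ℂ)) - φ) g).trans h5.le

variable [∀ i, MeasurableSpace (G i)] [∀ i, BorelSpace (G i)]
  [∀ i, SecondCountableTopology (G i)]
  {μ : ∀ i, Measure (G i)} [∀ i, IsProbabilityMeasure (μ i)] [∀ i, (μ i).IsHaarMeasure]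

omit [∀ i, Group (G i)] [∀ i, IsTopologicalGroup (G i)] [∀ i, (μ i).IsHaarMeasure]
  [∀ i, T2Space (G i)] in
theorem intgP {f : (∀ i, G i) → ℂ} (hf : Continuous f) : Integrable f (Measure.pi μ) :=
  hf.integrable_of_hasCompactSupport (HasCompactSupport.of_compactSpace f)

theorem dec_props {H : Type} [Group H] [TopologicalSpace H] {f : H → ℂ} (h : Dec f) :
    Continuous f ∧ ∀ g k, f (k * g * k⁻¹) = f g := by
  obtain ⟨J, _, m, ρ, a, h1, h2⟩ := h
  constructor
  · have : f = fun g => ∑ j, a j * TH553.ST.chi (ρ j) g := funext h2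
    rw [this]
    exact continuous_finsetSum _ fun j _ => continuous_const.mul (cont_chi (h1 j).1)
  · intro g k
    rw [h2, h2]
    exact Finset.sum_congr rfl fun j _ => by rw [chi_cls]

/-- **Sums of products of class functions are dense in the class functions.** -/
theorem cls_denseP (μ : ∀ i, Measure (G i)) [∀ i, IsProbabilityMeasure (μ i)]
    [∀ i, (μ i).IsHaarMeasure] {f : (∀ i, G i) → ℂ} (hf : Continuous f)
    (hcl : ∀ g h, f (h * g * h⁻¹) = f g) {ε : ℝ} (hε : 0 < ε) :
    ∃ (J : Type) (_ : Fintype J) (a : J → ℂ) (c : J → ∀ i, G i → ℂ),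
      (∀ j i, Continuous (c j i)) ∧ (∀ j i g h, c j i (h * g * h⁻¹) = c j i g) ∧
      ∀ p, ‖f p - ∑ j, a j * ∏ i, c j i (p i)‖ ≤ ε := by
  obtain ⟨φ₀, h1, h2⟩ := coefP_dense hf hε
  have hc0 := coefP_cont h1
  obtain ⟨J, _, a, φ, h3, h4⟩ := h1
  refine ⟨J, inferInstance, a, fun j i => cav (μ i) (φ j i),
    fun j i => (dec_props (dec_cav (h3 j i))).1, fun j i g h => (dec_props (dec_cav (h3 j i))).2 g h,
    fun p => ?_⟩
  have hin : ∀ F : (∀ i, G i) → ℂ, Continuous F → Continuous fun h : (∀ i, G i) =>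
      F (h⁻¹ * p * h) := fun F hF =>
    hF.comp ((continuous_inv.mul continuous_const).mul continuous_id)
  have e1 : ∑ j, a j * ∏ i, cav (μ i) (φ j i) (p i) =
      ∫ h, φ₀ (h⁻¹ * p * h) ∂(Measure.pi μ) := by
    have e2 : ∀ h : (∀ i, G i), φ₀ (h⁻¹ * p * h) =
        ∑ j, a j * ∏ i, φ j i ((h i)⁻¹ * p i * h i) := fun h => h4 _
    simp only [e2]
    have k1 : ∀ j, Continuous fun h : (∀ i, G i) => a j * ∏ i, φ j i ((h i)⁻¹ * p i * h i) := by
      intro j
      refine continuous_const.mul (continuous_finsetProd _ fun i _ => ?_)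
      exact (coef_cont (h3 j i)).comp (((continuous_inv.mul continuous_const).mul
        continuous_id).comp (continuous_apply i))
    rw [integral_finsetSum _ fun j _ => intgP (k1 j)]
    refine Finset.sum_congr rfl fun j _ => ?_
    rw [integral_const_mul]
    congr 1
    exact (integral_fintype_prod_eq_prod (fun i h => φ j i (h⁻¹ * p i * h))).symm
  have e3 : f p = ∫ h, f (h⁻¹ * p * h) ∂(Measure.pi μ) := by
    have h7 : ∀ h : (∀ i, G i), f (h⁻¹ * p * h) = f p := by
      intro h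
      have := hcl p h⁻¹
      rwa [inv_inv] at this
    simp only [h7]
    simp
  rw [e1, e3, ← integral_sub (intgP (hin f hf)) (intgP (hin φ₀ hc0))]
  refine (norm_integral_le_integral_norm _).trans ?_
  have h9 : ∫ h, ‖f (h⁻¹ * p * h) - φ₀ (h⁻¹ * p * h)‖ ∂(Measure.pi μ) ≤
      ∫ _, ε ∂(Measure.pi μ) := by
    refine integral_mono ((intgP (hin f hf)).sub (intgP (hin φ₀ hc0))).norm
      (integrable_const _) fun k => h2 _
  simpa using h9

variable {K : Type} [Field K] [NumberField K] {x : ∀ i, HeightOneSpectrum (𝓞 K) → G i}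

theorem joint_of_QQ (h : QQ μ x Finset.univ) {f : (∀ i, G i) → ℂ} (hf : Continuous f)
    (hcl : ∀ g h, f (h * g * h⁻¹) = f g) :
    Tendsto (mn fun v => f fun i => x i v) atTop (𝓝 (∫ p, f p ∂(Measure.pi μ))) := by
  refine mn_unif fun ε hε => ?_
  obtain ⟨J, _, a, c, h1, h2, h3⟩ := cls_denseP μ hf hcl hε
  have hci : ∀ j, Continuous fun p : (∀ i, G i) => a j * ∏ i, c j i (p i) := fun j =>
    continuous_const.mul (continuous_finsetProd _ fun i _ => (h1 j i).comp (continuous_apply i))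
  have hFc : Continuous fun p : (∀ i, G i) => ∑ j, a j * ∏ i, c j i (p i) :=
    continuous_finsetSum _ fun j _ => hci j
  refine ⟨fun v => ∑ j, a j * ∏ i, c j i (x i v), ∑ j, a j * ∏ i, ∫ g, c j i g ∂(μ i),
    fun v => h3 _, ?_, ?_⟩
  · have h5 : ∫ p, (∑ j, a j * ∏ i, c j i (p i)) ∂(Measure.pi μ) =
        ∑ j, a j * ∏ i, ∫ g, c j i g ∂(μ i) := by
      rw [integral_finsetSum _ fun j _ => intgP (hci j)]
      refine Finset.sum_congr rfl fun j _ => ?_
      rw [integral_const_mul]
      congr 1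
      exact integral_fintype_prod_eq_prod (fun i g => c j i g)
    rw [← h5, ← integral_sub (intgP hFc) (intgP hf)]
    refine (norm_integral_le_integral_norm _).trans ?_
    have h6 : ∫ p, ‖(∑ j, a j * ∏ i, c j i (p i)) - f p‖ ∂(Measure.pi μ) ≤
        ∫ _, ε ∂(Measure.pi μ) := by
      refine integral_mono ((intgP hFc).sub (intgP hf)).norm (integrable_const _) fun p => ?_
      simp only
      rw [norm_sub_rev]
      exact h3 p
    simpa using h6
  · have h5 : Tendsto (fun N => ∑ j, a j * mn (fun v => ∏ i, c j i (x i v)) N)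
        atTop (𝓝 (∑ j, a j * ∏ i, ∫ g, c j i g ∂(μ i))) :=
      tendsto_finsetSum _ fun j _ => (h (c j) (h1 j) (h2 j)).const_mul _
    refine h5.congr fun N => ?_
    rw [mn_sum]
    exact Finset.sum_congr rfl fun j _ => (mn_mul _ _ _).symm

omit [∀ i, T2Space (G i)] [∀ i, SecondCountableTopology (G i)] in
theorem QQ_of_joint {s : Finset ι}
    (h : ∀ f : (∀ i : s, G i) → ℂ, Continuous f → (∀ g h, f (h * g * h⁻¹) = f g) →
      Tendsto (mn fun v => f fun i : s => x i v) atTop
        (𝓝 (∫ p, f p ∂(Measure.pi fun i : s => μ i)))) : QQ μ x s := by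
  intro f hf hcl
  have h1 := h (fun g => ∏ i : s, f i (g i))
    (continuous_finsetProd _ fun i _ => (hf i).comp (continuous_apply i))
    (fun g k => Finset.prod_congr rfl fun i _ => hcl i (g i) (k i))
  rw [integral_fintype_prod_eq_prod (fun (i : s) g => f i g)] at h1
  have e1 : ∏ i : s, ∫ g, f i g ∂(μ i) = ∏ i ∈ s, ∫ g, f i g ∂(μ i) :=
    Finset.prod_coe_sort s fun i => ∫ g, f i g ∂(μ i)
  rw [e1] at h1
  refine h1.congr fun N => ?_
  congr 1
  funext v
  exact Finset.prod_coe_sort s fun i => f i (x i v)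

end

end Pool.Agent.R370.ST
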