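import Pool.Agent.TH553.ST.Pair2

set_option autoImplicit false
set_option linter.unusedSectionVars false

/-!
# The Tauberian theorem for Euler products of unitary matrices with a zero or pole at `s = 1`
-/

namespace Pool.Agent.R370.ST

open Complex Filter Topology ComplexConjugate NumberField IsDedekindDomain
  Pool.Agent.W540.BE Pool.Agent.TH553.RS Pool.Agent.TH553.ST H332.PIT

section

variable {K : Type} [Field K] [NumberField K]

/-- **The weighted mean value.** -/
theorem sum_wtp {t : HeightOneSpectrum (𝓞 K) → ℂ} {B : ℝ} (hB0 : 0 ≤ B) (ht : ∀ v, ‖t v‖ ≤ B)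
    (m : ℝ) (hbd : ∀ s : ℂ, 1 ≤ s.re → ∃ y, Tendsto (fun z => S t z + m / (z - 1))
      (𝓝[{s : ℂ | 1 < s.re}] s) (𝓝 y)) {ζ : ℂ} (hζ : ‖ζ‖ ≤ 1) :
    Tendsto (fun x : ℝ => (∑ k ∈ Finset.Icc 1 ⌊x⌋₊, (B * LamK K k + wt ζ t k)) / x) atTop
      (𝓝 (B - ζ.re * m)) := by
  set f : ℂ → ℂ := fun s => B * (LL K s - 1 / (s - 1)) + ζ / 2 * (S t s + m / (s - 1)) +
    conj ζ / 2 * conj (S t (conj s) + m / (conj s - 1)) with hf
  have hconj : ∀ s : ℂ, Tendsto (fun z : ℂ => conj z) (𝓝[{s : ℂ | 1 < s.re}] s)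
      (𝓝[{s : ℂ | 1 < s.re}] (conj s)) := by
    intro s
    rw [tendsto_nhdsWithin_iff]
    refine ⟨(Complex.continuous_conj.tendsto s).mono_left nhdsWithin_le_nhds, ?_⟩
    filter_upwards [self_mem_nhdsWithin] with z hz
    have : 1 < z.re := hz
    simpa using this
  have hbd' : ∀ s : ℂ, 1 ≤ s.re → ∃ y, Tendsto f (𝓝[{s : ℂ | 1 < s.re}] s) (𝓝 y) := by
    intro s hs
    obtain ⟨y0, h0⟩ := boundary (K := K) (Pool.Agent.H484R2.continuation K) hs
    obtain ⟨y1, h1⟩ := hbd s hs
    obtain ⟨y2, h2⟩ := hbd (conj s) (by simpa using hs)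
    have h3 := (Complex.continuous_conj.tendsto y2).comp (h2.comp (hconj s))
    exact ⟨_, ((h0.const_mul _).add (h1.const_mul _)).add (h3.const_mul _)⟩
  have hLam : ∀ n, 0 ≤ LamK K n := LamK_nonneg
  refine Pool.Agent.Helper923.PNT.wiener_ikehara (fun k => B * LamK K k + wt ζ t k) ?_
    (2 * B * ((Module.finrank ℚ K : ℝ) ^ 2 * (Real.log 4 + 4))) (B - ζ.re * m) ?_
    (extendFrom {s : ℂ | 1 < s.re} f) ?_ ?_
  · intro n
    have := (abs_le.1 (wt_le hζ hB0 ht n)).1
    linarith
  · intro n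
    have h1 : ∑ k ∈ Finset.Icc 1 n, (B * LamK K k + wt ζ t k) ≤
        ∑ k ∈ Finset.Icc 1 n, (2 * B) * LamK K k := by
      refine Finset.sum_le_sum fun k _ => ?_
      have := (abs_le.1 (wt_le hζ hB0 ht k)).2
      linarith
    have h2 : ∑ k ∈ Finset.Icc 1 n, LamK K k ≤
        (Module.finrank ℚ K : ℝ) ^ 2 * Chebyshev.psi n := by
      unfold Chebyshev.psi
      rw [Nat.floor_natCast, Finset.mul_sum]
      exact Finset.sum_le_sum fun k _ => LamK_le k
    have h3 : (Module.finrank ℚ K : ℝ) ^ 2 * Chebyshev.psi n ≤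
        (Module.finrank ℚ K : ℝ) ^ 2 * ((Real.log 4 + 4) * n) :=
      mul_le_mul_of_nonneg_left (Chebyshev.psi_le_const_mul_self (Nat.cast_nonneg n))
        (by positivity)
    rw [← Finset.mul_sum] at h1
    refine h1.trans ?_
    calc 2 * B * ∑ k ∈ Finset.Icc 1 n, LamK K k ≤
          2 * B * ((Module.finrank ℚ K : ℝ) ^ 2 * ((Real.log 4 + 4) * n)) :=
          mul_le_mul_of_nonneg_left (h2.trans h3) (by positivity)
      _ = _ := by ring
  · refine continuousOn_extendFrom ?_ fun s hs => hbd' s hs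
    intro s hs
    rw [Metric.mem_closure_iff]
    intro ε hε
    refine ⟨s + ((ε / 2 : ℝ) : ℂ), ?_, ?_⟩
    · have : (1 : ℝ) ≤ s.re := hs
      simp only [Set.mem_ofPred_eq, Complex.add_re, Complex.ofReal_re]
      linarith
    · rw [dist_eq_norm, sub_add_cancel_left, norm_neg, Complex.norm_real, Real.norm_eq_abs,
        abs_of_pos (by linarith)]
      linarith
  · intro s hs
    have hne : ∀ z : ℂ, 1 < z.re → z - 1 ≠ 0 := by
      intro z hz' h1
      have : z = 1 := sub_eq_zero.mp h1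
      rw [this] at hz'
      simp at hz'
    have hg : ∀ z : ℂ, 1 < z.re → ContinuousAt (fun z => S t z + m / (z - 1)) z := fun z hz =>
      (an_S ht hz).continuousAt.add (continuousAt_const.div
        (continuous_id.sub continuous_const).continuousAt (hne z hz))
    have h1 : ContinuousOn f {s : ℂ | 1 < s.re} := by
      intro z hz
      have hz' : 1 < z.re := hz
      refine ContinuousAt.continuousWithinAt ?_
      have hcj : 1 < (conj z).re := by simpa using hz'
      have h2 : ContinuousAt (fun z : ℂ => conj (S t (conj z) + m / (conj z - 1))) z :=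
        Complex.continuous_conj.continuousAt.comp
          (ContinuousAt.comp (g := fun z : ℂ => S t z + m / (z - 1)) (f := fun z : ℂ => conj z)
            (hg _ hcj) Complex.continuous_conj.continuousAt)
      exact ((continuousAt_const.mul ((LL_analyticAt hz).continuousAt.sub
        (continuousAt_const.div (continuous_id.sub continuous_const).continuousAt
          (hne z hz')))).add
        (continuousAt_const.mul (hg z hz'))).add (continuousAt_const.mul h2)
    rw [extendFrom_extends h1 s hs, hf]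
    have h2 : LSeries (fun n => ((B * LamK K n + wt ζ t n : ℝ) : ℂ)) s =
        B * LL K s + ζ / 2 * S t s + conj ζ / 2 * conj (S t (conj s)) := by
      have e1 : (fun n : ℕ => ((B * LamK K n + wt ζ t n : ℝ) : ℂ)) =
          (B : ℂ) • (fun n : ℕ => (LamK K n : ℂ)) + (ζ / 2) • (lc t) +
            (conj ζ / 2) • (fun n => conj (lc t n)) := by
        funext n
        simp only [Pi.add_apply, Pi.smul_apply, smul_eq_mul]
        rw [Complex.ofReal_add, wt_eq, Complex.ofReal_mul]
        ring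
      have a0 : LSeriesSummable ((B : ℂ) • (fun n : ℕ => (LamK K n : ℂ))) s :=
        (LamK_summable (K := K) hs).smul _
      have a1 : LSeriesSummable ((ζ / 2) • (lc t)) s := (summ_lc ht hs).smul _
      have a2 : LSeriesSummable ((conj ζ / 2) • (fun n => conj (lc t n))) s :=
        (summ_conj _ _ (summ_lc ht hs)).smul _
      rw [e1, LSeries_add (a0.add a1) a2, LSeries_add a0 a1, LSeries_smul, LSeries_smul,
        LSeries_smul, LS_conj]
      rfl
    rw [h2]
    simp only
    have h3 : conj (S t (conj s) + m / (conj s - 1)) = conj (S t (conj s)) + m / (s - 1) := by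
      rw [map_add, map_div₀, map_sub, Complex.conj_conj, Complex.conj_ofReal, map_one]
    have h4 : ((B - ζ.re * m : ℝ) : ℂ) = B - (ζ / 2 + conj ζ / 2) * m := by
      push_cast
      rw [Complex.re_eq_add_conj]
      ring
    rw [h3, h4]
    ring

/-- **The Tauberian theorem.** -/
theorem taub_mnp {t : HeightOneSpectrum (𝓞 K) → ℂ} {B : ℝ} (hB0 : 0 ≤ B) (ht : ∀ v, ‖t v‖ ≤ B)
    (m : ℝ) (hbd : ∀ s : ℂ, 1 ≤ s.re → ∃ y, Tendsto (fun z => S t z + m / (z - 1))
      (𝓝[{s : ℂ | 1 < s.re}] s) (𝓝 y)) :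
    Tendsto (mn t) atTop (𝓝 (-(m : ℂ))) := by
  have key : ∀ ζ : ℂ, ‖ζ‖ ≤ 1 → Tendsto (fun N : ℕ =>
      (∑ k ∈ Finset.Icc 1 N, wt ζ t k) / (N : ℝ)) atTop (𝓝 (-(ζ.re * m))) := by
    intro ζ hζ
    have h1 := (sum_wtp (K := K) hB0 ht m hbd hζ).comp (tendsto_natCast_atTop_atTop (R := ℝ))
    have h2 := ((sum_LamK (K := K) (Pool.Agent.H484R2.continuation K)).comp
      (tendsto_natCast_atTop_atTop (R := ℝ))).const_mul B
    have h3 := h1.sub h2
    have e : B - ζ.re * m - B * 1 = -(ζ.re * m) := by ring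
    rw [e] at h3
    refine h3.congr fun N => ?_
    simp only [Function.comp, Nat.floor_natCast]
    rw [Finset.sum_add_distrib, ← Finset.mul_sum]
    ring
  -- the weighted sums
  set T : ℕ → ℂ := fun N => ∑ k ∈ Finset.Icc 1 N, lc t k with hT
  have hT0 : Tendsto (fun N : ℕ => T N / (N : ℂ)) atTop (𝓝 (-(m : ℂ))) := by
    have k1 := key 1 (by simp)
    have k2 := key (-I) (by simp)
    have h1 : Tendsto (fun N : ℕ => (((∑ k ∈ Finset.Icc 1 N, wt 1 t k) / (N : ℝ) : ℝ) : ℂ) +
        (((∑ k ∈ Finset.Icc 1 N, wt (-I) t k) / (N : ℝ) : ℝ) : ℂ) * I) atTop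
        (𝓝 (((-((1 : ℂ).re * m) : ℝ) : ℂ) + ((-((-I).re * m) : ℝ) : ℂ) * I)) :=
      ((Complex.continuous_ofReal.tendsto _).comp k1).add
        (((Complex.continuous_ofReal.tendsto _).comp k2).mul_const I)
    have e : (((-((1 : ℂ).re * m) : ℝ) : ℂ) + ((-((-I).re * m) : ℝ) : ℂ) * I) = -(m : ℂ) := by
      simp
    rw [e] at h1
    refine h1.congr fun N => ?_
    push_cast
    rw [div_mul_eq_mul_div, ← add_div, Finset.sum_mul, ← Finset.sum_add_distrib]
    congr 1
    refine Finset.sum_congr rfl fun k _ => ?_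
    have h2 : wt 1 t k = (lc t k).re := by simp [wt]
    have h3 : wt (-I) t k = (lc t k).im := by simp [wt]
    rw [h2, h3]
    exact Complex.re_add_im (lc t k)
  have hTv : ∀ N, T N = ∑ v ∈ upto K N, (Real.log (nm K v) : ℂ) * t v := by
    intro N
    rw [← sum_nf (fun v => (Real.log (nm K v) : ℂ) * t v) N]
    refine Finset.sum_congr rfl fun k _ => ?_
    rw [lc_eq]
    unfold nf
    rw [Finset.mul_sum]
    refine Finset.sum_congr rfl fun v hv => ?_
    rw [Set.Finite.mem_toFinset, Set.mem_ofPred_eq] at hv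
    simp only [hv]
  set A : ℕ → ℂ := fun N => ∑ v ∈ upto K N, t v with hA
  have hdiff : ∀ N : ℕ, ‖A N * ((Real.log N : ℝ) : ℂ) - T N‖ ≤
      B * (((upto K N).card : ℝ) * Real.log N - WK K N) := by
    intro N
    have e1 : A N * ((Real.log N : ℝ) : ℂ) - T N =
        ∑ v ∈ upto K N, ((Real.log N - Real.log (nm K v) : ℝ) : ℂ) * t v := by
      rw [hTv, hA]
      simp only
      rw [Finset.sum_mul, ← Finset.sum_sub_distrib]
      exact Finset.sum_congr rfl fun v _ => by push_cast; ring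
    have e2 : ((upto K N).card : ℝ) * Real.log N - WK K N =
        ∑ v ∈ upto K N, (Real.log N - Real.log (nm K v)) := by
      rw [Finset.sum_sub_distrib, Finset.sum_const, nsmul_eq_mul]
      rfl
    rw [e1, e2, Finset.mul_sum]
    refine (norm_sum_le _ _).trans (Finset.sum_le_sum fun v hv => ?_)
    rw [norm_mul, Complex.norm_real, Real.norm_of_nonneg (log_le_log hv), mul_comm]
    exact mul_le_mul_of_nonneg_right (ht v) (log_le_log hv)
  have h0 : Tendsto (fun N : ℕ => B * ((((upto K N).card : ℝ) * Real.log N - WK K N) / N)) atTop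
      (𝓝 0) := by
    have := (WK_tendsto (K := K)).const_mul B
    simpa using this
  have h1 : Tendsto (fun N : ℕ => A N * ((Real.log N : ℝ) : ℂ) / N - T N / N) atTop (𝓝 0) := by
    refine squeeze_zero_norm (fun N => ?_) h0
    rw [← sub_div, norm_div, ← mul_div_assoc]
    have e4 : ‖(N : ℂ)‖ = N := by simp
    rw [e4]
    exact div_le_div_of_nonneg_right (hdiff N) (Nat.cast_nonneg _)
  have h2 : Tendsto (fun N : ℕ => A N * ((Real.log N : ℝ) : ℂ) / N) atTop (𝓝 (-(m : ℂ))) := by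
    have := h1.add hT0
    rw [zero_add] at this
    exact this.congr fun N => by ring
  have hpi' : Tendsto (fun N : ℕ => (((Nat.primeCounting N : ℝ) * Real.log N / N : ℝ) : ℂ)) atTop
      (𝓝 ((1 : ℝ) : ℂ)) := (Complex.continuous_ofReal.tendsto _).comp pi_log
  have h3 := h2.div hpi' (by simp)
  rw [ofReal_one, div_one] at h3
  refine mn_of_pi (h3.congr' ?_)
  filter_upwards [eventually_ge_atTop 2] with N hN
  have hl : ((Real.log N : ℝ) : ℂ) ≠ 0 := by
    have : 0 < Real.log N := Real.log_pos (by exact_mod_cast hN)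
    exact_mod_cast this.ne'
  have hN0 : (N : ℂ) ≠ 0 := by
    have : N ≠ 0 := by omega
    exact_mod_cast this
  have hp : (Nat.primeCounting N : ℂ) ≠ 0 := by
    have : Nat.primeCounting N ≠ 0 := by
      rw [Ne, Nat.primeCounting_eq_zero_iff]
      omega
    exact_mod_cast this
  simp only [Pi.div_apply]
  push_cast
  have hl' : Complex.log (N : ℂ) ≠ 0 := by
    rw [← Complex.natCast_log]
    exact hl
  field_simp
  rfl

/-- the boundary values -/
theorem bd_Sp {b : ℕ} {α : HeightOneSpectrum (𝓞 K) → Fin b → ℂ} (hα : ∀ v j, ‖α v j‖ = 1)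
    {L : ℂ → ℂ} (hL : ∀ s : ℂ, 1 < s.re →
      L s = ∏' v, (∏ j, (1 - α v j * ((nm K v : ℕ) : ℂ) ^ (-s)))⁻¹) {m : ℤ}
    (hc : ∀ τ : ℝ, ∃ Λ : ℂ → ℂ, MeromorphicAt Λ (1 + τ * I) ∧
      (∀ᶠ s in 𝓝 ((1 : ℂ) + τ * I), 1 < s.re → Λ s = L s) ∧
      meromorphicOrderAt Λ (1 + τ * I) = ((if τ = 0 then m else 0 : ℤ) : WithTop ℤ)) {s : ℂ}
    (hs : 1 ≤ s.re) :
    ∃ y, Tendsto (fun z => S (fun v => ∑ j, α v j) z + ((m : ℝ) : ℂ) / (z - 1))
      (𝓝[{s : ℂ | 1 < s.re}] s) (𝓝 y) := by
  have hne : ∀ z : ℂ, 1 < z.re → z - 1 ≠ 0 := by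
    intro z hz' h1
    have : z = 1 := sub_eq_zero.mp h1
    rw [this] at hz'
    simp at hz'
  rcases hs.eq_or_lt with h | h
  · have hs' : s = 1 + (s.im : ℝ) * I := by
      apply Complex.ext <;> simp [← h]
    obtain ⟨Λ, h1, h2, h3⟩ := hc s.im
    obtain ⟨g, hg1, hg2, hg3⟩ := (meromorphicOrderAt_eq_int_iff h1).1 h3
    rw [eventually_nhdsWithin_iff] at hg3
    rw [hs']
    set τ : ℝ := s.im with hτ
    set s0 : ℂ := 1 + (τ : ℝ) * I with hs0
    have hmem : s0 ∈ Hp := by
      have : (3 / 4 : ℝ) < s0.re := by rw [hs0]; norm_num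
      exact this
    have hR : AnalyticAt ℂ (Rt α) s0 := (diff_Rt hα).analyticAt (isOpen_Hp.mem_nhds hmem)
    have hne0 : ∀ z : ℂ, 1 < z.re → z ≠ s0 := by
      intro z hz h
      rw [h, hs0] at hz
      simp at hz
    -- the continuous function on the boundary
    have h4 : ContinuousAt (fun z => deriv (Rt α) z - deriv g z / g z) s0 :=
      hR.deriv.continuousAt.sub (hg1.deriv.continuousAt.div hg1.continuousAt hg2)
    by_cases ht : τ = 0
    · rw [if_pos ht] at hg3
      have hs1 : s0 = 1 := by rw [hs0, ht]; simp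
      refine ⟨_, (h4.tendsto.mono_left nhdsWithin_le_nhds).congr' ?_⟩
      filter_upwards [(h2.and (hg3.and (hg1.eventually_analyticAt.and
        (hg1.continuousAt.eventually_ne hg2)))).eventually_nhds.filter_mono nhdsWithin_le_nhds,
        self_mem_nhdsWithin] with z hz hre
      have hre' : 1 < z.re := hre
      have hgz := hz.self_of_nhds.2.2.1
      have hgz0 := hz.self_of_nhds.2.2.2
      have h5 : L =ᶠ[𝓝 z] fun w => (w - s0) ^ m * g w := by
        filter_upwards [hz, isOpen_re.mem_nhds hre'] with w hw hw1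
        rw [← hw.1 hw1, hw.2.1 (hne0 w hw1), smul_eq_mul]
      have hzne : z - s0 ≠ 0 := sub_ne_zero.2 (hne0 z hre')
      have h6 : HasDerivAt (fun w => (w - s0) ^ m) ((m : ℂ) * (z - s0) ^ (m - 1) * 1) z := by
        have h7 : HasDerivAt (fun w : ℂ => w - s0) 1 z := (hasDerivAt_id z).sub_const s0
        exact (hasDerivAt_zpow m (z - s0) (Or.inl hzne)).comp z h7
      have h8 : HasDerivAt (fun w => (w - s0) ^ m * g w)
          ((m : ℂ) * (z - s0) ^ (m - 1) * 1 * g z + (z - s0) ^ m * deriv g z) z :=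
        h6.mul hgz.differentiableAt.hasDerivAt
      rw [(S_eq hα hL hre').2, h5.deriv_eq, h8.deriv, h5.eq_of_nhds]
      have h9 : (z - s0) ^ m ≠ 0 := zpow_ne_zero _ hzne
      have h10 : (z - s0) ^ (m - 1) = (z - s0) ^ m / (z - s0) := by
        rw [zpow_sub_one₀ hzne, div_eq_mul_inv]
      rw [h10, hs1] at *
      push_cast
      field_simp
      ring
    · rw [if_neg ht] at hg3
      have hs1 : s0 - 1 ≠ 0 := by
        rw [hs0]
        simp [ht]
      have h11 : ContinuousAt (fun z => deriv (Rt α) z - deriv g z / g z +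
          ((m : ℝ) : ℂ) / (z - 1)) s0 :=
        h4.add (continuousAt_const.div (continuous_id.sub continuous_const).continuousAt hs1)
      refine ⟨_, (h11.tendsto.mono_left nhdsWithin_le_nhds).congr' ?_⟩
      filter_upwards [(h2.and hg3).eventually_nhds.filter_mono nhdsWithin_le_nhds,
        self_mem_nhdsWithin] with z hz hre
      have hre' : 1 < z.re := hre
      have h5 : L =ᶠ[𝓝 z] g := by
        filter_upwards [hz, isOpen_re.mem_nhds hre'] with w hw hw1
        rw [← hw.1 hw1, hw.2 (hne0 w hw1), zpow_zero, one_smul]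
      rw [(S_eq hα hL hre').2, h5.deriv_eq, h5.eq_of_nhds]
  · exact ⟨_, ((an_S (sum_le hα) h).continuousAt.add (continuousAt_const.div
      (continuous_id.sub continuous_const).continuousAt (hne s h))).tendsto.mono_left
      nhdsWithin_le_nhds⟩

/-- **The Tauberian theorem for Euler products of unitary matrices.** -/
theorem taub_order {b : ℕ} {α : HeightOneSpectrum (𝓞 K) → Fin b → ℂ} (hα : ∀ v j, ‖α v j‖ = 1)
    {L : ℂ → ℂ} (hL : ∀ s : ℂ, 1 < s.re →
      L s = ∏' v, (∏ j, (1 - α v j * ((nm K v : ℕ) : ℂ) ^ (-s)))⁻¹) {m : ℤ}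
    (hc : ∀ τ : ℝ, ∃ Λ : ℂ → ℂ, MeromorphicAt Λ (1 + τ * I) ∧
      (∀ᶠ s in 𝓝 ((1 : ℂ) + τ * I), 1 < s.re → Λ s = L s) ∧
      meromorphicOrderAt Λ (1 + τ * I) = ((if τ = 0 then m else 0 : ℤ) : WithTop ℤ)) :
    Tendsto (mn fun v => ∑ j, α v j) atTop (𝓝 (-((m : ℝ) : ℂ))) :=
  taub_mnp (Nat.cast_nonneg b) (sum_le hα) m fun _ hs => bd_Sp hα hL hc hs

end

end Pool.Agent.R370.ST
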