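import Pool.Agent.R370.ST.Tb
import Pool.Agent.R370.ST.FinH

set_option autoImplicit false
set_option linter.unusedSectionVars false

/-!
# Two equidistributed families: independence or a link
-/

namespace Pool.Agent.R370.ST

open Complex Filter Topology ComplexConjugate NumberField IsDedekindDomain MeasureTheory
  Pool.Agent.W540.BE Pool.Agent.TH553.RS Pool.Agent.TH553.ST
  Pool.Agent.H341R2
open scoped Kronecker

section

variable {K : Type} [Field K] [NumberField K]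

/-- the mean value at a height different from zero -/
theorem M_height_ne {U : Ultrafilter ℝ} (hU : (U : Filter ℝ) ≤ 𝓝[>] 0)
    {g : HeightOneSpectrum (𝓞 K) → ℂ} (hg : Bc g) {c : ℝ}
    (h : Tendsto (mn g) atTop (𝓝 (c : ℂ))) {τ : ℝ} (hτ : τ ≠ 0) :
    (M (nm K) U fun v => (g v * ((nm K v : ℕ) : ℂ) ^ (-(τ * I))).re) = 0 := by
  obtain ⟨B, hB⟩ := hg
  have h3 := mean_edge (g := g) (B := B) hB c (mn_tendsto h) τ
  rw [if_neg hτ] at h3
  exact M_of_tendsto hU h3

theorem bc_q (s : ℝ) : Bc fun v : HeightOneSpectrum (𝓞 K) =>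
    ((nm K v : ℕ) : ℂ) ^ (-(s * I : ℂ)) :=
  ⟨1, fun v => (norm_cpow_I (nm_pos v) s).le⟩

/-- functions that agree in the mean square -/
theorem M_re_congr {U : Ultrafilter ℝ} (hU : (U : Filter ℝ) ≤ 𝓝[>] 0)
    {a b g : HeightOneSpectrum (𝓞 K) → ℂ} (ha : Bc a) (hb : Bc b) (hg : Bc g)
    (h : (M (nm K) U fun v => ‖a v - b v‖ ^ 2) = 0) :
    (M (nm K) U fun v => (a v * g v).re) = M (nm K) U fun v => (b v * g v).re := by
  have hN := sysF K
  have hab : Bc fun v => a v - b v := by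
    have h1 := ha.add ((Bc.const (P := HeightOneSpectrum (𝓞 K)) (-1)).mul hb)
    obtain ⟨C, hC⟩ := h1
    refine ⟨C, fun v => ?_⟩
    have h2 := hC v
    simp only [neg_mul, one_mul, ← sub_eq_add_neg] at h2
    exact h2
  have h1 := M_zero_of_sq hN hU hab.norm h
  obtain ⟨C, hC⟩ := hg
  have hg : Bc g := ⟨C, hC⟩
  have hd : Bd fun v => ((a v - b v) * g v).re := (hab.mul hg).re
  have h2 : (M (nm K) U fun v => |((a v - b v) * g v).re|) = 0 := by
    refine M_zero_of_le hN hU hd.abs (hab.norm.const_mul C) (fun v => abs_nonneg _) (fun v => ?_) ?_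
    · refine (Complex.abs_re_le_norm _).trans ?_
      rw [norm_mul, mul_comm]
      exact mul_le_mul_of_nonneg_right (hC v) (norm_nonneg _)
    · rw [M_const_mul hN hU hab.norm, h1, mul_zero]
  have h3 : (M (nm K) U fun v => ((a v - b v) * g v).re) = 0 := by
    apply le_antisymm
    · rw [← h2]
      exact M_mono hN hU hd hd.abs fun v => le_abs_self _
    · have h12 := M_mono hN hU hd.neg hd.abs fun v => neg_le_abs _
      rw [h2, M_neg hN hU hd] at h12
      linarith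
  have e : (fun v => ((a v - b v) * g v).re) = fun v => (a v * g v).re - (b v * g v).re := by
    funext v
    rw [sub_mul, Complex.sub_re]
  rw [e, M_sub hN hU (ha.mul hg).re (hb.mul hg).re] at h3
  linarith

end

section

variable {K : Type} [Field K] [NumberField K]
variable {G : Type} [Group G] [TopologicalSpace G] [IsTopologicalGroup G] [CompactSpace G]
  [MeasurableSpace G] [BorelSpace G] {μ : Measure G} [IsProbabilityMeasure μ] [μ.IsHaarMeasure]
  {n : ℕ} {π : G →* Matrix.unitaryGroup (Fin n) ℂ}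
variable {G' : Type} [Group G'] [TopologicalSpace G'] [IsTopologicalGroup G'] [CompactSpace G']
  [MeasurableSpace G'] [BorelSpace G'] {μ' : Measure G'} [IsProbabilityMeasure μ']
  [μ'.IsHaarMeasure] {n' : ℕ} {π' : G' →* Matrix.unitaryGroup (Fin n') ℂ}
  {n'' : ℕ} {π'' : G' →* Matrix.unitaryGroup (Fin n'') ℂ}
  {x : HeightOneSpectrum (𝓞 K) → G} {x' : HeightOneSpectrum (𝓞 K) → G'}

theorem tc_zero (v : HeightOneSpectrum (𝓞 K)) : tc π x 0 v = TH553.ST.chi π (x v) := by
  unfold tc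
  simp only [Complex.ofReal_zero, zero_mul, neg_zero, Complex.cpow_zero, mul_one]

/-- the correlation is the negative of the order -/
theorem corr_order {t : ℝ} {m : ℤ}
    (hm : Tendsto (sz π x π' x' t) (𝓝[>] 0) (𝓝 (-(m : ℝ)))) {U : Ultrafilter ℝ}
    (hU : (U : Filter ℝ) ≤ 𝓝[>] 0) :
    (M (nm K) U fun v => (tc π x 0 v * tc π' x' t v).re) = -(m : ℝ) := by
  have h1 := M_lim (sysF K) hU ((bc_tc (π := π) x 0).mul (bc_tc (π := π') x' t)).re
  have h2 := ((size_LP π x π' x' t).2.mono_left hU)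
  have h3 := h1.sub h2
  rw [sub_zero] at h3
  have h4 : Tendsto (sz π x π' x' t) U
      (𝓝 (M (nm K) U fun v => (tc π x 0 v * tc π' x' t v).re)) := by
    refine h3.congr fun ε => ?_
    unfold sz
    ring
  exact tendsto_nhds_unique h4 (hm.mono_left hU)

/-- the link -/
theorem link_of_order (hx : Law x μ) (hx' : Law x' μ') (hc : Continuous π) (hs : Schur π)
    (hc' : Continuous π') (hs' : Schur π') {t : ℝ} {m : ℤ}
    (hm : Tendsto (sz π x π' x' t) (𝓝[>] 0) (𝓝 (-(m : ℝ)))) (hm0 : m ≠ 0) :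
    |(-(m : ℝ))| = 1 ∧ Same π μ π' μ' ∧ ∀ U : Ultrafilter ℝ, (U : Filter ℝ) ≤ 𝓝[>] 0 →
      (M (nm K) U fun v => ‖df (-(m : ℝ)) (tc π x 0) (tc π' x' t) v‖ ^ 2) = 0 := by
  have h0 : (1 : ℝ) ≤ (-(m : ℝ)) ^ 2 := by
    rw [neg_sq]
    have : 1 ≤ m ^ 2 := by
      have := Int.one_le_abs hm0
      rw [← sq_abs]
      nlinarith
    exact_mod_cast this
  have key : ∀ U : Ultrafilter ℝ, (U : Filter ℝ) ≤ 𝓝[>] 0 → |(-(m : ℝ))| = 1 ∧
      (M (nm K) U fun v => ‖df (-(m : ℝ)) (tc π x 0) (tc π' x' t) v‖ ^ 2) = 0 ∧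
      Same π μ π' μ' := by
    intro U hU
    obtain ⟨r, h1, h2, h3⟩ := pair_lim hx hx' hc hs hc' hs' t hU
    have h4 : r = -(m : ℝ) := tendsto_nhds_unique h1 (hm.mono_left hU)
    subst h4
    exact h3 h0
  obtain ⟨V, hV⟩ := Ultrafilter.exists_le (𝓝[>] (0 : ℝ))
  obtain ⟨k1, -, k3⟩ := key V hV
  exact ⟨k1, k3, fun U hU => (key U hU).2.1⟩

/-- all other orders are zero -/
theorem other_zero (hx : Law x μ) (hx' : Law x' μ') (hc : Continuous π) (hs : Schur π)
    (hc' : Continuous π') (hs' : Schur π') (hc'' : Continuous π'') (hs'' : Schur π'')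
    (hn' : n' ≠ 0) {t : ℝ} {m : ℤ}
    (hm : Tendsto (sz π x π' x' t) (𝓝[>] 0) (𝓝 (-(m : ℝ)))) (hm0 : m ≠ 0) {t' : ℝ} {m' : ℤ}
    (hm' : Tendsto (sz π x π'' x' t') (𝓝[>] 0) (𝓝 (-(m' : ℝ))))
    (hne : t' ≠ t ∨ TH553.ST.chi π'' ≠ TH553.ST.chi π') : m' = 0 := by
  obtain ⟨h1, -, h3⟩ := link_of_order hx hx' hc hs hc' hs' hm hm0
  obtain ⟨U, hU⟩ := Ultrafilter.exists_le (𝓝[>] (0 : ℝ))
  have h4 := h3 U hU
  have h5 := corr_order hm' hU
  set r : ℝ := -(m : ℝ) with hr
  have hN := sysF K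
  have hb1 : Bc (tc π x 0) := bc_tc x 0
  have hb2 : Bc fun v => (r : ℂ) * conj (tc π' x' t v) :=
    (Bc.const (r : ℂ)).mul (bc_tc (π := π') x' t).conj
  have hb3 : Bc (tc π'' x' t') := bc_tc x' t'
  have h6 := M_re_congr hU hb1 hb2 hb3 h4
  rw [h5] at h6
  -- the correlation of the two characters of the second family
  set g : HeightOneSpectrum (𝓞 K) → ℂ := fun v =>
    TH553.ST.chi π'' (x' v) * conj (TH553.ST.chi π' (x' v)) with hg
  have hgb : Bc g := by
    refine ⟨(n'' : ℝ) * n', fun v => ?_⟩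
    rw [hg]
    simp only
    rw [norm_mul, Complex.norm_conj]
    exact mul_le_mul (norm_chi π'' _) (norm_chi π' _) (norm_nonneg _) (Nat.cast_nonneg _)
  have e : (fun v => ((r : ℂ) * conj (tc π' x' t v) * tc π'' x' t' v).re) =
      fun v => r * (g v * ((nm K v : ℕ) : ℂ) ^ (-(((t' - t : ℝ) : ℂ) * I))).re := by
    funext v
    rw [mul_assoc, Complex.re_ofReal_mul]
    congr 2
    unfold tc
    rw [hg]
    simp only
    have hq : ((nm K v : ℕ) : ℂ) ≠ 0 := by
      have := nm_pos v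
      exact_mod_cast this.ne'
    have h7 : conj (((nm K v : ℕ) : ℂ) ^ (-(t * I : ℂ))) = ((nm K v : ℕ) : ℂ) ^ ((t * I : ℂ)) := by
      have h8 : ((nm K v : ℕ) : ℂ).arg ≠ Real.pi := by
        rw [Complex.natCast_arg]
        exact Real.pi_ne_zero.symm
      have h8' := Complex.cpow_conj (((nm K v : ℕ) : ℂ)) (-(t * I : ℂ)) h8
      rw [Complex.conj_natCast] at h8'
      rw [← h8', map_neg, map_mul, Complex.conj_ofReal, Complex.conj_I]
      congr 1
      ring
    have h9 : (-(((t' - t : ℝ) : ℂ) * I)) = (t * I : ℂ) + (-(t' * I : ℂ)) := by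
      push_cast
      ring
    rw [map_mul, h7, h9, Complex.cpow_add _ _ hq]
    ring
  rw [e, M_const_mul hN hU (hgb.mul (bc_q (t' - t))).re] at h6
  have hcg : Continuous fun g : G' => TH553.ST.chi π'' g * conj (TH553.ST.chi π' g) :=
    (cont_chi hc'').mul (Complex.continuous_conj.comp (cont_chi hc'))
  have hlim := law_c hx' hcg (fun g h => by rw [chi_cls, chi_cls])
  have h7 : (M (nm K) U fun v =>
      (g v * ((nm K v : ℕ) : ℂ) ^ (-(((t' - t : ℝ) : ℂ) * I))).re) = 0 := by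
    by_cases hch : TH553.ST.chi π'' = TH553.ST.chi π'
    · have ht : t' - t ≠ 0 := sub_ne_zero.2 (hne.resolve_right (fun h => h hch))
      refine M_height_ne hU hgb (c := 1) ?_ ht
      have h8 : ∫ g, TH553.ST.chi π'' g * conj (TH553.ST.chi π' g) ∂μ' = ((1 : ℝ) : ℂ) := by
        have h9 : (fun g => TH553.ST.chi π'' g * conj (TH553.ST.chi π' g)) =
            fun g => ((‖TH553.ST.chi π' g‖ ^ 2 : ℝ) : ℂ) := by
          funext g
          rw [hch, Complex.mul_conj, Complex.normSq_eq_norm_sq]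
        rw [h9]
        have h10 : ∫ g, ((‖TH553.ST.chi π' g‖ ^ 2 : ℝ) : ℂ) ∂μ' =
            ((∫ g, ‖TH553.ST.chi π' g‖ ^ 2 ∂μ' : ℝ) : ℂ) := integral_ofReal
        rw [h10, int_sq hc' hs' hn']
      rw [h8] at hlim
      exact hlim
    · refine M_height hU hgb ?_ _
      rw [int_mul_conj hc'' hs'' hc' hs' hch] at hlim
      exact hlim
  rw [h7, mul_zero] at h6
  have h8 : (m' : ℝ) = 0 := by linarith
  exact_mod_cast h8

/-- translation of a continuation -/
theorem order_shift {Λ : ℂ → ℂ} {z₀ c : ℂ} {m : ℤ} (h1 : MeromorphicAt Λ (z₀ + c))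
    (h2 : meromorphicOrderAt Λ (z₀ + c) = m) :
    MeromorphicAt (fun z => Λ (z + c)) z₀ ∧ meromorphicOrderAt (fun z => Λ (z + c)) z₀ = m := by
  obtain ⟨g, hg1, hg2, hg3⟩ := (meromorphicOrderAt_eq_int_iff h1).1 h2
  have hadd : AnalyticAt ℂ (fun z : ℂ => z + c) z₀ := analyticAt_id.add analyticAt_const
  have hga : AnalyticAt ℂ (fun z => g (z + c)) z₀ :=
    AnalyticAt.fun_comp (f := fun z : ℂ => z + c) hg1 hadd
  have hmap : Tendsto (fun z : ℂ => z + c) (𝓝[≠] z₀) (𝓝[≠] (z₀ + c)) := by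
    rw [tendsto_nhdsWithin_iff]
    refine ⟨(hadd.continuousAt.tendsto).mono_left nhdsWithin_le_nhds, ?_⟩
    filter_upwards [self_mem_nhdsWithin] with z hz h
    exact hz (add_right_cancel h)
  have hev : ∀ᶠ z in 𝓝[≠] z₀, Λ (z + c) = (z - z₀) ^ m • g (z + c) := by
    filter_upwards [hmap.eventually hg3] with z hz
    rw [hz]
    congr 2
    ring
  have hmer : MeromorphicAt (fun z => Λ (z + c)) z₀ := by
    have h31 : MeromorphicAt (fun z : ℂ => z - z₀) z₀ :=
      (analyticAt_id.sub analyticAt_const).meromorphicAt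
    have h32 : MeromorphicAt (fun z : ℂ => (z - z₀) ^ m) z₀ := h31.fun_zpow m
    have h3 : MeromorphicAt (fun z => (z - z₀) ^ m • g (z + c)) z₀ := by
      simp only [smul_eq_mul]
      exact h32.fun_mul hga.meromorphicAt
    exact h3.congr (hev.mono fun z hz => hz.symm)
  exact ⟨hmer, (meromorphicOrderAt_eq_int_iff hmer).2 ⟨_, hga, hg2, hev⟩⟩

/-- the natural mean value of the correlation -/
theorem corr_nat {t : ℝ} {m : ℤ}
    (hc : ∀ τ : ℝ, ∃ Λ : ℂ → ℂ, MeromorphicAt Λ (1 + τ * I) ∧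
      (∀ᶠ s in 𝓝 ((1 : ℂ) + τ * I), 1 < s.re → Λ s = LP π x π' x' s) ∧
      meromorphicOrderAt Λ (1 + τ * I) = ((if τ = t then m else 0 : ℤ) : WithTop ℤ)) :
    Tendsto (mn fun v => TH553.ST.chi π (x v) * tc π' x' t v) atTop (𝓝 (-((m : ℝ) : ℂ))) := by
  obtain ⟨α, h1, h2, h3⟩ := exists_al π x π' x'
  set β : HeightOneSpectrum (𝓞 K) → Fin (Fintype.card (Fin n × Fin n')) → ℂ := fun v j =>
    α v j * ((nm K v : ℕ) : ℂ) ^ (-(t * I : ℂ)) with hβ
  have hβ1 : ∀ v j, ‖β v j‖ = 1 := by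
    intro v j
    rw [hβ]
    simp only
    rw [norm_mul, h1, norm_cpow_I (nm_pos v), one_mul]
  have h4 := taub_order hβ1 (L := fun s => LP π x π' x' (s + t * I)) (m := m) (fun s _ => by
    unfold LP
    refine tprod_congr fun v => ?_
    rw [h3]
    congr 1
    refine Finset.prod_congr rfl fun j _ => ?_
    have hq : ((nm K v : ℕ) : ℂ) ≠ 0 := by
      have := nm_pos v
      exact_mod_cast this.ne'
    rw [hβ]
    simp only
    rw [mul_assoc, ← Complex.cpow_add _ _ hq]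
    congr 3
    ring) (fun τ => by
    obtain ⟨Λ, h5, h6, h7⟩ := hc (τ + t)
    have e1 : (1 : ℂ) + ((τ + t : ℝ) : ℂ) * I = (1 + τ * I) + t * I := by
      push_cast
      ring
    rw [e1] at h5 h6 h7
    obtain ⟨h8, h9⟩ := order_shift h5 h7
    refine ⟨fun z => Λ (z + t * I), h8, ?_, ?_⟩
    · have h10 : Tendsto (fun z : ℂ => z + t * I) (𝓝 (1 + τ * I)) (𝓝 ((1 + τ * I) + t * I)) :=
        (continuous_id.add continuous_const).tendsto _
      filter_upwards [h10.eventually h6] with z hz hre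
      exact hz (by simpa using hre)
    · rw [h9]
      by_cases hτ : τ = 0
      · rw [if_pos hτ, if_pos (by rw [hτ, zero_add])]
      · rw [if_neg hτ, if_neg (fun h => hτ (by linarith))])
  refine h4.congr fun N => ?_
  congr 1
  funext v
  rw [hβ]
  simp only
  rw [← Finset.sum_mul, h2]
  unfold tc
  ring

/-- the natural mean square -/
theorem sq_nat (hx : Law x μ) (hx' : Law x' μ') (hc : Continuous π) (hs : Schur π)
    (hc' : Continuous π') (hs' : Schur π') (hn : n ≠ 0) (hn' : n' ≠ 0) {t r : ℝ} (hr : |r| = 1)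
    (h : Tendsto (mn fun v => TH553.ST.chi π (x v) * tc π' x' t v) atTop (𝓝 (r : ℂ))) :
    Tendsto (mn fun v => ‖df r (tc π x 0) (tc π' x' t) v‖ ^ 2) atTop (𝓝 0) := by
  have h1 := hx (fun g => ‖TH553.ST.chi π g‖ ^ 2) ((cont_chi hc).norm.pow 2)
    (fun g h => by rw [chi_cls])
  have h2 := hx' (fun g => ‖TH553.ST.chi π' g‖ ^ 2) ((cont_chi hc').norm.pow 2)
    (fun g h => by rw [chi_cls])
  rw [int_sq hc hs hn] at h1
  rw [int_sq hc' hs' hn'] at h2
  have h3 := (Complex.continuous_re.tendsto _).comp h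
  rw [Complex.ofReal_re] at h3
  have hr2 : r ^ 2 = 1 := by rw [← sq_abs, hr, one_pow]
  have h4 := (h1.add (h3.const_mul (-2 * r))).add (h2.const_mul (r ^ 2))
  have e : (1 : ℝ) + -2 * r * r + r ^ 2 * 1 = 0 := by
    have : -2 * r * r = -2 * r ^ 2 := by ring
    rw [this, hr2]
    norm_num
  rw [e] at h4
  refine h4.congr fun N => ?_
  simp only [Function.comp]
  rw [re_mn]
  unfold mn
  simp only [smul_eq_mul]
  have key : ∀ c A B C : ℝ, c * A + -2 * r * (c * B) + r ^ 2 * (c * C) =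
      c * (A + -2 * r * B + r ^ 2 * C) := fun c A B C => by ring
  rw [key]
  congr 1
  rw [Finset.mul_sum, Finset.mul_sum, ← Finset.sum_add_distrib, ← Finset.sum_add_distrib]
  refine Finset.sum_congr rfl fun v _ => ?_
  rw [norm_df_sq, norm_tc, norm_tc, tc_zero]

end

/-- from mean squares to natural densities -/
theorem dens_nat {K : Type} [Field K] [NumberField K] {D : HeightOneSpectrum (𝓞 K) → ℂ}
    (h : Tendsto (mn fun v => ‖D v‖ ^ 2) atTop (𝓝 0)) {δ : ℝ} (hδ : 0 < δ) :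
    Tendsto (mn ({v | δ < ‖D v‖}.indicator fun _ => (1 : ℂ))) atTop (𝓝 0) := by
  have h1 := h.const_mul ((δ ^ 2)⁻¹)
  rw [mul_zero] at h1
  refine squeeze_zero_norm (fun N => ?_) h1
  unfold mn
  rw [norm_smul, norm_inv, Real.norm_natCast, smul_eq_mul, ← mul_assoc, mul_comm ((δ ^ 2)⁻¹) _,
    mul_assoc]
  refine mul_le_mul_of_nonneg_left ?_ (by positivity)
  rw [Finset.mul_sum]
  refine (norm_sum_le _ _).trans (Finset.sum_le_sum fun v _ => ?_)
  by_cases hv : v ∈ {v | δ < ‖D v‖}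
  · rw [Set.indicator_of_mem hv, norm_one, ← div_eq_inv_mul, one_le_div (by positivity)]
    have h4 : δ < ‖D v‖ := hv
    exact pow_le_pow_left₀ hδ.le h4.le 2
  · rw [Set.indicator_of_notMem hv, norm_zero]
    positivity

end Pool.Agent.R370.ST
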