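import Pool.Agent.R370.ST.Two
import Pool.Agent.TH553.ST.PW2
import Pool.Agent.TH553.ST.Ext

set_option autoImplicit false
set_option linter.unusedSectionVars false

/-!
# Tensor products of two representations and their constituents
-/

namespace Pool.Agent.R370.ST

open Complex Filter Topology ComplexConjugate NumberField IsDedekindDomain MeasureTheory
  Pool.Agent.W540.BE Pool.Agent.TH553.RS Pool.Agent.TH553.ST
  Pool.Agent.H341R2
open scoped Kronecker Matrix

section

variable {G : Type} [Group G] [TopologicalSpace G] [IsTopologicalGroup G] [CompactSpace G]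
  [MeasurableSpace G] [BorelSpace G] {μ : Measure G} [IsProbabilityMeasure μ] [μ.IsHaarMeasure]
  {n : ℕ} {π : G →* Matrix.unitaryGroup (Fin n) ℂ}

/-- the dimension of the space of invariants is not negative -/
theorem int_chi_nonneg (hc : Continuous π) : 0 ≤ (∫ g, TH553.ST.chi π g ∂μ).re := by
  set P := mi μ (fun g => (π g : Matrix (Fin n) (Fin n) ℂ)) with hP
  have h0 : ∀ g : G, (π g : Matrix (Fin n) (Fin n) ℂ) * P = P := by
    intro g
    rw [hP, ← mi_mul (cont_mat hc)]
    have e : (fun h => (π g : Matrix (Fin n) (Fin n) ℂ) * (π h : Matrix (Fin n) (Fin n) ℂ)) =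
        fun h => (π (g * h) : Matrix (Fin n) (Fin n) ℂ) := by
      funext h
      rw [pi_mul]
    rw [e]
    exact mi_left (fun h => (π h : Matrix (Fin n) (Fin n) ℂ)) g
  have h1 : P * P = P := by
    have h2 : mi μ (fun g => (π g : Matrix (Fin n) (Fin n) ℂ) * P) = P * P :=
      mi_mul' (cont_mat hc) P
    rw [← h2]
    simp only [h0]
    ext k l
    rw [mi_apply]
    simp
  have h2 : Pᴴ = P := by
    ext k l
    rw [Matrix.conjTranspose_apply, hP, mi_apply, mi_apply]
    have h3 : star (∫ g, (π g : Matrix (Fin n) (Fin n) ℂ) l k ∂μ) =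
        ∫ g, conj ((π g : Matrix (Fin n) (Fin n) ℂ) l k) ∂μ := (integral_conj).symm
    rw [h3]
    have h4 : ∀ g : G, conj ((π g : Matrix (Fin n) (Fin n) ℂ) l k) =
        (π g⁻¹ : Matrix (Fin n) (Fin n) ℂ) k l := by
      intro g
      rw [pi_invG]
      rfl
    simp only [h4]
    exact int_inv (μ := μ) (f := fun g => (π g : Matrix (Fin n) (Fin n) ℂ) k l)
      ((cont_mat hc).matrix_elem k l)
  have h3 : (P * Pᴴ).trace = ∫ g, TH553.ST.chi π g ∂μ := by
    rw [h2, h1, hP, mi_trace (cont_mat hc)]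
    rfl
  rw [← h3]
  unfold Matrix.trace
  rw [Complex.re_sum]
  refine Finset.sum_nonneg fun i _ => ?_
  rw [Matrix.diag_apply, Matrix.mul_apply, Complex.re_sum]
  refine Finset.sum_nonneg fun j _ => ?_
  rw [Matrix.conjTranspose_apply]
  have h4 : P i j * star (P i j) = (Complex.normSq (P i j) : ℂ) := Complex.mul_conj _
  rw [h4, Complex.ofReal_re]
  exact Complex.normSq_nonneg _

variable {n1 n2 m : ℕ} {π1 : G →* Matrix.unitaryGroup (Fin n1) ℂ}
  {π2 : G →* Matrix.unitaryGroup (Fin n2) ℂ} {σ : G →* Matrix.unitaryGroup (Fin m) ℂ}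

theorem cont_tp {ι ι' : Type} [Fintype ι] [DecidableEq ι] [Fintype ι'] [DecidableEq ι']
    {ρ : G →* Matrix.unitaryGroup ι ℂ} {ρ' : G →* Matrix.unitaryGroup ι' ℂ} (h : Continuous ρ)
    (h' : Continuous ρ') : Continuous (tp ρ ρ') := by
  refine Continuous.subtype_mk ?_ _
  refine continuous_matrix fun i j => ?_
  exact ((continuous_subtype_val.comp h).matrix_elem i.1 j.1).mul
    ((continuous_subtype_val.comp h').matrix_elem i.2 j.2)

/-- the multiplicity is not negative -/
theorem mult_nonneg (h1 : Continuous π1) (h2 : Continuous π2) (h3 : Continuous σ) :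
    0 ≤ (∫ g, TH553.ST.chi π1 g * TH553.ST.chi π2 g * conj (TH553.ST.chi σ g) ∂μ).re := by
  have h4 := int_chi_nonneg (μ := μ) (cont_ri
    (Fintype.equivFin ((Fin n1 × Fin n2) × Fin m)) (cont_tp (cont_tp h1 h2) (cont_cj h3)))
  have e : ∀ g, TH553.ST.chi (ri (Fintype.equivFin ((Fin n1 × Fin n2) × Fin m))
      (tp (tp π1 π2) (cj σ))) g =
      TH553.ST.chi π1 g * TH553.ST.chi π2 g * conj (TH553.ST.chi σ g) := by
    intro g
    rw [chi_ri, ← chi_cj]
    change (((π1 g : Matrix (Fin n1) (Fin n1) ℂ) ⊗ₖ (π2 g : Matrix (Fin n2) (Fin n2) ℂ)) ⊗ₖ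
      (cj σ g : Matrix (Fin m) (Fin m) ℂ)).trace = _
    rw [Matrix.trace_kronecker, Matrix.trace_kronecker]
    rfl
  simp only [e] at h4
  exact h4

theorem her_mult (h1 : Continuous π1) (h2 : Continuous π2) (h3 : Continuous σ) :
    Her fun g => TH553.ST.chi π1 g * TH553.ST.chi π2 g * conj (TH553.ST.chi σ g) :=
  ((her_chi h1).mul (her_chi h2)).mul (her_chi h3).conj

/-- the multiplicity is real -/
theorem mult_real (h1 : Continuous π1) (h2 : Continuous π2) (h3 : Continuous σ) :
    ∫ g, TH553.ST.chi π1 g * TH553.ST.chi π2 g * conj (TH553.ST.chi σ g) ∂μ =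
      (((∫ g, TH553.ST.chi π1 g * TH553.ST.chi π2 g * conj (TH553.ST.chi σ g) ∂μ).re : ℝ) : ℂ) :=
  her_real (her_mult h1 h2 h3)

/-- **The decomposition of a tensor product with nonnegative coefficients.** -/
theorem dec_tensor (h1 : Continuous π1) (h2 : Continuous π2) :
    ∃ (J : Type) (_ : Fintype J) (k : J → ℕ) (ρ : ∀ j, G →* Matrix.unitaryGroup (Fin (k j)) ℂ)
      (b : J → ℝ), (∀ j, Continuous (ρ j) ∧ Schur (ρ j)) ∧ (∀ j, k j ≠ 0) ∧ (∀ j, 0 ≤ b j) ∧
      ∀ g, TH553.ST.chi π1 g * TH553.ST.chi π2 g = ∑ j, (b j : ℂ) * TH553.ST.chi (ρ j) g := by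
  classical
  let _ : MeasurableSpace G := borel G
  have _ : BorelSpace G := ⟨rfl⟩
  set ν : Measure G := Measure.haarMeasure ⊤ with hν
  have hν1 : IsProbabilityMeasure ν := ⟨by
    rw [hν]
    exact Measure.haarMeasure_self⟩
  have h3 := dec_of_comm (Fintype.card (Fin n1 × Fin n2) + 1) (Fin n1 × Fin n2)
    (Nat.lt_succ_self _) (tp π1 π2) (cont_tp h1 h2) 1 (fun g => by rw [Matrix.one_mul, Matrix.mul_one])
  obtain ⟨J, _, k, ρ, a, h4, h5⟩ := h3
  have h6 : ∀ g, TH553.ST.chi π1 g * TH553.ST.chi π2 g = ∑ j, a j * TH553.ST.chi (ρ j) g := by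
    intro g
    rw [← h5]
    simp only [Matrix.one_mul]
    exact (Matrix.trace_kronecker _ _).symm
  -- the number of indices with the same character
  set N : J → ℝ := fun j => ((Finset.univ.filter fun i => TH553.ST.chi (ρ i) = TH553.ST.chi (ρ j)).card : ℝ) with hN
  have hNpos : ∀ j, 0 < N j := by
    intro j
    rw [hN]
    simp only
    exact_mod_cast Finset.card_pos.2 ⟨j, by simp⟩
  set c : J → ℂ := fun j => ∑ i, if TH553.ST.chi (ρ i) = TH553.ST.chi (ρ j) then a i else 0 with hc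
  have hmult : ∀ j, k j ≠ 0 → ∫ g, TH553.ST.chi π1 g * TH553.ST.chi π2 g *
      conj (TH553.ST.chi (ρ j) g) ∂ν = c j := by
    intro j hj
    have e : ∀ g, TH553.ST.chi π1 g * TH553.ST.chi π2 g * conj (TH553.ST.chi (ρ j) g) =
        ∑ i, a i * (TH553.ST.chi (ρ i) g * conj (TH553.ST.chi (ρ j) g)) := by
      intro g
      rw [h6, Finset.sum_mul]
      exact Finset.sum_congr rfl fun i _ => by ring
    simp only [e]
    have hcc : ∀ i, Continuous fun g => TH553.ST.chi (ρ i) g * conj (TH553.ST.chi (ρ j) g) :=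
      fun i => (cont_chi (h4 i).1).mul (Complex.continuous_conj.comp (cont_chi (h4 j).1))
    rw [integral_finsetSum _ fun i _ => (intg (hcc i)).const_mul _]
    rw [hc]
    refine Finset.sum_congr rfl fun i _ => ?_
    rw [integral_const_mul]
    split_ifs with hij
    · have h7 : ∫ g, TH553.ST.chi (ρ i) g * conj (TH553.ST.chi (ρ j) g) ∂ν = 1 := by
        have h9 : (fun g => TH553.ST.chi (ρ i) g * conj (TH553.ST.chi (ρ j) g)) =
            fun g => ((‖TH553.ST.chi (ρ j) g‖ ^ 2 : ℝ) : ℂ) := by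
          funext g
          rw [hij, Complex.mul_conj, Complex.normSq_eq_norm_sq]
        rw [h9]
        have h10 : ∫ g, ((‖TH553.ST.chi (ρ j) g‖ ^ 2 : ℝ) : ℂ) ∂ν =
            ((∫ g, ‖TH553.ST.chi (ρ j) g‖ ^ 2 ∂ν : ℝ) : ℂ) := integral_ofReal
        rw [h10, int_sq (h4 j).1 (h4 j).2 hj]
        simp
      rw [h7, mul_one]
    · rw [int_mul_conj (h4 i).1 (h4 i).2 (h4 j).1 (h4 j).2 hij, mul_zero]
  have hcr : ∀ j, k j ≠ 0 → c j = ((c j).re : ℂ) := by
    intro j hj
    have := mult_real (μ := ν) h1 h2 (h4 j).1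
    rwa [hmult j hj] at this
  have hcn : ∀ j, k j ≠ 0 → 0 ≤ (c j).re := by
    intro j hj
    have := mult_nonneg (μ := ν) h1 h2 (h4 j).1
    rwa [hmult j hj] at this
  have hz : ∀ j, k j = 0 → ∀ g, TH553.ST.chi (ρ j) g = 0 := by
    intro j hj g
    have h8 := norm_chi (ρ j) g
    have h9 : ((k j : ℕ) : ℝ) = 0 := by exact_mod_cast hj
    rw [h9] at h8
    exact norm_le_zero_iff.1 h8
  refine ⟨{j : J // k j ≠ 0}, inferInstance, fun j => k j.1, fun j => ρ j.1,
    fun j => (c j.1).re / N j.1, fun j => h4 j.1, fun j => j.2, fun j => ?_, fun g => ?_⟩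
  · exact div_nonneg (hcn j.1 j.2) (hNpos j.1).le
  · have e1 : ∑ j : {j : J // k j ≠ 0}, (((c j.1).re / N j.1 : ℝ) : ℂ) * TH553.ST.chi (ρ j.1) g =
        ∑ j, (c j / (N j : ℂ)) * TH553.ST.chi (ρ j) g := by
      have e2 : ∑ j : {j : J // k j ≠ 0}, (((c j.1).re / N j.1 : ℝ) : ℂ) *
          TH553.ST.chi (ρ j.1) g = ∑ j ∈ Finset.univ.filter fun j => k j ≠ 0,
          (((c j).re / N j : ℝ) : ℂ) * TH553.ST.chi (ρ j) g :=
        (Finset.sum_subtype (Finset.univ.filter fun j => k j ≠ 0)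
        (p := fun j => k j ≠ 0) (fun j => by simp)
        (fun j => (((c j).re / N j : ℝ) : ℂ) * TH553.ST.chi (ρ j) g)).symm
      refine e2.trans ?_
      rw [Finset.sum_filter]
      refine Finset.sum_congr rfl fun j _ => ?_
      split_ifs with hj
      · rw [Complex.ofReal_div, ← hcr j hj]
      · rw [hz j (not_not.1 hj), mul_zero]
    refine Eq.trans ?_ e1.symm
    rw [h6]
    have e3 : ∀ j, (c j / (N j : ℂ)) * TH553.ST.chi (ρ j) g =
        ∑ i, if TH553.ST.chi (ρ i) = TH553.ST.chi (ρ j) then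
          a i * TH553.ST.chi (ρ i) g / (N i : ℂ) else 0 := by
      intro j
      rw [hc]
      simp only
      rw [div_mul_eq_mul_div, Finset.sum_mul, Finset.sum_div]
      refine Finset.sum_congr rfl fun i _ => ?_
      split_ifs with hij
      · have e4 : N i = N j := by
          rw [hN]
          simp only [hij]
        rw [e4, hij]
      · rw [zero_mul, zero_div]
    simp only [e3]
    rw [Finset.sum_comm]
    refine Finset.sum_congr rfl fun i _ => ?_
    rw [← Finset.sum_filter, Finset.sum_const, nsmul_eq_mul]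
    have e5 : (((Finset.univ.filter fun j => TH553.ST.chi (ρ i) = TH553.ST.chi (ρ j)).card : ℕ) : ℂ) =
        (N i : ℂ) := by
      rw [hN]
      simp only
      norm_cast
      congr 1
      ext j
      simp only [Finset.mem_filter, Finset.mem_univ, true_and]
      exact eq_comm
    rw [e5]
    have e6 : (N i : ℂ) ≠ 0 := by exact_mod_cast (hNpos i).ne'
    field_simp

end

end Pool.Agent.R370.ST
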