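import Pool.Agent.R370.ST.Two2

set_option autoImplicit false
set_option linter.unusedSectionVars false

/-!
# Two equidistributed families: the structure of the links
-/

namespace Pool.Agent.R370.ST

open Complex Filter Topology ComplexConjugate NumberField IsDedekindDomain MeasureTheory
  Pool.Agent.W540.BE Pool.Agent.TH553.RS Pool.Agent.TH553.ST
  Pool.Agent.H341R2
open scoped Kronecker Matrix

section

variable {K : Type} [Field K] [NumberField K]

/-- from natural densities to mean squares -/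
theorem M_of_dens {D : HeightOneSpectrum (𝓞 K) → ℂ} (hD : Bc D)
    (h : ∀ δ : ℝ, 0 < δ → Tendsto (mn ({v | δ < ‖D v‖}.indicator fun _ => (1 : ℂ))) atTop (𝓝 0))
    {U : Ultrafilter ℝ} (hU : (U : Filter ℝ) ≤ 𝓝[>] 0) : (M (nm K) U fun v => ‖D v‖ ^ 2) = 0 := by
  have hN := sysF K
  obtain ⟨B, hB⟩ := hD
  have hD : Bc D := ⟨B, hB⟩
  have hB0 : 0 ≤ B ^ 2 := sq_nonneg B
  have h0 := M_nonneg hN hU hD.norm.sq (fun v => by positivity)
  refine le_antisymm (le_of_forall_pos_le_add fun η hη => ?_) h0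
  set δ := Real.sqrt η with hδ
  have hδ0 : 0 < δ := Real.sqrt_pos.2 hη
  set s : Set (HeightOneSpectrum (𝓞 K)) := {v | δ < ‖D v‖} with hs
  have hib : Bd (s.indicator fun _ => (1 : ℝ)) := by
    refine ⟨1, fun v => ?_⟩
    by_cases hv : v ∈ s
    · rw [Set.indicator_of_mem hv, abs_one]
    · rw [Set.indicator_of_notMem hv, abs_zero]
      norm_num
  have h1 : M (nm K) U (s.indicator fun _ => (1 : ℝ)) = 0 := by
    refine M_of_mn hU hib ?_
    have h2 := (Complex.continuous_re.tendsto _).comp (h δ hδ0)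
    rw [Complex.zero_re] at h2
    refine h2.congr fun N => ?_
    simp only [Function.comp]
    rw [re_mn]
    congr 1
    funext v
    by_cases hv : v ∈ s
    · rw [Set.indicator_of_mem hv, Set.indicator_of_mem hv, Complex.one_re]
    · rw [Set.indicator_of_notMem hv, Set.indicator_of_notMem hv, Complex.zero_re]
  have h2 : (M (nm K) U fun v => η + B ^ 2 * (s.indicator (fun _ => (1 : ℝ)) v)) = 0 + η := by
    rw [M_add hN hU ⟨|η|, fun _ => le_rfl⟩ (hib.const_mul (B ^ 2)), M_const hN hU,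
      M_const_mul hN hU hib, h1]
    ring
  rw [← h2]
  refine M_mono hN hU hD.norm.sq (Bd.add ⟨|η|, fun _ => le_rfl⟩ (hib.const_mul (B ^ 2))) fun v => ?_
  by_cases hv : v ∈ s
  · rw [Set.indicator_of_mem hv, mul_one]
    have h3 : ‖D v‖ ^ 2 ≤ B ^ 2 := pow_le_pow_left₀ (norm_nonneg _) (hB v) 2
    linarith
  · rw [Set.indicator_of_notMem hv, mul_zero, add_zero]
    have h3 : ‖D v‖ ≤ δ := not_lt.1 hv
    have h4 : ‖D v‖ ^ 2 ≤ δ ^ 2 := pow_le_pow_left₀ (norm_nonneg _) h3 2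
    rwa [hδ, Real.sq_sqrt hη.le] at h4

theorem mn_const1 : Tendsto (mn (K := K) fun _ => (1 : ℂ)) atTop (𝓝 1) := by
  have h8 : Tendsto (fun N : ℕ => ((1 : ℂ))) atTop (𝓝 (1 : ℂ)) := tendsto_const_nhds
  refine h8.congr' ?_
  filter_upwards [card_ev (K := K)] with N hN
  unfold mn
  rw [Finset.sum_const, Complex.real_smul, nsmul_eq_mul]
  push_cast
  have hN' : ((upto K N).card : ℂ) ≠ 0 := by exact_mod_cast hN
  field_simp

end

section

variable {K : Type} [Field K] [NumberField K]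
variable {G : Type} [Group G] [TopologicalSpace G] [IsTopologicalGroup G] [CompactSpace G]
  [MeasurableSpace G] [BorelSpace G] {μ : Measure G} [IsProbabilityMeasure μ] [μ.IsHaarMeasure]
  {n : ℕ} {π : G →* Matrix.unitaryGroup (Fin n) ℂ}
variable {G' : Type} [Group G'] [TopologicalSpace G'] [IsTopologicalGroup G'] [CompactSpace G']
  [MeasurableSpace G'] [BorelSpace G'] {μ' : Measure G'} [IsProbabilityMeasure μ']
  [μ'.IsHaarMeasure] {n' : ℕ} {π' : G' →* Matrix.unitaryGroup (Fin n') ℂ}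
  {x : HeightOneSpectrum (𝓞 K) → G} {x' : HeightOneSpectrum (𝓞 K) → G'}

/-- a local continuation of the Euler product -/
def Cont (π : G →* Matrix.unitaryGroup (Fin n) ℂ) (x : HeightOneSpectrum (𝓞 K) → G)
    (π' : G' →* Matrix.unitaryGroup (Fin n') ℂ) (x' : HeightOneSpectrum (𝓞 K) → G') : Prop :=
  ∀ τ : ℝ, ∃ Λ : ℂ → ℂ, MeromorphicAt Λ (1 + τ * I) ∧
    ∀ᶠ s in 𝓝 ((1 : ℂ) + τ * I), (1 : ℝ) < s.re → Λ s = LP π x π' x' s

/-- the link in natural density -/
theorem nat_link (hx : Law x μ) (hx' : Law x' μ') (hc : Continuous π) (hs : Schur π)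
    (hc' : Continuous π') (hs' : Schur π') (hn : n ≠ 0) (hn' : n' ≠ 0)
    (hcont : Cont π x π' x') {t : ℝ} {m : ℤ}
    (hm : Tendsto (sz π x π' x' t) (𝓝[>] 0) (𝓝 (-(m : ℝ)))) (hm0 : m ≠ 0) :
    Tendsto (mn fun v => ‖df (-(m : ℝ)) (tc π x 0) (tc π' x' t) v‖ ^ 2) atTop (𝓝 0) := by
  have h1 := link_of_order hx hx' hc hs hc' hs' hm hm0
  refine sq_nat hx hx' hc hs hc' hs' hn hn' h1.1 ?_
  have h2 := corr_nat (π := π) (x := x) (π' := π') (x' := x') (t := t) (m := m) (fun τ => by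
    obtain ⟨Λ, h3, h4⟩ := hcont τ
    obtain ⟨m', h5, h6⟩ := order_LP h3 h4
    refine ⟨Λ, h3, h4, ?_⟩
    rw [h5]
    congr 1
    split_ifs with hτ
    · subst hτ
      have h7 := tendsto_nhds_unique hm h6
      have h8 : (m : ℝ) = m' := by linarith
      exact (by exact_mod_cast h8.symm : m' = m)
    · exact other_zero hx hx' hc hs hc' hs' hc' hs' hn' hm hm0 h6 (Or.inl hτ))
  rw [← Complex.ofReal_neg] at h2
  exact h2

theorem dim_one_of_triv (ν : Measure G) [IsProbabilityMeasure ν] [ν.IsHaarMeasure]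
    (hc : Continuous π) (hs : Schur π) (hn : n ≠ 0) (h : ∀ g, π g = 1)
    (g : G) : TH553.ST.chi π g = 1 := by
  have h1 := int_sq (μ := ν) hc hs hn
  simp only [chi_triv h, Complex.norm_natCast] at h1
  have h2 : ((n : ℝ)) ^ 2 = 1 := by simpa using h1
  have h3 : (n : ℝ) = 1 := by
    have h4 : (0 : ℝ) ≤ n := Nat.cast_nonneg _
    nlinarith
  rw [chi_triv h]
  exact_mod_cast h3

/-- **All correlations.** -/
theorem corr_cases (hx : Law x μ) (hx' : Law x' μ') (hc : Continuous π) (hs : Schur π)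
    (hc' : Continuous π') (hs' : Schur π') (hn : n ≠ 0) (hn' : n' ≠ 0)
    (hcont : (∃ g, π g ≠ 1) → (∃ g, π' g ≠ 1) → Cont π x π' x') (t : ℝ) :
    ∃ r : ℝ, (∀ U : Ultrafilter ℝ, (U : Filter ℝ) ≤ 𝓝[>] 0 →
      (M (nm K) U fun v => (tc π x 0 v * tc π' x' t v).re) = r) ∧
      (r ≠ 0 → |r| = 1 ∧
        Tendsto (mn fun v => ‖df r (tc π x 0) (tc π' x' t) v‖ ^ 2) atTop (𝓝 0)) := by
  by_cases h1 : ∃ g, π g ≠ 1
  · by_cases h2 : ∃ g, π' g ≠ 1
    · obtain ⟨Λ, h3, h4⟩ := hcont h1 h2 t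
      obtain ⟨m, h5, h6⟩ := order_LP h3 h4
      refine ⟨-(m : ℝ), fun U hU => corr_order h6 hU, fun hr => ?_⟩
      have hm0 : m ≠ 0 := by
        rintro rfl
        simp at hr
      exact ⟨(link_of_order hx hx' hc hs hc' hs' h6 hm0).1,
        nat_link hx hx' hc hs hc' hs' hn hn' (hcont h1 h2) h6 hm0⟩
    · push Not at h2
      refine ⟨0, fun U hU => ?_, fun h => absurd rfl h⟩
      have h3 := law_c hx (cont_chi hc) (fun g h => chi_cls π g h)
      rw [int_chi hc hs h1] at h3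
      have hb : Bc fun v => TH553.ST.chi π (x v) := ⟨n, fun v => norm_chi π _⟩
      have h4 := M_height hU hb h3 t
      refine Eq.trans ?_ h4
      congr 1
      funext v
      rw [tc_zero]
      unfold tc
      rw [dim_one_of_triv μ' hc' hs' hn' h2, one_mul]
  · push Not at h1
    by_cases h2 : ∃ g, π' g ≠ 1
    · refine ⟨0, fun U hU => ?_, fun h => absurd rfl h⟩
      have h3 := law_c hx' (cont_chi hc') (fun g h => chi_cls π' g h)
      rw [int_chi hc' hs' h2] at h3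
      have hb : Bc fun v => TH553.ST.chi π' (x' v) := ⟨n', fun v => norm_chi π' _⟩
      have h4 := M_height hU hb h3 t
      refine Eq.trans ?_ h4
      congr 1
      funext v
      rw [tc_zero]
      unfold tc
      rw [dim_one_of_triv μ hc hs hn h1, one_mul]
    · push Not at h2
      have e : ∀ v, tc π x 0 v * tc π' x' t v = ((nm K v : ℕ) : ℂ) ^ (-(t * I : ℂ)) := by
        intro v
        rw [tc_zero]
        unfold tc
        rw [dim_one_of_triv μ hc hs hn h1, dim_one_of_triv μ' hc' hs' hn' h2,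
          one_mul, one_mul]
      by_cases ht : t = 0
      · subst ht
        refine ⟨1, fun U hU => ?_, fun _ => ⟨abs_one, ?_⟩⟩
        · simp only [e, Complex.ofReal_zero, zero_mul, neg_zero, Complex.cpow_zero, Complex.one_re]
          exact M_one (sysF K) hU
        · have e2 : (fun v => ‖df 1 (tc π x 0) (tc π' x' 0) v‖ ^ 2) = fun _ => (0 : ℝ) := by
            funext v
            unfold df
            rw [tc_zero, tc_zero, dim_one_of_triv μ hc hs hn h1,
              dim_one_of_triv μ' hc' hs' hn' h2]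
            simp
          rw [e2]
          have e3 : (mn (K := K) fun _ => (0 : ℝ)) = fun _ => 0 := by
            funext N
            unfold mn
            simp
          rw [e3]
          exact tendsto_const_nhds
      · refine ⟨0, fun U hU => ?_, fun h => absurd rfl h⟩
        have h4 := M_height_ne hU (g := fun _ => (1 : ℂ)) (Bc.const 1) (c := 1) (by
          simpa using mn_const1 (K := K)) ht
        refine Eq.trans ?_ h4
        congr 1
        funext v
        rw [e, one_mul]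

/-- **Closure under tensor products.** -/
theorem link_mul {n1 n2 m1 m2 k : ℕ} {π1 : G →* Matrix.unitaryGroup (Fin n1) ℂ}
    {π2 : G →* Matrix.unitaryGroup (Fin n2) ℂ} {σ : G →* Matrix.unitaryGroup (Fin k) ℂ}
    {ρ1 : G' →* Matrix.unitaryGroup (Fin m1) ℂ} {ρ2 : G' →* Matrix.unitaryGroup (Fin m2) ℂ}
    (hx : Law x μ) (hx' : Law x' μ') (h1 : Continuous π1) (h2 : Continuous π2)
    (h3 : Continuous σ) (hs : Schur σ) (hk : k ≠ 0) (h4 : Continuous ρ1) (h5 : Continuous ρ2)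
    (hcont : (∃ g, σ g ≠ 1) → ∀ (k' : ℕ) (σ' : G' →* Matrix.unitaryGroup (Fin k') ℂ),
      Continuous σ' → Schur σ' → (∃ g, σ' g ≠ 1) → Cont σ x σ' x')
    {t1 t2 r1 r2 : ℝ} (hr1 : |r1| = 1) (hr2 : |r2| = 1)
    (hl1 : ∀ U : Ultrafilter ℝ, (U : Filter ℝ) ≤ 𝓝[>] 0 →
      (M (nm K) U fun v => ‖df r1 (tc π1 x 0) (tc ρ1 x' t1) v‖ ^ 2) = 0)
    (hl2 : ∀ U : Ultrafilter ℝ, (U : Filter ℝ) ≤ 𝓝[>] 0 →
      (M (nm K) U fun v => ‖df r2 (tc π2 x 0) (tc ρ2 x' t2) v‖ ^ 2) = 0)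
    (hne : ∫ g, TH553.ST.chi π1 g * TH553.ST.chi π2 g * conj (TH553.ST.chi σ g) ∂μ ≠ 0) :
    ∃ (k' : ℕ) (σ' : G' →* Matrix.unitaryGroup (Fin k') ℂ), Continuous σ' ∧ Schur σ' ∧ k' ≠ 0 ∧
      Tendsto (mn fun v => ‖df (r1 * r2) (tc σ x 0) (tc σ' x' (t1 + t2)) v‖ ^ 2) atTop (𝓝 0) := by
  have hN := sysF K
  obtain ⟨U, hU⟩ := Ultrafilter.exists_le (𝓝[>] (0 : ℝ))
  -- the multiplicity
  set a : ℝ := (∫ g, TH553.ST.chi π1 g * TH553.ST.chi π2 g * conj (TH553.ST.chi σ g) ∂μ).re with ha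
  have hreal := mult_real (μ := μ) h1 h2 h3
  have ha0 : 0 < a := by
    refine lt_of_le_of_ne (mult_nonneg h1 h2 h3) fun h => hne ?_
    rw [hreal, ← ha, ← h, Complex.ofReal_zero]
  have hher := her_mult h1 h2 h3
  have hM1 : (M (nm K) U fun v => (TH553.ST.chi π1 (x v) * TH553.ST.chi π2 (x v) *
      conj (TH553.ST.chi σ (x v))).re) = a := by
    have h6 := jl_of_law hU hx _ hher 0
    rw [if_pos rfl] at h6
    rw [ha, ← h6]
    congr 1
    funext v
    simp
  have hb1 : Bc fun v => TH553.ST.chi π1 (x v) := ⟨n1, fun v => norm_chi π1 _⟩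
  have hb2 : Bc fun v => TH553.ST.chi π2 (x v) := ⟨n2, fun v => norm_chi π2 _⟩
  have hbσ : Bc fun v => conj (TH553.ST.chi σ (x v)) :=
    ⟨k, fun v => by rw [Complex.norm_conj]; exact norm_chi σ _⟩
  have hbr1 : Bc fun v => (r1 : ℂ) * conj (tc ρ1 x' t1 v) :=
    (Bc.const (r1 : ℂ)).mul (bc_tc (π := ρ1) x' t1).conj
  have hbr2 : Bc fun v => (r2 : ℂ) * conj (tc ρ2 x' t2 v) :=
    (Bc.const (r2 : ℂ)).mul (bc_tc (π := ρ2) x' t2).conj
  have e1 : ∀ v, df r1 (tc π1 x 0) (tc ρ1 x' t1) v =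
      TH553.ST.chi π1 (x v) - (r1 : ℂ) * conj (tc ρ1 x' t1 v) := fun v => by
    unfold df
    rw [tc_zero]
  have e2 : ∀ v, df r2 (tc π2 x 0) (tc ρ2 x' t2) v =
      TH553.ST.chi π2 (x v) - (r2 : ℂ) * conj (tc ρ2 x' t2 v) := fun v => by
    unfold df
    rw [tc_zero]
  have hl1' := hl1 U hU
  have hl2' := hl2 U hU
  simp only [e1] at hl1'
  simp only [e2] at hl2'
  have hM2 := M_re_congr hU hb1 hbr1 (hb2.mul hbσ) hl1'
  have hM3 := M_re_congr hU hb2 hbr2 (hbr1.mul hbσ) hl2'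
  have hM4 : (M (nm K) U fun v => ((r2 : ℂ) * conj (tc ρ2 x' t2 v) *
      ((r1 : ℂ) * conj (tc ρ1 x' t1 v) * conj (TH553.ST.chi σ (x v)))).re) = a := by
    rw [← hM3, ← hM1]
    have e3 : (fun v => (TH553.ST.chi π1 (x v) * TH553.ST.chi π2 (x v) *
        conj (TH553.ST.chi σ (x v))).re) = fun v => (TH553.ST.chi π1 (x v) *
        (TH553.ST.chi π2 (x v) * conj (TH553.ST.chi σ (x v)))).re := by
      funext v
      rw [mul_assoc]
    rw [e3, hM2]
    congr 1
    funext v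
    congr 1
    ring
  -- the decomposition on the other side
  obtain ⟨J, _, m, σ', b, h6, h7, h8, h9⟩ := dec_tensor h4 h5
  have e4 : (fun v => ((r2 : ℂ) * conj (tc ρ2 x' t2 v) *
      ((r1 : ℂ) * conj (tc ρ1 x' t1 v) * conj (TH553.ST.chi σ (x v)))).re) =
      fun v => ∑ j, (r1 * r2 * b j) * (tc σ x 0 v * tc (σ' j) x' (t1 + t2) v).re := by
    funext v
    have hq : ((nm K v : ℕ) : ℂ) ≠ 0 := by
      have := nm_pos v
      exact_mod_cast this.ne'
    have e5 : (r2 : ℂ) * conj (tc ρ2 x' t2 v) *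
        ((r1 : ℂ) * conj (tc ρ1 x' t1 v) * conj (TH553.ST.chi σ (x v))) =
        conj (((r1 * r2 : ℝ) : ℂ) * (TH553.ST.chi σ (x v) * (tc ρ1 x' t1 v * tc ρ2 x' t2 v))) := by
      simp only [map_mul, Complex.conj_ofReal]
      push_cast
      ring
    have e6 : tc ρ1 x' t1 v * tc ρ2 x' t2 v = ∑ j, (b j : ℂ) * tc (σ' j) x' (t1 + t2) v := by
      unfold tc
      have e7 : (-(((t1 + t2 : ℝ) : ℂ) * I)) = (-(t1 * I : ℂ)) + (-(t2 * I : ℂ)) := by
        push_cast
        ring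
      rw [e7, Complex.cpow_add _ _ hq]
      have e8 : TH553.ST.chi ρ1 (x' v) * ((nm K v : ℕ) : ℂ) ^ (-(t1 * I : ℂ)) *
          (TH553.ST.chi ρ2 (x' v) * ((nm K v : ℕ) : ℂ) ^ (-(t2 * I : ℂ))) =
          (TH553.ST.chi ρ1 (x' v) * TH553.ST.chi ρ2 (x' v)) *
          (((nm K v : ℕ) : ℂ) ^ (-(t1 * I : ℂ)) * ((nm K v : ℕ) : ℂ) ^ (-(t2 * I : ℂ))) := by
        ring
      rw [e8, h9, Finset.sum_mul]
      exact Finset.sum_congr rfl fun j _ => by ring
    rw [e5, Complex.conj_re, Complex.re_ofReal_mul, e6, Finset.mul_sum, Complex.re_sum,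
      Finset.mul_sum]
    refine Finset.sum_congr rfl fun j _ => ?_
    rw [tc_zero]
    have e9 : TH553.ST.chi σ (x v) * ((b j : ℂ) * tc (σ' j) x' (t1 + t2) v) =
        (b j : ℂ) * (TH553.ST.chi σ (x v) * tc (σ' j) x' (t1 + t2) v) := by ring
    rw [e9, Complex.re_ofReal_mul]
    ring
  rw [e4] at hM4
  have hbj : ∀ j, Bd fun v => (tc σ x 0 v * tc (σ' j) x' (t1 + t2) v).re := fun j =>
    ((bc_tc (π := σ) x 0).mul (bc_tc (π := σ' j) x' (t1 + t2))).re
  rw [M_sum hN hU _ fun j _ => (hbj j).const_mul _] at hM4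
  have hpos : ∃ j, 0 < r1 * r2 * b j * (M (nm K) U fun v =>
      (tc σ x 0 v * tc (σ' j) x' (t1 + t2) v).re) := by
    by_contra hcon
    push Not at hcon
    have h10 : ∑ j, (M (nm K) U fun v => r1 * r2 * b j *
        (tc σ x 0 v * tc (σ' j) x' (t1 + t2) v).re) ≤ 0 := by
      refine Finset.sum_nonpos fun j _ => ?_
      rw [M_const_mul hN hU (hbj j)]
      exact hcon j
    linarith
  obtain ⟨j, hj⟩ := hpos
  obtain ⟨r, h10, h11⟩ := corr_cases hx hx' h3 hs (h6 j).1 (h6 j).2 hk (h7 j)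
    (fun h12 h13 => hcont h12 _ _ (h6 j).1 (h6 j).2 h13) (t1 + t2)
  rw [h10 U hU] at hj
  have hr0 : r ≠ 0 := by
    rintro rfl
    simp at hj
  obtain ⟨h12, h13⟩ := h11 hr0
  have hrr : 0 < r1 * r2 * r := by
    have h14 : 0 < b j * (r1 * r2 * r) := by
      have : r1 * r2 * b j * r = b j * (r1 * r2 * r) := by ring
      rwa [this] at hj
    exact (pos_iff_pos_of_mul_pos h14).1 (lt_of_le_of_ne (h8 j) fun h => by
      rw [← h, zero_mul] at h14
      exact lt_irrefl _ h14)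
  have hreq : r1 * r2 = r := by
    have h15 : |r1 * r2| = 1 := by rw [abs_mul, hr1, hr2, one_mul]
    rcases (abs_eq (zero_le_one' ℝ)).1 h15 with h16 | h16 <;>
      rcases (abs_eq (zero_le_one' ℝ)).1 h12 with h17 | h17
    · rw [h16, h17]
    · rw [h16, h17] at hrr
      norm_num at hrr
    · rw [h16, h17] at hrr
      norm_num at hrr
    · rw [h16, h17]
  exact ⟨m j, σ' j, (h6 j).1, (h6 j).2, h7 j, by rw [hreq]; exact h13⟩

end

end Pool.Agent.R370.ST
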