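import Pool.Agent.R370.ST.Two3

set_option autoImplicit false
set_option linter.unusedSectionVars false

/-!
# Two equidistributed families: independence
-/

namespace Pool.Agent.R370.ST

open Complex Filter Topology ComplexConjugate NumberField IsDedekindDomain MeasureTheory
  Pool.Agent.W540.BE Pool.Agent.TH553.RS Pool.Agent.TH553.ST
  Pool.Agent.H341R2
open scoped Kronecker Matrix

section

variable {K : Type} [Field K] [NumberField K]
variable {G : Type} [Group G] [TopologicalSpace G] [IsTopologicalGroup G] [CompactSpace G]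
  [MeasurableSpace G] [BorelSpace G] {μ : Measure G} [IsProbabilityMeasure μ] [μ.IsHaarMeasure]
  {n : ℕ} {π : G →* Matrix.unitaryGroup (Fin n) ℂ}
variable {G' : Type} [Group G'] [TopologicalSpace G'] [IsTopologicalGroup G'] [CompactSpace G']
  [MeasurableSpace G'] [BorelSpace G'] {μ' : Measure G'} [IsProbabilityMeasure μ']
  [μ'.IsHaarMeasure]
  {x : HeightOneSpectrum (𝓞 K) → G} {x' : HeightOneSpectrum (𝓞 K) → G'}

/-- class functions of the second family -/
theorem indep_cls [T2Space G'] (hx : Law x μ) (hc : Continuous π) (hs : Schur π)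
    (hnt : ∃ g, π g ≠ 1)
    (hz : ∀ (n' : ℕ) (π' : G' →* Matrix.unitaryGroup (Fin n') ℂ), Continuous π' → Schur π' →
      (∃ g, π' g ≠ 1) →
      Tendsto (mn fun v => TH553.ST.chi π (x v) * TH553.ST.chi π' (x' v)) atTop (𝓝 0))
    {f : G' → ℂ} (hf : Continuous f) (hcl : ∀ g h, f (h * g * h⁻¹) = f g) :
    Tendsto (mn fun v => TH553.ST.chi π (x v) * f (x' v)) atTop (𝓝 0) := by
  refine mn_unif fun ε hε => ?_
  obtain ⟨Fn, h1, h2⟩ := class_dense (G := G') hf hcl (ε := ε / ((n : ℝ) + 1)) (by positivity)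
  obtain ⟨J, _, m, ρ, a, h3, h4⟩ := h1
  refine ⟨fun v => TH553.ST.chi π (x v) * Fn (x' v), 0, fun v => ?_, by simpa using hε.le, ?_⟩
  · rw [← mul_sub, norm_mul]
    have h5 := norm_chi π (x v)
    have h6 := h2 (x' v)
    have h7 : ‖TH553.ST.chi π (x v)‖ * ‖f (x' v) - Fn (x' v)‖ ≤ (n : ℝ) * (ε / ((n : ℝ) + 1)) := by
      exact mul_le_mul h5 h6 (norm_nonneg _) (Nat.cast_nonneg _)
    refine h7.trans ?_
    rw [mul_div_assoc', div_le_iff₀ (by positivity)]
    nlinarith
  · have e : (fun v => TH553.ST.chi π (x v) * Fn (x' v)) =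
        fun v => ∑ j, a j * (TH553.ST.chi π (x v) * TH553.ST.chi (ρ j) (x' v)) := by
      funext v
      rw [h4, Finset.mul_sum]
      exact Finset.sum_congr rfl fun j _ => by ring
    rw [e]
    have h5 : Tendsto (fun N => ∑ j, a j *
        mn (fun v => TH553.ST.chi π (x v) * TH553.ST.chi (ρ j) (x' v)) N) atTop
        (𝓝 (∑ j, a j * 0)) := by
      refine tendsto_finsetSum _ fun j _ => Tendsto.const_mul _ ?_
      by_cases hj : ∃ g, ρ j g ≠ 1
      · exact hz _ (ρ j) (h3 j).1 (h3 j).2 hj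
      · push Not at hj
        have h6 := (law_c hx (cont_chi hc) (fun g h => chi_cls π g h)).const_mul (m j : ℂ)
        rw [int_chi hc hs hnt, mul_zero] at h6
        refine h6.congr fun N => ?_
        rw [← mn_mul]
        congr 1
        funext v
        rw [chi_triv hj, mul_comm]
    simp only [mul_zero, Finset.sum_const_zero] at h5
    refine h5.congr fun N => ?_
    rw [mn_sum]
    exact Finset.sum_congr rfl fun j _ => (mn_mul _ _ _).symm

/-- **Joint equidistribution.** -/
theorem joint_of_avg [T2Space G] [T2Space G'] [SecondCountableTopology G]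
    [SecondCountableTopology G'] (hx : Law x μ) (hx' : Law x' μ')
    (hz : ∀ (n n' : ℕ) (π : G →* Matrix.unitaryGroup (Fin n) ℂ)
      (π' : G' →* Matrix.unitaryGroup (Fin n') ℂ), Continuous π → Schur π → (∃ g, π g ≠ 1) →
      Continuous π' → Schur π' → (∃ g, π' g ≠ 1) →
      Tendsto (mn fun v => TH553.ST.chi π (x v) * TH553.ST.chi π' (x' v)) atTop (𝓝 0))
    {f : G × G' → ℂ} (hf : Continuous f)
    (hcl : ∀ g g' k k', f (k * g * k⁻¹, k' * g' * k'⁻¹) = f (g, g')) :
    Tendsto (mn fun v => f (x v, x' v)) atTop (𝓝 (∫ p, f p ∂(μ.prod μ'))) := by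
  refine mn_unif fun ε hε => ?_
  obtain ⟨k, m, m', ρ, ρ', a, h1, h2, h4⟩ := class_dense2 hf hcl hε
  refine ⟨fun v => ∑ i, a i * (TH553.ST.chi (ρ i) (x v) * TH553.ST.chi (ρ' i) (x' v)),
    ∑ i, a i * ((∫ g, TH553.ST.chi (ρ i) g ∂μ) * ∫ g, TH553.ST.chi (ρ' i) g ∂μ'),
    fun v => h4 _ _, ?_, ?_⟩
  · have hci : ∀ i, Continuous fun p : G × G' =>
        a i * (TH553.ST.chi (ρ i) p.1 * TH553.ST.chi (ρ' i) p.2) :=
      fun i => continuous_const.mul (((cont_chi (h1 i).1).comp continuous_fst).mul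
        ((cont_chi (h2 i).1).comp continuous_snd))
    have hFc : Continuous fun p : G × G' =>
        ∑ i, a i * (TH553.ST.chi (ρ i) p.1 * TH553.ST.chi (ρ' i) p.2) :=
      continuous_finsetSum _ fun i _ => hci i
    have hI : ∀ F : G × G' → ℂ, Continuous F → Integrable F (μ.prod μ') := fun F hF =>
      hF.integrable_of_hasCompactSupport (HasCompactSupport.of_compactSpace F)
    have h5 : ∫ p, (∑ i, a i * (TH553.ST.chi (ρ i) p.1 * TH553.ST.chi (ρ' i) p.2)) ∂(μ.prod μ') =
        ∑ i, a i * ((∫ g, TH553.ST.chi (ρ i) g ∂μ) * ∫ g, TH553.ST.chi (ρ' i) g ∂μ') := by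
      rw [integral_finsetSum _ fun i _ => hI _ (hci i)]
      refine Finset.sum_congr rfl fun i _ => ?_
      rw [integral_const_mul, integral_prod_mul]
    rw [← h5, ← integral_sub (hI _ hFc) (hI _ hf)]
    refine (norm_integral_le_integral_norm _).trans ?_
    have h6 : ∫ p, ‖(∑ i, a i * (TH553.ST.chi (ρ i) p.1 * TH553.ST.chi (ρ' i) p.2)) - f p‖
        ∂(μ.prod μ') ≤ ∫ _, ε ∂(μ.prod μ') := by
      refine integral_mono (hI _ hFc |>.sub (hI _ hf)).norm (integrable_const _) fun p => ?_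
      simp only
      rw [norm_sub_rev]
      exact h4 p.1 p.2
    simpa using h6
  · have hpair : ∀ i, Tendsto (mn fun v => TH553.ST.chi (ρ i) (x v) * TH553.ST.chi (ρ' i) (x' v))
        atTop (𝓝 ((∫ g, TH553.ST.chi (ρ i) g ∂μ) * ∫ g, TH553.ST.chi (ρ' i) g ∂μ')) := by
      intro i
      by_cases h5 : ∃ g, ρ i g ≠ 1
      · rw [int_chi (h1 i).1 (h1 i).2 h5, zero_mul]
        by_cases h6 : ∃ g, ρ' i g ≠ 1
        · exact hz _ _ _ _ (h1 i).1 (h1 i).2 h5 (h2 i).1 (h2 i).2 h6
        · push Not at h6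
          have h7 := (law_c hx (cont_chi (h1 i).1) (fun g h => chi_cls (ρ i) g h)).const_mul
            (m' i : ℂ)
          rw [int_chi (h1 i).1 (h1 i).2 h5, mul_zero] at h7
          refine h7.congr fun N => ?_
          rw [← mn_mul]
          congr 1
          funext v
          rw [chi_triv h6, mul_comm]
      · push Not at h5
        have h7 := (law_c hx' (cont_chi (h2 i).1) (fun g h => chi_cls (ρ' i) g h)).const_mul
          (m i : ℂ)
        have h8 : ∫ g, TH553.ST.chi (ρ i) g ∂μ = m i := by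
          simp only [chi_triv h5]
          simp
        rw [h8]
        refine h7.congr fun N => ?_
        rw [← mn_mul]
        congr 1
        funext v
        rw [chi_triv h5]
    have h5 : Tendsto (fun N => ∑ i, a i *
        mn (fun v => TH553.ST.chi (ρ i) (x v) * TH553.ST.chi (ρ' i) (x' v)) N)
        atTop (𝓝 (∑ i, a i * ((∫ g, TH553.ST.chi (ρ i) g ∂μ) *
          ∫ g, TH553.ST.chi (ρ' i) g ∂μ'))) :=
      tendsto_finsetSum _ fun i _ => (hpair i).const_mul _
    refine h5.congr fun N => ?_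
    rw [mn_sum]
    exact Finset.sum_congr rfl fun i _ => (mn_mul _ _ _).symm

end

end Pool.Agent.R370.ST
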