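import Pool.Agent.R370.ST.Two4

set_option autoImplicit false
set_option linter.unusedSectionVars false

/-!
# Two equidistributed families: the multiplicities
-/

namespace Pool.Agent.R370.ST

open Complex Filter Topology ComplexConjugate NumberField IsDedekindDomain MeasureTheory
  Pool.Agent.W540.BE Pool.Agent.TH553.RS Pool.Agent.TH553.ST
  Pool.Agent.H341R2
open scoped Kronecker Matrix

section

variable {K : Type} [Field K] [NumberField K]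
variable {G : Type} [Group G] [TopologicalSpace G] [IsTopologicalGroup G] [CompactSpace G]
  [MeasurableSpace G] [BorelSpace G] {μ : Measure G} [IsProbabilityMeasure μ] [μ.IsHaarMeasure]
variable {G' : Type} [Group G'] [TopologicalSpace G'] [IsTopologicalGroup G'] [CompactSpace G']
  [MeasurableSpace G'] [BorelSpace G'] {μ' : Measure G'} [IsProbabilityMeasure μ']
  [μ'.IsHaarMeasure]
  {x : HeightOneSpectrum (𝓞 K) → G} {x' : HeightOneSpectrum (𝓞 K) → G'}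

/-- the product of three characters has the multiplicity as mean value -/
theorem M_mult {n1 n2 k : ℕ} {π1 : G →* Matrix.unitaryGroup (Fin n1) ℂ}
    {π2 : G →* Matrix.unitaryGroup (Fin n2) ℂ} {σ : G →* Matrix.unitaryGroup (Fin k) ℂ}
    (hx : Law x μ) (h1 : Continuous π1) (h2 : Continuous π2) (h3 : Continuous σ)
    {U : Ultrafilter ℝ} (hU : (U : Filter ℝ) ≤ 𝓝[>] 0) :
    (M (nm K) U fun v => (TH553.ST.chi π1 (x v) * TH553.ST.chi π2 (x v) *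
      conj (TH553.ST.chi σ (x v))).re) =
      (∫ g, TH553.ST.chi π1 g * TH553.ST.chi π2 g * conj (TH553.ST.chi σ g) ∂μ).re := by
  have h6 := jl_of_law hU hx _ (her_mult h1 h2 h3) 0
  rw [if_pos rfl] at h6
  rw [← h6]
  congr 1
  funext v
  simp

/-- **The multiplicities agree.** -/
theorem mult_eq {n1 n2 m1 m2 k k' : ℕ} {π1 : G →* Matrix.unitaryGroup (Fin n1) ℂ}
    {π2 : G →* Matrix.unitaryGroup (Fin n2) ℂ} {σ : G →* Matrix.unitaryGroup (Fin k) ℂ}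
    {ρ1 : G' →* Matrix.unitaryGroup (Fin m1) ℂ} {ρ2 : G' →* Matrix.unitaryGroup (Fin m2) ℂ}
    {σ' : G' →* Matrix.unitaryGroup (Fin k') ℂ}
    (hx : Law x μ) (hx' : Law x' μ') (h1 : Continuous π1) (h2 : Continuous π2)
    (h3 : Continuous σ) (h4 : Continuous ρ1) (h5 : Continuous ρ2) (h6 : Continuous σ')
    {t1 t2 r1 r2 : ℝ} (hr1 : |r1| = 1) (hr2 : |r2| = 1)
    (hl1 : ∀ U : Ultrafilter ℝ, (U : Filter ℝ) ≤ 𝓝[>] 0 →
      (M (nm K) U fun v => ‖df r1 (tc π1 x 0) (tc ρ1 x' t1) v‖ ^ 2) = 0)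
    (hl2 : ∀ U : Ultrafilter ℝ, (U : Filter ℝ) ≤ 𝓝[>] 0 →
      (M (nm K) U fun v => ‖df r2 (tc π2 x 0) (tc ρ2 x' t2) v‖ ^ 2) = 0)
    (hl3 : ∀ U : Ultrafilter ℝ, (U : Filter ℝ) ≤ 𝓝[>] 0 →
      (M (nm K) U fun v => ‖df (r1 * r2) (tc σ x 0) (tc σ' x' (t1 + t2)) v‖ ^ 2) = 0) :
    ∫ g, TH553.ST.chi π1 g * TH553.ST.chi π2 g * conj (TH553.ST.chi σ g) ∂μ =
      ∫ g, TH553.ST.chi ρ1 g * TH553.ST.chi ρ2 g * conj (TH553.ST.chi σ' g) ∂μ' := by
  obtain ⟨U, hU⟩ := Ultrafilter.exists_le (𝓝[>] (0 : ℝ))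
  rw [mult_real h1 h2 h3, mult_real h4 h5 h6, ← M_mult hx h1 h2 h3 hU, ← M_mult hx' h4 h5 h6 hU]
  congr 1
  have hb1 : Bc fun v => TH553.ST.chi π1 (x v) := ⟨n1, fun v => norm_chi π1 _⟩
  have hb2 : Bc fun v => TH553.ST.chi π2 (x v) := ⟨n2, fun v => norm_chi π2 _⟩
  have hbσ : Bc fun v => conj (TH553.ST.chi σ (x v)) :=
    ⟨k, fun v => by rw [Complex.norm_conj]; exact norm_chi σ _⟩
  have hbr1 : Bc fun v => (r1 : ℂ) * conj (tc ρ1 x' t1 v) :=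
    (Bc.const (r1 : ℂ)).mul (bc_tc (π := ρ1) x' t1).conj
  have hbr2 : Bc fun v => (r2 : ℂ) * conj (tc ρ2 x' t2 v) :=
    (Bc.const (r2 : ℂ)).mul (bc_tc (π := ρ2) x' t2).conj
  have hbσ' : Bc fun v => ((r1 * r2 : ℝ) : ℂ) * tc σ' x' (t1 + t2) v :=
    (Bc.const ((r1 * r2 : ℝ) : ℂ)).mul (bc_tc (π := σ') x' (t1 + t2))
  have hl1' := hl1 U hU
  have hl2' := hl2 U hU
  have hl3' := hl3 U hU
  have e1 : ∀ v, df r1 (tc π1 x 0) (tc ρ1 x' t1) v =
      TH553.ST.chi π1 (x v) - (r1 : ℂ) * conj (tc ρ1 x' t1 v) := fun v => by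
    unfold df
    rw [tc_zero]
  have e2 : ∀ v, df r2 (tc π2 x 0) (tc ρ2 x' t2) v =
      TH553.ST.chi π2 (x v) - (r2 : ℂ) * conj (tc ρ2 x' t2 v) := fun v => by
    unfold df
    rw [tc_zero]
  have e3 : ∀ v, ‖df (r1 * r2) (tc σ x 0) (tc σ' x' (t1 + t2)) v‖ =
      ‖conj (TH553.ST.chi σ (x v)) - ((r1 * r2 : ℝ) : ℂ) * tc σ' x' (t1 + t2) v‖ := fun v => by
    unfold df
    rw [tc_zero, ← Complex.norm_conj, map_sub, map_mul, Complex.conj_conj, Complex.conj_ofReal]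
  simp only [e1] at hl1'
  simp only [e2] at hl2'
  simp only [e3] at hl3'
  have hM1 := M_re_congr hU hb1 hbr1 (hb2.mul hbσ) hl1'
  have hM2 := M_re_congr hU hb2 hbr2 (hbr1.mul hbσ) hl2'
  have hM3 := M_re_congr hU hbσ hbσ' (hbr1.mul hbr2) hl3'
  have c1 : (fun v => (TH553.ST.chi π1 (x v) * TH553.ST.chi π2 (x v) *
      conj (TH553.ST.chi σ (x v))).re) = fun v => (TH553.ST.chi π1 (x v) *
      (TH553.ST.chi π2 (x v) * conj (TH553.ST.chi σ (x v)))).re := by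
    funext v
    rw [mul_assoc]
  rw [c1, hM1]
  have c2 : (fun v => ((r1 : ℂ) * conj (tc ρ1 x' t1 v) *
      (TH553.ST.chi π2 (x v) * conj (TH553.ST.chi σ (x v)))).re) =
      fun v => (TH553.ST.chi π2 (x v) * ((r1 : ℂ) * conj (tc ρ1 x' t1 v) *
        conj (TH553.ST.chi σ (x v)))).re := by
    funext v
    congr 1
    ring
  rw [c2, hM2]
  have c3 : (fun v => ((r2 : ℂ) * conj (tc ρ2 x' t2 v) *
      ((r1 : ℂ) * conj (tc ρ1 x' t1 v) * conj (TH553.ST.chi σ (x v)))).re) =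
      fun v => (conj (TH553.ST.chi σ (x v)) * ((r1 : ℂ) * conj (tc ρ1 x' t1 v) *
        ((r2 : ℂ) * conj (tc ρ2 x' t2 v)))).re := by
    funext v
    congr 1
    ring
  rw [c3, hM3]
  congr 1
  funext v
  have hq : ((nm K v : ℕ) : ℂ) ≠ 0 := by
    have := nm_pos v
    exact_mod_cast this.ne'
  set z1 := ((nm K v : ℕ) : ℂ) ^ (-(t1 * I : ℂ)) with hz1
  set z2 := ((nm K v : ℕ) : ℂ) ^ (-(t2 * I : ℂ)) with hz2
  have hn1 : z1 * conj z1 = 1 := by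
    rw [Complex.mul_conj, Complex.normSq_eq_norm_sq, hz1, norm_cpow_I (nm_pos v)]
    simp
  have hn2 : z2 * conj z2 = 1 := by
    rw [Complex.mul_conj, Complex.normSq_eq_norm_sq, hz2, norm_cpow_I (nm_pos v)]
    simp
  have hr12 : (r1 : ℂ) * r1 = 1 := by
    have h7 : r1 * r1 = 1 := by
      rw [← abs_mul_abs_self, hr1, one_mul]
    exact_mod_cast h7
  have hr22 : (r2 : ℂ) * r2 = 1 := by
    have h7 : r2 * r2 = 1 := by
      rw [← abs_mul_abs_self, hr2, one_mul]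
    exact_mod_cast h7
  have e4 : tc σ' x' (t1 + t2) v = TH553.ST.chi σ' (x' v) * (z1 * z2) := by
    unfold tc
    have e7 : (-(((t1 + t2 : ℝ) : ℂ) * I)) = (-(t1 * I : ℂ)) + (-(t2 * I : ℂ)) := by
      push_cast
      ring
    rw [e7, Complex.cpow_add _ _ hq]
  have e5 : tc ρ1 x' t1 v = TH553.ST.chi ρ1 (x' v) * z1 := rfl
  have e6 : tc ρ2 x' t2 v = TH553.ST.chi ρ2 (x' v) * z2 := rfl
  rw [e4, e5, e6, ← Complex.conj_re]
  congr 1
  simp only [map_mul, Complex.conj_ofReal, Complex.conj_conj]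
  push_cast
  have e8 : (r1 : ℂ) * r2 * (conj (TH553.ST.chi σ' (x' v)) * (conj z1 * conj z2)) *
      ((r1 : ℂ) * (TH553.ST.chi ρ1 (x' v) * z1) * ((r2 : ℂ) * (TH553.ST.chi ρ2 (x' v) * z2))) =
      ((r1 : ℂ) * r1) * ((r2 : ℂ) * r2) * (z1 * conj z1) * (z2 * conj z2) *
      (TH553.ST.chi ρ1 (x' v) * TH553.ST.chi ρ2 (x' v) * conj (TH553.ST.chi σ' (x' v))) := by
    ring
  rw [e8, hr12, hr22, hn1, hn2]
  ring

/-- natural mean squares are mean squares along ultrafilters -/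
theorem M_of_nat {D : HeightOneSpectrum (𝓞 K) → ℂ} (hD : Bc D)
    (h : Tendsto (mn fun v => ‖D v‖ ^ 2) atTop (𝓝 0)) {U : Ultrafilter ℝ}
    (hU : (U : Filter ℝ) ≤ 𝓝[>] 0) : (M (nm K) U fun v => ‖D v‖ ^ 2) = 0 :=
  M_of_mn hU hD.norm.sq h

end

end Pool.Agent.R370.ST
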